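import Pool.Agent.Helper813.FClass

set_option autoImplicit false
set_option linter.unusedSectionVars false

namespace Pool.Agent.Helper813

open scoped commutatorElement

/-- the permutational wreath product -/
@[ext] structure X (Y Ω S : Type) where
  k : Ω → S
  y : Y

namespace X

variable {Y Ω S : Type} [Group Y] [Group S] [MulAction Y Ω]

instance : Mul (X Y Ω S) := ⟨fun a b => ⟨fun ω => a.k ω * b.k (a.y⁻¹ • ω), a.y * b.y⟩⟩
instance : One (X Y Ω S) := ⟨⟨fun _ => 1, 1⟩⟩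
instance : Inv (X Y Ω S) := ⟨fun a => ⟨fun ω => (a.k (a.y • ω))⁻¹, a.y⁻¹⟩⟩

@[simp] lemma mul_k (a b : X Y Ω S) (ω : Ω) : (a * b).k ω = a.k ω * b.k (a.y⁻¹ • ω) := rfl
@[simp] lemma mul_y (a b : X Y Ω S) : (a * b).y = a.y * b.y := rfl
@[simp] lemma one_k (ω : Ω) : (1 : X Y Ω S).k ω = 1 := rfl
@[simp] lemma one_y : (1 : X Y Ω S).y = 1 := rfl
@[simp] lemma inv_k (a : X Y Ω S) (ω : Ω) : (a⁻¹).k ω = (a.k (a.y • ω))⁻¹ := rfl
@[simp] lemma inv_y (a : X Y Ω S) : (a⁻¹).y = a.y⁻¹ := rfl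

instance : Group (X Y Ω S) := Group.ofLeftAxioms
  (by
    intro a b c
    ext ω
    · simp [mul_assoc, mul_smul]
    · simp [mul_assoc])
  (by
    intro a
    ext ω
    · simp
    · simp)
  (by
    intro a
    ext ω
    · simp
    · simp)

instance [Finite Y] [Finite Ω] [Finite S] : Finite (X Y Ω S) :=
  Finite.of_injective (fun a : X Y Ω S => (a.k, a.y)) (by
    rintro ⟨a, b⟩ ⟨c, d⟩ h
    simp only [Prod.mk.injEq] at h
    ext ω
    · exact congrFun h.1 ω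
    · exact h.2)

/-- projection to the top group -/
def pr : X Y Ω S →* Y where
  toFun := X.y
  map_one' := rfl
  map_mul' _ _ := rfl

@[simp] lemma pr_apply (a : X Y Ω S) : pr a = a.y := rfl

lemma pr_surj : Function.Surjective (pr : X Y Ω S →* Y) := fun y => ⟨⟨fun _ => 1, y⟩, rfl⟩

lemma mem_ker {a : X Y Ω S} : a ∈ (pr : X Y Ω S →* Y).ker ↔ a.y = 1 := by
  rw [MonoidHom.mem_ker]; rfl

variable [DecidableEq Ω]

/-- one coordinate element -/
def sg (ω : Ω) (s : S) : X Y Ω S := ⟨Pi.mulSingle ω s, 1⟩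

@[simp] lemma sg_k_self (ω : Ω) (s : S) : (sg ω s : X Y Ω S).k ω = s := by simp [sg]
lemma sg_k_ne {ω ω' : Ω} (h : ω' ≠ ω) (s : S) : (sg ω s : X Y Ω S).k ω' = 1 := by
  simp [sg, Pi.mulSingle_eq_of_ne h]
@[simp] lemma sg_y (ω : Ω) (s : S) : (sg ω s : X Y Ω S).y = 1 := rfl

lemma sg_mul (ω : Ω) (s t : S) : (sg ω (s * t) : X Y Ω S) = sg ω s * sg ω t := by
  ext ω'
  · by_cases h : ω' = ω
    · subst h; simp
    · simp [sg_k_ne h]
  · simp

lemma sg_one (ω : Ω) : (sg ω 1 : X Y Ω S) = 1 := by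
  ext ω'
  · by_cases h : ω' = ω
    · subst h; simp
    · simp [sg_k_ne h]
  · simp

/-- `sg` as a homomorphism -/
def sgHom (ω : Ω) : S →* X Y Ω S where
  toFun := sg ω
  map_one' := sg_one ω
  map_mul' := sg_mul ω

@[simp] lemma sgHom_apply (ω : Ω) (s : S) : (sgHom ω s : X Y Ω S) = sg ω s := rfl

lemma sgHom_inj (ω : Ω) : Function.Injective (sgHom ω : S →* X Y Ω S) := by
  intro s t h
  have := congrArg (fun a : X Y Ω S => a.k ω) h
  simpa using this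

/-- the coordinate subgroup -/
def Sw (ω : Ω) : Subgroup (X Y Ω S) := (sgHom ω).range

lemma mem_Sw {ω : Ω} {a : X Y Ω S} : a ∈ Sw ω ↔ a.y = 1 ∧ ∀ ω' ≠ ω, a.k ω' = 1 := by
  constructor
  · rintro ⟨s, rfl⟩
    exact ⟨rfl, fun ω' h => sg_k_ne h s⟩
  · rintro ⟨h1, h2⟩
    refine ⟨a.k ω, ?_⟩
    ext ω'
    · by_cases h : ω' = ω
      · subst h; simp
      · rw [h2 ω' h, sgHom_apply, sg_k_ne h]
    · rw [h1]; rfl

lemma conj_k (a b : X Y Ω S) (ω : Ω) (hb : b.y = 1) :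
    (a * b * a⁻¹).k ω = a.k ω * b.k (a.y⁻¹ • ω) * (a.k ω)⁻¹ := by
  simp [hb]

lemma conj_sg (a : X Y Ω S) (ω : Ω) (s : S) :
    a * sg ω s * a⁻¹ = sg (a.y • ω) (a.k (a.y • ω) * s * (a.k (a.y • ω))⁻¹) := by
  ext ω'
  · rw [conj_k _ _ _ rfl]
    by_cases h : ω' = a.y • ω
    · subst h; simp
    · have h' : a.y⁻¹ • ω' ≠ ω := by
        intro h2; apply h; rw [← h2]; simp
      rw [sg_k_ne h', sg_k_ne h]; simp
  · simp

lemma mem_Nz_Sw [Nontrivial S] {ω : Ω} {a : X Y Ω S} : a ∈ Nz (Sw ω : Subgroup (X Y Ω S)) ↔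
    a.y • ω = ω := by
  constructor
  · intro h
    obtain ⟨s, hs⟩ := exists_ne (1 : S)
    have h1 := Nz_conj h (show sg ω s ∈ Sw ω from ⟨s, rfl⟩)
    rw [conj_sg, mem_Sw] at h1
    by_contra hne
    have h2 := h1.2 _ hne
    simp only [sg_k_self] at h2
    apply hs
    exact conj_eq_one_iff.1 h2
  · have key : ∀ a : X Y Ω S, a.y • ω = ω → ∀ x ∈ (Sw ω : Subgroup (X Y Ω S)),
        a * x * a⁻¹ ∈ (Sw ω : Subgroup (X Y Ω S)) := by
      rintro a h _ ⟨s, rfl⟩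
      rw [sgHom_apply, conj_sg, h]
      exact ⟨_, rfl⟩
    intro h
    refine mem_Nz_of (key a h) ?_
    intro x hx
    have h2 : (a⁻¹).y • ω = ω := by
      rw [inv_y, inv_smul_eq_iff, h]
    have := key a⁻¹ h2 x hx
    simpa using this

lemma ker_le_Nz_Sw [Nontrivial S] (ω : Ω) :
    (pr : X Y Ω S →* Y).ker ≤ Nz (Sw ω : Subgroup (X Y Ω S)) := by
  intro a ha
  rw [mem_Nz_Sw, mem_ker.1 ha, one_smul]

lemma Sw_le_ker (ω : Ω) : (Sw ω : Subgroup (X Y Ω S)) ≤ (pr : X Y Ω S →* Y).ker := by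
  intro a ha
  exact mem_ker.2 (mem_Sw.1 ha).1

lemma Sw_subnormal [Nontrivial S] (ω : Ω) : (Sw ω : Subgroup (X Y Ω S)).IsSubnormal :=
  Subgroup.IsSubnormal.step _ _ (Sw_le_ker ω) (pr : X Y Ω S →* Y).normal_ker.isSubnormal
    ((Subgroup.normal_subgroupOf_iff_le_normalizer (Sw_le_ker ω)).2 (ker_le_Nz_Sw ω))

/-- any subgroup normalised by `Sw ω` and inside `Sw ω` is trivial or all. -/
lemma Sw_simple [IsSimpleGroup S] {ω : Ω} {A : Subgroup (X Y Ω S)}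
    (hA : (Sw ω : Subgroup (X Y Ω S)) ≤ Nz A) :
    (∀ s : S, sg ω s ∈ A → s = 1) ∨ Sw ω ≤ A := by
  have hn : (A.comap (sgHom ω)).Normal := by
    constructor
    intro s hs t
    rw [Subgroup.mem_comap] at hs ⊢
    rw [map_mul, map_mul, map_inv]
    exact Nz_conj (hA ⟨t, rfl⟩) hs
  rcases hn.eq_bot_or_eq_top with h | h
  · left
    intro s hs
    have : s ∈ A.comap (sgHom ω) := hs
    rw [h] at this
    simpa using this
  · right
    rintro _ ⟨s, rfl⟩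
    have : s ∈ A.comap (sgHom ω) := by rw [h]; trivial
    exact this

lemma prim_top_of_simple [IsSimpleGroup S] (hp : ⁅(⊤ : Subgroup S), (⊤ : Subgroup S)⁆ = (⊤ : Subgroup S)) :
    Prim (⊤ : Subgroup S) := by
  refine ⟨?_, hp, ?_⟩
  · intro h
    exact top_ne_bot h
  · intro A B _ _ hA hB hAB
    have hAn : A.Normal := Subgroup.normalizer_eq_top_iff.1 (top_le_iff.1 hA)
    rcases hAn.eq_bot_or_eq_top with h | h
    · right; rw [h, bot_sup_eq] at hAB; exact hAB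
    · left; rw [h]

lemma Sw_head [IsSimpleGroup S] (hp : ⁅(⊤ : Subgroup S), (⊤ : Subgroup S)⁆ = (⊤ : Subgroup S)) (ω : Ω) :
    Head (Sw ω : Subgroup (X Y Ω S)) := by
  refine ⟨Sw_subnormal ω, ?_⟩
  have := (prim_top_of_simple hp).map_inj (sgHom_inj (Y := Y) ω)
  rwa [← MonoidHom.range_eq_map] at this

/-- coordinate-killing decomposition -/
lemma head_le_ker [IsSimpleGroup S] (hZ : ∀ s : S, (∀ t, t * s = s * t) → s = 1)
    {D : Subgroup (X Y Ω S)} (hD : Head D) (hDK : D ≤ (pr : X Y Ω S →* Y).ker) :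
    ∃ ω, D = Sw ω := by
  -- a nontrivial element
  obtain ⟨d, hd, hd1⟩ : ∃ d ∈ D, d ≠ 1 := by
    by_contra hcon
    push Not at hcon
    exact hD.2.1 ((Subgroup.eq_bot_iff_forall D).2 hcon)
  have hdy : d.y = 1 := mem_ker.1 (hDK hd)
  obtain ⟨ω, hω⟩ : ∃ ω, d.k ω ≠ 1 := by
    by_contra hcon
    push Not at hcon
    refine hd1 (X.ext ?_ hdy)
    funext ω; exact hcon ω
  refine ⟨ω, ?_⟩
  set K := (pr : X Y Ω S →* Y).ker with hK
  have hDH := hD.to_sub hDK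
  have hSn : ((Sw ω : Subgroup (X Y Ω S)).subgroupOf K).Normal :=
    (Subgroup.normal_subgroupOf_iff_le_normalizer (Sw_le_ker ω)).2 (ker_le_Nz_Sw ω)
  -- either `D ≤ Sw ω` or `Sw ω ≤ D`
  have hSD : Sw ω ≤ D := by
    by_cases hc : D.subgroupOf K ≤ (Sw ω : Subgroup (X Y Ω S)).subgroupOf K
    · have hc' : D ≤ Sw ω := by
        intro x hx
        exact hc (show (⟨x, hDK hx⟩ : K) ∈ D.subgroupOf K from hx)
      have h1 := hD.to_sub hc'
      -- `D` is subnormal in the simple group `Sw ω`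
      have h2 : (D.subgroupOf (Sw ω)).IsSubnormal := h1.1
      have hsimple : IsSimpleGroup (Sw ω : Subgroup (X Y Ω S)) := by
        have e : S ≃* (Sw ω : Subgroup (X Y Ω S)) := MonoidHom.ofInjective (sgHom_inj ω)
        have hnt : Nontrivial (Sw ω : Subgroup (X Y Ω S)) := e.symm.toEquiv.nontrivial
        exact IsSimpleGroup.isSimpleGroup_of_surjective e.toMonoidHom e.surjective
      have h3 := h2.eq_bot_or_top_of_isSimpleGroup hsimple
      rcases h3 with h | h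
      · exact absurd h h1.2.1
      · exact Subgroup.subgroupOf_eq_top.1 h
    · have h1 := hDH.normal_le_Nz hSn hc
      have h2 : Sw ω ≤ Nz D := by
        intro s hs
        have h3 := h1 (show (⟨s, Sw_le_ker ω hs⟩ : K) ∈ (Sw ω : Subgroup (X Y Ω S)).subgroupOf K from hs)
        have h4 := (Nz_map_inj K.subtype_injective).1 h3
        rwa [Subgroup.map_subgroupOf_eq_of_le hDK] at h4
      rcases Sw_simple h2 with h | h
      · exfalso
        apply hω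
        apply hZ
        intro t
        -- commutator of `sg ω t` and `d`
        have h3 : sg ω t * d * (sg ω t)⁻¹ * d⁻¹ ∈ D :=
          mul_mem (Nz_conj (h2 ⟨t, rfl⟩) hd) (inv_mem hd)
        have h4 : sg ω t * d * (sg ω t)⁻¹ * d⁻¹ = sg ω (t * (d.k ω * t⁻¹ * (d.k ω)⁻¹)) := by
          have h5 : sg ω t * d * (sg ω t)⁻¹ * d⁻¹ = sg ω t * (d * sg ω t⁻¹ * d⁻¹) := by
            rw [← sgHom_apply ω t, ← sgHom_apply ω t⁻¹, map_inv]; group
          rw [h5, conj_sg, hdy, one_smul, ← sg_mul]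
        rw [h4] at h3
        have h6 := h _ h3
        have h7 : t * d.k ω * t⁻¹ * (d.k ω)⁻¹ = 1 := by rw [← h6]; group
        rw [mul_inv_eq_one, mul_inv_eq_iff_eq_mul] at h7
        exact h7
      · exact h
  -- now use the head property
  refine le_antisymm ?_ hSD
  let N : Subgroup (X Y Ω S) :=
    { carrier := {x | x.y = 1 ∧ x.k ω = 1}
      one_mem' := ⟨rfl, rfl⟩
      mul_mem' := by
        rintro a b ⟨ha, ha'⟩ ⟨hb, hb'⟩
        refine ⟨by simp [ha, hb], ?_⟩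
        simp [ha, ha', hb']
      inv_mem' := by
        rintro a ⟨ha, ha'⟩
        exact ⟨by simp [ha], by simp [ha, ha']⟩ }
  have hN : ∀ x ∈ D, ∀ n ∈ N, x * n * x⁻¹ ∈ N := by
    rintro x hx n ⟨hn, hn'⟩
    have hxy : x.y = 1 := mem_ker.1 (hDK hx)
    refine ⟨by simp [hn], ?_⟩
    rw [conj_k _ _ _ hn, hxy]; simp [hn']
  have g1 : D ≤ Nz (D ⊓ N) := by
    intro x hx
    refine mem_Nz_of ?_ ?_
    · intro n hn
      rw [Subgroup.mem_inf] at hn ⊢
      exact ⟨mul_mem (mul_mem hx hn.1) (inv_mem hx), hN x hx n hn.2⟩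
    · intro n hn
      rw [Subgroup.mem_inf] at hn ⊢
      refine ⟨mul_mem (mul_mem (inv_mem hx) hn.1) hx, ?_⟩
      have := hN x⁻¹ (inv_mem hx) n hn.2
      simpa using this
  have g2 : D ≤ Sw ω ⊔ (D ⊓ N) := by
    intro x hx
    have hxy : x.y = 1 := mem_ker.1 (hDK hx)
    have e : x = sg ω (x.k ω) * ((sg ω (x.k ω))⁻¹ * x) := by group
    have h1 : sg ω (x.k ω) ∈ (Sw ω : Subgroup (X Y Ω S)) := ⟨_, rfl⟩
    have h2 : (sg ω (x.k ω))⁻¹ * x ∈ D ⊓ N := by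
      refine Subgroup.mem_inf.2 ⟨mul_mem (inv_mem (hSD h1)) hx, ?_⟩
      exact ⟨by simp [hxy], by simp⟩
    rw [e]
    exact Subgroup.mul_mem_sup h1 h2
  rcases hD.2.2.2 (Sw ω) (D ⊓ N) hSD inf_le_left (hDK.trans (ker_le_Nz_Sw ω)) g1 g2 with h | h
  · exact h
  · exact absurd ((Subgroup.mem_inf.1 (h hd)).2).2 hω

/-- the covering lemma -/
lemma star [Finite Ω] (hp : ⁅(⊤ : Subgroup S), (⊤ : Subgroup S)⁆ = (⊤ : Subgroup S))
    {E' : Subgroup Y} (hmove : ∀ ω : Ω, ∃ e ∈ E', e • ω ≠ ω) {A : Subgroup (X Y Ω S)}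
    (hNz : E'.comap pr ≤ Nz A) (hcov : ∀ e ∈ E', ∃ a ∈ A, a.y = e) : E'.comap pr ≤ A := by
  have hsgE : ∀ (ω : Ω) (s : S), (sg ω s : X Y Ω S) ∈ E'.comap pr := fun ω s => one_mem E'
  have hcomm : ∀ c : X Y Ω S, ∀ a ∈ A, c ∈ E'.comap pr → a * c * a⁻¹ * c⁻¹ ∈ A := by
    intro c a ha hc
    have e : a * c * a⁻¹ * c⁻¹ = a * (c * a⁻¹ * c⁻¹) := by group
    rw [e]
    exact mul_mem ha (Nz_conj (hNz hc) (inv_mem ha))
  have h1 : ∀ ω : Ω, ∀ s t : S, (sg ω ⁅s, t⁆ : X Y Ω S) ∈ A := by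
    intro ω s t
    obtain ⟨e, he, heω⟩ := hmove ω
    obtain ⟨a, ha, rfl⟩ := hcov e he
    have h2 := hcomm (sg ω s⁻¹) a ha (hsgE ω _)
    have h3 := hcomm (sg ω t) _ h2 (hsgE ω _)
    have h4 : a * sg ω s⁻¹ * a⁻¹ * (sg ω s⁻¹)⁻¹ * sg ω t * (a * sg ω s⁻¹ * a⁻¹ * (sg ω s⁻¹)⁻¹)⁻¹
        * (sg ω t)⁻¹ = sg ω ⁅s, t⁆ := by
      rw [conj_sg]
      set c : X Y Ω S := sg (a.y • ω) (a.k (a.y • ω) * s⁻¹ * (a.k (a.y • ω))⁻¹) * (sg ω s⁻¹)⁻¹
        with hc
      have hcy : c.y = 1 := by simp [hc]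
      have hck : c.k ω = s := by
        simp [hc, sg_k_ne (Ne.symm heω)]
      rw [conj_sg, hcy, one_smul, hck]
      rw [← sgHom_apply ω t, ← map_inv, sgHom_apply, ← sg_mul, commutatorElement_def]
    rw [h4] at h3
    exact h3
  have h2 : ∀ ω : Ω, ∀ s : S, (sg ω s : X Y Ω S) ∈ A := by
    intro ω
    have h3 : ⁅(⊤ : Subgroup S), (⊤ : Subgroup S)⁆ ≤ A.comap (sgHom ω) := by
      rw [Subgroup.commutator_le]
      intro s _ t _
      exact h1 ω s t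
    rw [hp] at h3
    intro s
    exact h3 (Subgroup.mem_top s)
  have h3 : ∀ T : Finset Ω, ∀ x : X Y Ω S, x.y = 1 → (∀ ω ∉ T, x.k ω = 1) → x ∈ A := by
    intro T
    induction T using Finset.induction_on with
    | empty =>
      intro x hx hx'
      have : x = 1 := X.ext (by funext ω; exact hx' ω (by simp)) hx
      rw [this]; exact one_mem _
    | insert ω T hω ih =>
      intro x hx hx'
      have h4 : (sg ω (x.k ω))⁻¹ * x ∈ A := by
        refine ih _ (by simp [hx]) ?_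
        intro ω' hω'
        by_cases h : ω' = ω
        · subst h; simp
        · simp [sg_k_ne h, hx' ω' (by simp [h, hω'])]
      have e : x = sg ω (x.k ω) * ((sg ω (x.k ω))⁻¹ * x) := by group
      rw [e]
      exact mul_mem (h2 ω _) h4
  have := Fintype.ofFinite Ω
  intro x hx
  obtain ⟨a, ha, hax⟩ := hcov x.y hx
  have h4 : a⁻¹ * x ∈ A := h3 Finset.univ _ (by simp [hax]) (by simp)
  have e : x = a * (a⁻¹ * x) := by group
  rw [e]
  exact mul_mem ha h4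

lemma comap_head [Finite Ω] (hp : ⁅(⊤ : Subgroup S), (⊤ : Subgroup S)⁆ = (⊤ : Subgroup S))
    {E' : Subgroup Y} (hmove : ∀ ω : Ω, ∃ e ∈ E', e • ω ≠ ω) (hE : Head E') :
    Head (E'.comap (pr : X Y Ω S →* Y)) := by
  have hmc : ∀ A : Subgroup (X Y Ω S), E' ≤ A.map pr → ∀ e ∈ E', ∃ a ∈ A, a.y = e := by
    intro A hA e he
    obtain ⟨a, ha, h⟩ := hA he
    exact ⟨a, ha, h⟩
  have hmap : (E'.comap (pr : X Y Ω S →* Y)).map pr = E' :=
    Subgroup.map_comap_eq_self_of_surjective pr_surj E'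
  refine ⟨hE.1.comap _, ?_, ?_, ?_⟩
  · intro h
    apply hE.2.1
    rw [← hmap, h, Subgroup.map_bot]
  · have hle : ⁅E'.comap (pr : X Y Ω S →* Y), E'.comap (pr : X Y Ω S →* Y)⁆ ≤
        E'.comap (pr : X Y Ω S →* Y) := Subgroup.commutator_le.2 (fun a ha b hb => by
      rw [commutatorElement_def]
      exact mul_mem (mul_mem (mul_mem ha hb) (inv_mem ha)) (inv_mem hb))
    refine le_antisymm hle (star hp hmove ?_ (hmc _ ?_))
    · have hh : ∀ d ∈ E'.comap (pr : X Y Ω S →* Y), ∀ x ∈ ⁅E'.comap (pr : X Y Ω S →* Y),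
          E'.comap (pr : X Y Ω S →* Y)⁆, d * x * d⁻¹ ∈ ⁅E'.comap (pr : X Y Ω S →* Y),
          E'.comap (pr : X Y Ω S →* Y)⁆ := by
        intro d hd x hx
        have e1 : d * x * d⁻¹ = ⁅d, x⁆ * x := by rw [commutatorElement_def]; group
        rw [e1]
        exact mul_mem (Subgroup.commutator_mem_commutator hd (hle hx)) hx
      intro d hd
      refine mem_Nz_of (hh d hd) ?_
      intro x hx
      have := hh d⁻¹ (inv_mem hd) x hx
      simpa using this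
    · rw [Subgroup.map_commutator, hmap, hE.2.2.1]
  · intro A B hA hB hA' hB' hAB
    have h1 : E' ≤ A.map pr ⊔ B.map pr := by
      rw [← Subgroup.map_sup, ← hmap]
      exact Subgroup.map_mono (by simpa [hmap] using hAB)
    have h2 : ∀ C : Subgroup (X Y Ω S), C ≤ E'.comap (pr : X Y Ω S →* Y) → C.map pr ≤ E' :=
      fun C hC => Subgroup.map_le_iff_le_comap.2 hC
    have h3 : ∀ C : Subgroup (X Y Ω S), E'.comap (pr : X Y Ω S →* Y) ≤ Nz C →
        E' ≤ Nz (C.map pr) := by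
      intro C hC
      have := (Subgroup.map_mono (f := pr) hC).trans (Subgroup.le_normalizer_map pr)
      rwa [hmap] at this
    rcases hE.2.2.2 _ _ (h2 A hA) (h2 B hB) (h3 A hA') (h3 B hB') h1 with h | h
    · exact Or.inl (star hp hmove hA' (hmc A h))
    · exact Or.inr (star hp hmove hB' (hmc B h))

lemma head_not_le_ker [Finite Ω]
    (hp : ⁅(⊤ : Subgroup S), (⊤ : Subgroup S)⁆ = (⊤ : Subgroup S))
    {E' : Subgroup Y} (hmove : ∀ ω : Ω, ∃ e ∈ E', e • ω ≠ ω)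
    (huniq : ∀ D : Subgroup Y, Head D → D = E') {D : Subgroup (X Y Ω S)} (hD : Head D)
    (hDK : ¬ D ≤ (pr : X Y Ω S →* Y).ker) : D = E'.comap (pr : X Y Ω S →* Y) := by
  have h1 : D.map pr = E' := huniq _ (hD.map pr_surj hDK)
  have h2 : D ≤ E'.comap pr := by rw [← h1]; exact Subgroup.le_comap_map _ _
  have h3 : (pr : X Y Ω S →* Y).ker ≤ Nz D := hD.normal_le_Nz (MonoidHom.normal_ker _) hDK
  have hcov : ∀ e ∈ E', ∃ a ∈ D, a.y = e := by
    intro e he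
    rw [← h1] at he
    obtain ⟨a, ha, h⟩ := he
    exact ⟨a, ha, h⟩
  refine le_antisymm h2 (star hp hmove ?_ hcov)
  intro x hx
  obtain ⟨a, ha, hax⟩ := hcov x.y hx
  have e : x = a * (a⁻¹ * x) := by group
  rw [e]
  refine mul_mem (le_Nz _ ha) (h3 (mem_ker.2 ?_))
  simp [hax]

section ClsX

variable {Eh T : Type} [Group Eh] [Group T] {Hh : Subgroup Eh} {lam : Eh →* T}
  {Sig : Set (T → T)}

/-- membership of a wreath product in the class -/
lemma cls [Finite Ω] [Finite Y] [Finite S] [IsSimpleGroup S]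
    (hp : ⁅(⊤ : Subgroup S), (⊤ : Subgroup S)⁆ = (⊤ : Subgroup S))
    (hZ : ∀ s : S, (∀ t, t * s = s * t) → s = 1) (hH : Hh ≠ ⊤)
    (hcore : ∀ N : Subgroup Eh, N.Normal → N ≤ Hh → N = ⊥)
    {E' : Subgroup Y} (hmove : ∀ ω : Ω, ∃ e ∈ E', e • ω ≠ ω)
    (huniq : ∀ D : Subgroup Y, Head D → D = E') (hnorm : E'.Normal)
    (hact : ∀ ω : Ω, ∀ φ : Y → Eh, (∀ x ∈ E', ∀ y ∈ E', φ (x * y) = φ x * φ y) →
      (∀ t, ∃ x ∈ E', φ x = t) → (∀ x ∈ E', (x • ω = ω ↔ φ x ∈ Hh)) →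
      ∀ h : Y, ∃ y ∈ Sig, ∀ x ∈ E', lam (φ (h * x * h⁻¹)) = y (lam (φ x))) :
    Cls Hh lam Sig (X Y Ω S) := by
  refine ⟨inferInstance, ?_⟩
  intro D E hD hE φ hM
  have hnormE : (E'.comap (pr : X Y Ω S →* Y)).Normal := hnorm.comap _
  have hNzE : ∀ g : X Y Ω S, g ∈ Nz (E'.comap (pr : X Y Ω S →* Y)) := by
    intro g
    rw [show Nz (E'.comap (pr : X Y Ω S →* Y)) = ⊤ from Subgroup.normalizer_eq_top_iff.2 hnormE]
    trivial
  -- `D` is a coordinate subgroup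
  have hDK : D ≤ (pr : X Y Ω S →* Y).ker := by
    by_contra hcon
    have := head_not_le_ker hp hmove huniq hD hcon
    apply hM.not_le hH
    intro x _
    rw [this]; exact hNzE x
  obtain ⟨ω, rfl⟩ := head_le_ker hZ hD hDK
  have hEK : ¬ E ≤ (pr : X Y Ω S →* Y).ker := by
    intro hcon
    exact hM.not_le hH (hcon.trans (ker_le_Nz_Sw ω))
  obtain rfl := head_not_le_ker hp hmove huniq hE hEK
  refine ⟨hNzE, ?_⟩
  have hker : ∀ k : X Y Ω S, k.y = 1 → φ k = 1 := by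
    intro k hk
    refine hM.kill hcore (pr : X Y Ω S →* Y).ker ?_ ?_ (ker_le_Nz_Sw ω) (mem_ker.2 hk)
    · intro x hx
      rw [Subgroup.mem_comap, pr_apply, mem_ker.1 hx]; exact one_mem _
    · rw [show Nz (pr : X Y Ω S →* Y).ker = ⊤ from
        Subgroup.normalizer_eq_top_iff.2 (MonoidHom.normal_ker _)]
      exact le_top
  let φ' : Y → Eh := fun y => φ ⟨fun _ => 1, y⟩
  have hφ' : ∀ x : X Y Ω S, x.y ∈ E' → φ x = φ' x.y := by
    intro x hx
    have e : (x * (⟨fun _ => 1, x.y⟩ : X Y Ω S)⁻¹) * ⟨fun _ => 1, x.y⟩ = x := by group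
    have h1 : (x * (⟨fun _ => 1, x.y⟩ : X Y Ω S)⁻¹).y = 1 := by simp
    have h1' : x * (⟨fun _ => 1, x.y⟩ : X Y Ω S)⁻¹ ∈ E'.comap (pr : X Y Ω S →* Y) := by
      rw [Subgroup.mem_comap, pr_apply, h1]; exact one_mem _
    have h2 := hM.1 _ h1' (⟨fun _ => 1, x.y⟩ : X Y Ω S) hx
    rw [e, hker _ h1, one_mul] at h2
    exact h2
  have h1 := hact ω φ' ?_ ?_ ?_
  · intro g
    obtain ⟨y, hy, h2⟩ := h1 g.y
    refine ⟨y, hy, ?_⟩
    intro x hx
    have h3' : g * x * g⁻¹ ∈ E'.comap (pr : X Y Ω S →* Y) := Nz_conj (hNzE g) hx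
    have h3 : (g * x * g⁻¹).y ∈ E' := h3'
    rw [hφ' x hx, hφ' _ h3]
    exact h2 x.y hx
  · intro x hx y hy
    have := hM.1 (⟨fun _ => 1, x⟩ : X Y Ω S) hx ⟨fun _ => 1, y⟩ hy
    rw [← this]
    rw [hφ' (⟨fun _ => 1, x⟩ * ⟨fun _ => 1, y⟩) (mul_mem hx hy)]
    rfl
  · intro t
    obtain ⟨x, hx, rfl⟩ := hM.2.1 t
    exact ⟨x.y, hx, (hφ' x hx).symm⟩
  · intro x hx
    have := hM.2.2 (⟨fun _ => 1, x⟩ : X Y Ω S) hx
    rw [mem_Nz_Sw] at this
    exact this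

end ClsX

end X

end Pool.Agent.Helper813
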