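import Pool.Agent.Helper813.Wreath

set_option autoImplicit false
set_option linter.unusedSectionVars false

namespace Pool.Agent.Helper813

open scoped commutatorElement

/-- the only head of a group with a suitable normal subgroup `E` -/
lemma head_unique {Y D : Type} [Group Y] [Group D] [Group.IsSolvable D] (π : Y →* D)
    (hsol : ∀ N : Subgroup Y, N ≤ π.ker → π.ker ≤ Nz N → π.ker ≤ N ∨ Group.IsSolvable N)
    {A : Subgroup Y} (hA : Head A) : A = π.ker := by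
  have hAk : A ≤ π.ker := by
    by_contra hcon
    have h1 : A.map π ≠ ⊥ := fun h => hcon ((Subgroup.map_eq_bot_iff A).1 h)
    have h2 : ⁅A.map π, A.map π⁆ = A.map π := by rw [← Subgroup.map_commutator, hA.2.2.1]
    have h3 : Group.IsPerfect (A.map π) := Subgroup.isPerfect_iff.2 h2
    have h4 : Nontrivial (A.map π) := (Subgroup.nontrivial_iff_ne_bot _).2 h1
    exact Group.IsPerfect.not_isSolvable (A.map π) inferInstance
  refine le_antisymm hAk ?_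
  by_contra hcon
  have h1 : (A.subgroupOf π.ker).IsSubnormal := hA.1.subgroupOf
  have h2 : A.subgroupOf π.ker ≠ ⊤ := fun h => hcon (Subgroup.subgroupOf_eq_top.1 h)
  obtain ⟨K, hK, hAK, hKt⟩ := h1.exists_normal_and_le_and_lt_top_of_ne h2
  have h3 : K.map π.ker.subtype ≤ π.ker := by
    rintro _ ⟨x, _, rfl⟩; exact x.2
  have h4 : π.ker ≤ Nz (K.map π.ker.subtype) := by
    intro g hg
    have h5 : (⟨g, hg⟩ : π.ker) ∈ Nz K := by
      rw [show Nz K = ⊤ from Subgroup.normalizer_eq_top_iff.2 hK]; trivial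
    exact Subgroup.le_normalizer_map _ (Subgroup.mem_map_of_mem π.ker.subtype h5)
  have h6 : A ≤ K.map π.ker.subtype := by
    intro a ha
    exact ⟨⟨a, hAk ha⟩, hAK ha, rfl⟩
  rcases hsol _ h3 h4 with h | h
  · apply hKt.ne
    rw [eq_top_iff]
    rintro ⟨x, hx⟩ _
    obtain ⟨y, hy, h7⟩ := h hx
    have : y = ⟨x, hx⟩ := Subtype.ext h7
    rw [← this]; exact hy
  · have h7 : Group.IsSolvable A :=
      Group.isSolvable_of_isSolvable_injective (Subgroup.inclusion_injective h6)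
    have h8 : Group.IsPerfect A := Subgroup.isPerfect_iff.2 hA.2.2.1
    have h9 : Nontrivial A := (Subgroup.nontrivial_iff_ne_bot A).2 hA.2.1
    exact Group.IsPerfect.not_isSolvable A h7

/-- the data of the construction -/
structure Data (Y D Eh T : Type) [Group Y] [Group D] [Group Eh] [Group T] where
  π : Y →* D
  u : D
  v : D
  hu : u * u = 1
  hv : v * v = 1
  uv1 : u * v ≠ 1
  uvu : u * v ≠ u
  uvv : u * v ≠ v
  clos : ∀ x y w : D, (x = 1 ∨ x = u ∨ x = v) → (y = 1 ∨ y = u ∨ y = v) →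
    (w = 1 ∨ w = u ∨ w = v) → x * y = w * x → (x * y = 1 ∨ x * y = u ∨ x * y = v)
  gen : Subgroup.zpowers u ⊔ Subgroup.zpowers v = ⊤
  usub : (Subgroup.zpowers u).IsSubnormal
  vsub : (Subgroup.zpowers v).IsSubnormal
  πsurj : Function.Surjective π
  Dsol : Group.IsSolvable D
  ker_ne : π.ker ≠ ⊥
  ker_perf : ⁅π.ker, π.ker⁆ = π.ker
  M : Subgroup Y
  hM : ¬ π.ker ≤ M
  Msol : Group.IsSolvable M
  ker_alt : ∀ N : Subgroup Y, N ≤ π.ker → π.ker ≤ Nz N → π.ker ≤ N ∨ N ≤ M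
  Hh : Subgroup Eh
  hH : Hh ≠ ⊤
  hcore : ∀ N : Subgroup Eh, N.Normal → N ≤ Hh → N = ⊥
  lam : Eh →* T
  hlam : Function.Surjective lam
  hT : IsSimpleGroup T
  L : Subgroup Y
  hL : L ≤ π.ker
  φ₀ : Y → Eh
  φmul : ∀ x ∈ π.ker, ∀ y ∈ π.ker, φ₀ (x * y) = φ₀ x * φ₀ y
  φsurj : ∀ t, ∃ x ∈ π.ker, φ₀ x = t
  φL : ∀ x ∈ π.ker, (x ∈ L ↔ φ₀ x ∈ Hh)
  ind : ∀ b : Y, ∀ x ∈ π.ker, lam (φ₀ x) = 1 → lam (φ₀ (b * x * b⁻¹)) = 1
  det : ∀ b : Y, (∀ x ∈ π.ker, lam (φ₀ (b * x * b⁻¹)) = lam (φ₀ x)) → π b = 1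
  rig : ∀ φ : Y → Eh, (∀ x ∈ π.ker, ∀ y ∈ π.ker, φ (x * y) = φ x * φ y) →
    (∀ t, ∃ x ∈ π.ker, φ x = t) → (∀ x ∈ π.ker, (x ∈ L ↔ φ x ∈ Hh)) →
    ∃ y₀ : Y, π y₀ * u = u * π y₀ ∧ π y₀ * v = v * π y₀ ∧
      ∀ x ∈ π.ker, lam (φ x) = lam (φ₀ (y₀ * x * y₀⁻¹))

namespace Data

variable {Y D Eh T : Type} [Group Y] [Group D] [Group Eh] [Group T] (d : Data Y D Eh T)

/-- the allowed set of images in `D` -/
def In (x : D) : Prop := x = 1 ∨ x = d.u ∨ x = d.v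

/-- the allowed set of actions -/
def Sig : Set (T → T) :=
  {y | ∃ b : Y, d.In (d.π b) ∧ ∀ x ∈ d.π.ker, d.lam (d.φ₀ (b * x * b⁻¹)) = y (d.lam (d.φ₀ x))}

lemma kerconj {b x : Y} (hx : x ∈ d.π.ker) : b * x * b⁻¹ ∈ d.π.ker :=
  d.π.normal_ker.conj_mem x hx b

lemma kerconj' {b x : Y} (hx : x ∈ d.π.ker) : b⁻¹ * x * b ∈ d.π.ker := by
  have := d.π.normal_ker.conj_mem x hx b⁻¹
  simpa using this

lemma φ_one : d.φ₀ 1 = 1 := by
  have h1 := d.φmul 1 (one_mem _) 1 (one_mem _)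
  rw [mul_one] at h1
  exact (mul_eq_left.1 h1.symm)

lemma φ_inv {x : Y} (hx : x ∈ d.π.ker) : d.φ₀ x⁻¹ = (d.φ₀ x)⁻¹ := by
  have h1 := d.φmul x⁻¹ (inv_mem hx) x hx
  rw [inv_mul_cancel, d.φ_one] at h1
  exact eq_inv_of_mul_eq_one_left h1.symm

/-- every element of `Y` induces a map of `T` -/
lemma exists_ind (b : Y) : ∃ y : T → T, ∀ x ∈ d.π.ker,
    d.lam (d.φ₀ (b * x * b⁻¹)) = y (d.lam (d.φ₀ x)) := by
  classical
  have hs : ∀ t : T, ∃ x ∈ d.π.ker, d.lam (d.φ₀ x) = t := by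
    intro t
    obtain ⟨s, rfl⟩ := d.hlam t
    obtain ⟨x, hx, rfl⟩ := d.φsurj s
    exact ⟨x, hx, rfl⟩
  choose g hg hg' using hs
  refine ⟨fun t => d.lam (d.φ₀ (b * g t * b⁻¹)), ?_⟩
  intro x hx
  set x' := g (d.lam (d.φ₀ x)) with hx'
  have h1 : x' ∈ d.π.ker := hg _
  have h2 : d.lam (d.φ₀ x') = d.lam (d.φ₀ x) := hg' _
  have h3 : d.lam (d.φ₀ (x * x'⁻¹)) = 1 := by
    rw [d.φmul _ hx _ (inv_mem h1), d.φ_inv h1, map_mul, map_inv, h2, mul_inv_cancel]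
  have h4 := d.ind b _ (mul_mem hx (inv_mem h1)) h3
  have e : b * (x * x'⁻¹) * b⁻¹ = (b * x * b⁻¹) * (b * x' * b⁻¹)⁻¹ := by group
  rw [e, d.φmul _ (d.kerconj hx) _ (inv_mem (d.kerconj h1)), d.φ_inv (d.kerconj h1), map_mul,
    map_inv, mul_inv_eq_one] at h4
  exact h4

lemma id_mem : (id : T → T) ∈ d.Sig := by
  refine ⟨1, Or.inl (map_one _), ?_⟩
  intro x _
  simp

lemma Sig_mul : ∀ p ∈ d.Sig, ∀ q ∈ d.Sig, ∀ r ∈ d.Sig, p ∘ q = r ∘ p → p ∘ q ∈ d.Sig := by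
  rintro p ⟨bp, hbp, hp⟩ q ⟨bq, hbq, hq⟩ r ⟨br, hbr, hr⟩ h
  have hpq : ∀ x ∈ d.π.ker, d.lam (d.φ₀ (bp * bq * x * (bp * bq)⁻¹)) =
      (p ∘ q) (d.lam (d.φ₀ x)) := by
    intro x hx
    simp only [Function.comp]
    rw [← hq x hx, ← hp _ (d.kerconj hx)]
    congr 2; group
  have hrp : ∀ x ∈ d.π.ker, d.lam (d.φ₀ (br * bp * x * (br * bp)⁻¹)) =
      (r ∘ p) (d.lam (d.φ₀ x)) := by
    intro x hx
    simp only [Function.comp]
    rw [← hp x hx, ← hr _ (d.kerconj hx)]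
    congr 2; group
  have h1 : d.π ((br * bp)⁻¹ * (bp * bq)) = 1 := by
    apply d.det
    intro x hx
    have e1 := hpq x hx
    rw [h] at e1
    have e2 := hrp ((br * bp)⁻¹ * (bp * bq) * x * ((br * bp)⁻¹ * (bp * bq))⁻¹) (d.kerconj hx)
    have e3 : br * bp * ((br * bp)⁻¹ * (bp * bq) * x * ((br * bp)⁻¹ * (bp * bq))⁻¹) *
      (br * bp)⁻¹ = bp * bq * x * (bp * bq)⁻¹ := by group
    rw [e3, e1] at e2
    -- need injectivity of `r ∘ p`
    obtain ⟨y, hy⟩ := d.exists_ind (br * bp)⁻¹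
    have e4 : ∀ z ∈ d.π.ker, y ((r ∘ p) (d.lam (d.φ₀ z))) = d.lam (d.φ₀ z) := by
      intro z hz
      rw [← hrp z hz, ← hy _ (d.kerconj hz)]
      congr 2; group
    rw [← e4 _ (d.kerconj hx), ← e2, e4 x hx]
  have h2 : d.π bp * d.π bq = d.π br * d.π bp := by
    rw [map_mul, map_inv, inv_mul_eq_one] at h1
    rw [map_mul, map_mul] at h1
    exact h1.symm
  have h3 := d.clos _ _ _ hbp hbq hbr h2
  rw [← map_mul] at h3
  exact ⟨bp * bq, h3, hpq⟩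

/-- the class of groups -/
def F (H : Type) [Group H] : Prop := Cls d.Hh d.lam d.Sig H

lemma ker_sol (N : Subgroup Y) (h1 : N ≤ d.π.ker) (h2 : d.π.ker ≤ Nz N) :
    d.π.ker ≤ N ∨ Group.IsSolvable N := by
  rcases d.ker_alt N h1 h2 with h | h
  · exact Or.inl h
  · right
    have := d.Msol
    exact Group.isSolvable_of_isSolvable_injective (Subgroup.inclusion_injective h)

lemma ker_head : Head d.π.ker := by
  refine ⟨d.π.normal_ker.isSubnormal, d.ker_ne, d.ker_perf, ?_⟩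
  intro A B hA hB hA' hB' hAB
  rcases d.ker_alt A hA hA' with h | h
  · exact Or.inl h
  · rcases d.ker_alt B hB hB' with h' | h'
    · exact Or.inr h'
    · exact absurd (hAB.trans (sup_le h h')) d.hM

/-- the subgroup of `Y` over `⟨t⟩` -/
def Yt (t : D) : Subgroup Y := (Subgroup.zpowers t).comap d.π

lemma ker_le_Yt (t : D) : d.π.ker ≤ d.Yt t := by
  intro x hx
  rw [Yt, Subgroup.mem_comap, MonoidHom.mem_ker.1 hx]
  exact one_mem _

/-- the relevant points -/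
def Om (t : D) : Type := {ω : Y ⧸ d.L // ∃ y : Y, (y : Y ⧸ d.L) = ω ∧ d.π y * t = t * d.π y}

lemma Yt_comm {t : D} (h : d.Yt t) : d.π h * t = t * d.π h := by
  obtain ⟨n, hn⟩ := Subgroup.mem_zpowers_iff.1 h.2
  rw [← hn]
  exact (Commute.zpow_self t n).eq

instance (t : D) : MulAction (d.Yt t) (d.Om t) where
  smul h ω := ⟨(h : Y) • ω.1, by
    obtain ⟨y, hy, hy'⟩ := ω.2
    refine ⟨h * y, ?_, ?_⟩
    · rw [← hy]; rfl
    · rw [map_mul, mul_assoc, hy', ← mul_assoc, d.Yt_comm h, mul_assoc]⟩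
  one_smul ω := Subtype.ext (one_smul Y ω.1)
  mul_smul g h ω := Subtype.ext (mul_smul (g : Y) (h : Y) ω.1)

lemma smul_val {t : D} (h : d.Yt t) (ω : d.Om t) : (h • ω).1 = (h : Y) • ω.1 := rfl

lemma smul_mk_eq {x y : Y} : x • (y : Y ⧸ d.L) = (y : Y ⧸ d.L) ↔ y⁻¹ * x * y ∈ d.L := by
  rw [show x • (y : Y ⧸ d.L) = ((x * y : Y) : Y ⧸ d.L) from rfl, eq_comm, QuotientGroup.eq,
    mul_assoc]

lemma not_ker_le_L : ¬ d.π.ker ≤ d.L := by
  intro h
  apply d.hH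
  rw [eq_top_iff]
  intro t _
  obtain ⟨x, hx, rfl⟩ := d.φsurj t
  exact (d.φL x hx).1 (h hx)

lemma move (y : Y) : ∃ e ∈ d.π.ker, e • (y : Y ⧸ d.L) ≠ (y : Y ⧸ d.L) := by
  by_contra hcon
  push Not at hcon
  apply d.not_ker_le_L
  intro x hx
  have h1 := hcon (y * x * y⁻¹) (d.kerconj hx)
  rw [d.smul_mk_eq] at h1
  have e : y⁻¹ * (y * x * y⁻¹) * y = x := by group
  rwa [e] at h1

instance [Finite Y] (t : D) : Finite (d.Om t) := by
  unfold Om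
  infer_instance

section

variable [Finite Y] {S : Type} [Group S] [Finite S] [IsSimpleGroup S]

open Classical in
lemma cls_t (hp : ⁅(⊤ : Subgroup S), (⊤ : Subgroup S)⁆ = (⊤ : Subgroup S))
    (hZ : ∀ s : S, (∀ t, t * s = s * t) → s = 1) {t : D} (ht : t = d.u ∨ t = d.v) :
    d.F (X (d.Yt t) (d.Om t) S) := by
  have ht2 : t * t = 1 := by
    rcases ht with rfl | rfl
    · exact d.hu
    · exact d.hv
  have hDsol := d.Dsol
  let π' : d.Yt t →* D := d.π.comp (d.Yt t).subtype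
  have hπ' : ∀ x : d.Yt t, x ∈ π'.ker ↔ (x : Y) ∈ d.π.ker := fun x => Iff.rfl
  refine X.cls hp hZ d.hH d.hcore (E' := π'.ker) ?_ ?_ π'.normal_ker ?_
  · rintro ⟨ω, y, rfl, hy⟩
    obtain ⟨e, he, h⟩ := d.move y
    refine ⟨⟨e, d.ker_le_Yt t he⟩, he, ?_⟩
    intro h'
    exact h (congrArg Subtype.val h')
  · intro A hA
    refine head_unique π' ?_ hA
    intro N hN hN'
    have h1 : N.map (d.Yt t).subtype ≤ d.π.ker := by
      rintro _ ⟨x, hx, rfl⟩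
      exact hN hx
    have h2 : d.π.ker ≤ Nz (N.map (d.Yt t).subtype) := by
      intro x hx
      have h3 : (⟨x, d.ker_le_Yt t hx⟩ : d.Yt t) ∈ Nz N := hN' hx
      exact Subgroup.le_normalizer_map _ (Subgroup.mem_map_of_mem (d.Yt t).subtype h3)
    rcases d.ker_sol _ h1 h2 with h | h
    · left
      rintro ⟨x, hx'⟩ hx
      obtain ⟨y, hy, h3⟩ := h hx
      have : y = ⟨x, hx'⟩ := Subtype.ext h3
      rw [← this]; exact hy
    · right
      have e : N ≃* N.map (d.Yt t).subtype :=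
        N.equivMapOfInjective _ (d.Yt t).subtype_injective
      exact Group.isSolvable_of_isSolvable_injective (f := e.toMonoidHom) e.injective
  · rintro ⟨ω, y, rfl, hy⟩ φ h1 h2 h3 h
    let φ' : Y → Eh := fun x => if hx : y * x * y⁻¹ ∈ d.Yt t then φ ⟨y * x * y⁻¹, hx⟩ else 1
    have hφ' : ∀ x ∈ d.π.ker, ∃ hx : y * x * y⁻¹ ∈ d.Yt t, φ' x = φ ⟨y * x * y⁻¹, hx⟩ := by
      intro x hx
      have h4 : y * x * y⁻¹ ∈ d.Yt t := d.ker_le_Yt t (d.kerconj hx)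
      exact ⟨h4, dif_pos h4⟩
    have g1 : ∀ x ∈ d.π.ker, ∀ y ∈ d.π.ker, φ' (x * y) = φ' x * φ' y := by
      intro x hx z hz
      obtain ⟨h4, h5⟩ := hφ' x hx
      obtain ⟨h6, h7⟩ := hφ' z hz
      obtain ⟨h8, h9⟩ := hφ' (x * z) (mul_mem hx hz)
      have h10 := h1 ⟨_, h4⟩ (d.kerconj hx) ⟨_, h6⟩ (d.kerconj hz)
      have h11 : (⟨y * x * y⁻¹, h4⟩ : d.Yt t) * ⟨y * z * y⁻¹, h6⟩ =
          ⟨y * (x * z) * y⁻¹, h8⟩ := Subtype.ext (by
        show (y * x * y⁻¹) * (y * z * y⁻¹) = y * (x * z) * y⁻¹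
        group)
      rw [h5, h7, h9, ← h10, h11]
    have g2 : ∀ t, ∃ x ∈ d.π.ker, φ' x = t := by
      intro s
      obtain ⟨x, hx, rfl⟩ := h2 s
      refine ⟨y⁻¹ * x * y, d.kerconj' hx, ?_⟩
      obtain ⟨h4, h5⟩ := hφ' (y⁻¹ * x * y) (d.kerconj' hx)
      rw [h5]
      congr 1
      apply Subtype.ext
      show y * (y⁻¹ * x * y) * y⁻¹ = x
      group
    have g3 : ∀ x ∈ d.π.ker, (x ∈ d.L ↔ φ' x ∈ d.Hh) := by
      intro x hx
      obtain ⟨h4, h5⟩ := hφ' x hx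
      rw [h5]
      have h6 := h3 ⟨y * x * y⁻¹, h4⟩ (d.kerconj hx)
      rw [← h6]
      constructor
      · intro h7
        apply Subtype.ext
        show (y * x * y⁻¹) • (y : Y ⧸ d.L) = y
        rw [d.smul_mk_eq]
        have e : y⁻¹ * (y * x * y⁻¹) * y = x := by group
        rwa [e]
      · intro h7
        have h8 : (y * x * y⁻¹) • (y : Y ⧸ d.L) = y := congrArg Subtype.val h7
        rw [d.smul_mk_eq] at h8
        have e : y⁻¹ * (y * x * y⁻¹) * y = x := by group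
        rwa [e] at h8
    obtain ⟨y₀, hy1, hy2, hy3⟩ := d.rig φ' g1 g2 g3
    have hφ : ∀ z : d.Yt t, (z : Y) ∈ d.π.ker →
        d.lam (φ z) = d.lam (d.φ₀ ((y₀ * y⁻¹) * z * (y₀ * y⁻¹)⁻¹)) := by
      intro z hz
      obtain ⟨h4, h5⟩ := hφ' (y⁻¹ * z * y) (d.kerconj' hz)
      have h6 : (⟨y * (y⁻¹ * z * y) * y⁻¹, h4⟩ : d.Yt t) = z := Subtype.ext (by
        show y * (y⁻¹ * z * y) * y⁻¹ = z
        group)
      rw [h6] at h5
      rw [← h5, hy3 _ (d.kerconj' hz)]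
      congr 2; group
    obtain ⟨q, hq⟩ := d.exists_ind ((y₀ * y⁻¹) * h * (y₀ * y⁻¹)⁻¹)
    refine ⟨q, ⟨_, ?_, hq⟩, ?_⟩
    · have e0 : d.π h = 1 ∨ d.π h = t := by
        obtain ⟨n, hn⟩ := Subgroup.mem_zpowers_iff.1 h.2
        have hn' : t ^ n = d.π h := hn
        have ht3 : t ^ (2 : ℤ) = 1 := by rw [zpow_two]; exact ht2
        rcases Int.even_or_odd' n with ⟨k, hk | hk⟩
        · left; rw [← hn', hk, zpow_mul, ht3, one_zpow]
        · right; rw [← hn', hk, zpow_add, zpow_mul, ht3, one_zpow, one_mul, zpow_one]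
      have hy1' : d.π y₀ * t = t * d.π y₀ := by
        rcases ht with rfl | rfl
        · exact hy1
        · exact hy2
      have e1 : d.π ((y₀ * y⁻¹) * h * (y₀ * y⁻¹)⁻¹) = d.π h := by
        simp only [map_mul, map_inv]
        rcases e0 with e0 | e0
        · rw [e0]; group
        · rw [e0]
          have e2 : (d.π y)⁻¹ * t = t * (d.π y)⁻¹ := by
            rw [inv_mul_eq_iff_eq_mul, ← mul_assoc, hy, mul_inv_cancel_right]
          calc d.π y₀ * (d.π y)⁻¹ * t * (d.π y₀ * (d.π y)⁻¹)⁻¹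
              = d.π y₀ * ((d.π y)⁻¹ * t) * (d.π y₀ * (d.π y)⁻¹)⁻¹ := by group
            _ = (d.π y₀ * t) * (d.π y)⁻¹ * (d.π y₀ * (d.π y)⁻¹)⁻¹ := by rw [e2]; group
            _ = t := by rw [hy1']; group
      rw [e1]
      rcases e0 with e0 | e0
      · left; exact e0
      · rcases ht with rfl | rfl
        · right; left; exact e0
        · right; right; exact e0
    · intro x hx
      have h6 : ((h * x * h⁻¹ : d.Yt t) : Y) ∈ d.π.ker := d.kerconj hx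
      have hx' : (x : Y) ∈ d.π.ker := hx
      rw [hφ x hx, hφ _ h6, ← hq _ (d.kerconj hx')]
      congr 2
      simp only [Subgroup.coe_mul, Subgroup.coe_inv]
      group


/-- the subgroup of the big group over `⟨t⟩` -/
def Ut (S : Type) [Group S] (t : D) : Subgroup (X Y (Y ⧸ d.L) S) := (d.Yt t).comap X.pr

/-- the restriction map -/
def res (S : Type) [Group S] (t : D) : d.Ut S t →* X (d.Yt t) (d.Om t) S where
  toFun x := ⟨fun ω => x.1.k ω.1, ⟨x.1.y, x.2⟩⟩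
  map_one' := rfl
  map_mul' _ _ := rfl

lemma res_surj (S : Type) [Group S] (t : D) : Function.Surjective (d.res S t) := by
  classical
  rintro ⟨k, y⟩
  refine ⟨⟨⟨fun ω => if h : ∃ y : Y, (y : Y ⧸ d.L) = ω ∧ d.π y * t = t * d.π y then k ⟨ω, h⟩
    else 1, y.1⟩, y.2⟩, ?_⟩
  refine X.ext ?_ rfl
  funext ω
  have h := ω.2
  show (if h : ∃ y : Y, (y : Y ⧸ d.L) = ω.1 ∧ d.π y * t = t * d.π y then k ⟨ω.1, h⟩
    else 1) = k ω
  rw [dif_pos h]
  rfl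

/-- the subgroup of the base group trivial at the base point -/
def J (S : Type) [Group S] : Subgroup (X Y (Y ⧸ d.L) S) where
  carrier := {x | x.y = 1 ∧ x.k ((1 : Y) : Y ⧸ d.L) = 1}
  one_mem' := ⟨rfl, rfl⟩
  mul_mem' := by
    rintro a b ⟨ha, ha'⟩ ⟨hb, hb'⟩
    refine ⟨by simp [ha, hb], ?_⟩
    rw [X.mul_k, ha', ha, inv_one, one_smul, hb', one_mul]
  inv_mem' := by
    rintro a ⟨ha, ha'⟩
    refine ⟨by simp [ha], ?_⟩
    rw [X.inv_k, ha, one_smul, ha', inv_one]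

lemma res_ker (S : Type) [Group S] (t : D) (x : d.Ut S t) (hx : d.res S t x = 1) :
    (x : X Y (Y ⧸ d.L) S) ∈ d.J S := by
  refine ⟨?_, ?_⟩
  · have h := congrArg (fun z : X (d.Yt t) (d.Om t) S => (z.y : Y)) hx
    exact h
  · have h := congrArg (fun z : X (d.Yt t) (d.Om t) S => z.k ⟨((1 : Y) : Y ⧸ d.L), 1, rfl, by
      rw [map_one, one_mul, mul_one]⟩) hx
    exact h

theorem counter (hp : ⁅(⊤ : Subgroup S), (⊤ : Subgroup S)⁆ = (⊤ : Subgroup S))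
    (hZ : ∀ s : S, (∀ t, t * s = s * t) → s = 1) :
    ∃ (G : Type) (_ : Group G) (_ : Finite G) (U V J : Subgroup G) (s : G),
      U ⊔ V = ⊤ ∧ U.IsSubnormal ∧ V.IsSubnormal ∧ s ∉ J ∧
      (∀ (Q : Type) [Group Q] (f : G →* Q), Function.Surjective f → d.F Q → f s = 1) ∧
      (∃ (Q : Type) (_ : Group Q) (f : U →* Q), Function.Surjective f ∧ d.F Q ∧
        ∀ x : U, f x = 1 → (x : G) ∈ J) ∧
      (∃ (Q : Type) (_ : Group Q) (f : V →* Q), Function.Surjective f ∧ d.F Q ∧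
        ∀ x : V, f x = 1 → (x : G) ∈ J) := by
  classical
  obtain ⟨s₀, hs₀⟩ := exists_ne (1 : S)
  refine ⟨X Y (Y ⧸ d.L) S, inferInstance, inferInstance, d.Ut S d.u, d.Ut S d.v, d.J S,
    X.sg ((1 : Y) : Y ⧸ d.L) s₀, ?_, ?_, ?_, ?_, ?_, ?_, ?_⟩
  · have h1 : Function.Surjective (d.π.comp (X.pr : X Y (Y ⧸ d.L) S →* Y)) :=
      d.πsurj.comp X.pr_surj
    have h2 := Subgroup.comap_sup_eq (d.π.comp (X.pr : X Y (Y ⧸ d.L) S →* Y))
      (Subgroup.zpowers d.u) (Subgroup.zpowers d.v) h1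
    rw [d.gen, Subgroup.comap_top] at h2
    exact h2
  · exact (d.usub.comap d.π).comap X.pr
  · exact (d.vsub.comap d.π).comap X.pr
  · rintro ⟨_, h⟩
    rw [X.sg_k_self] at h
    exact hs₀ h
  · intro Q _ f hf hQ
    by_contra hcon
    have hDf : ¬ (X.Sw ((1 : Y) : Y ⧸ d.L) : Subgroup (X Y (Y ⧸ d.L) S)) ≤ f.ker :=
      fun h => hcon (h ⟨s₀, rfl⟩)
    have hmove : ∀ ω : Y ⧸ d.L, ∃ e ∈ d.π.ker, e • ω ≠ ω := by
      intro ω
      obtain ⟨y, rfl⟩ := QuotientGroup.mk_surjective ω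
      exact d.move y
    have hE : Head (d.π.ker.comap (X.pr : X Y (Y ⧸ d.L) S →* Y)) :=
      X.comap_head hp hmove d.ker_head
    have hD : Head (X.Sw ((1 : Y) : Y ⧸ d.L) : Subgroup (X Y (Y ⧸ d.L) S)) := X.Sw_head hp _
    have hM : Mark d.Hh (X.Sw ((1 : Y) : Y ⧸ d.L) : Subgroup (X Y (Y ⧸ d.L) S))
        (d.π.ker.comap (X.pr : X Y (Y ⧸ d.L) S →* Y)) (fun x => d.φ₀ x.y) := by
      refine ⟨?_, ?_, ?_⟩
      · intro x hx y hy
        exact d.φmul _ hx _ hy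
      · intro t
        obtain ⟨x, hx, rfl⟩ := d.φsurj t
        exact ⟨⟨fun _ => 1, x⟩, hx, rfl⟩
      · intro x hx
        rw [X.mem_Nz_Sw, d.smul_mk_eq, ← d.φL x.y hx]
        simp
    obtain ⟨_, h2⟩ := Cls.pull d.hH d.hcore hQ f hf hD hE hM hDf
    obtain ⟨b, hb⟩ := d.πsurj (d.u * d.v)
    obtain ⟨y, ⟨b', hb', hy⟩, h3⟩ := h2 ⟨fun _ => 1, b⟩
    have h4 : d.π (b'⁻¹ * b) = 1 := by
      apply d.det
      intro x hx
      have h5 : d.lam (d.φ₀ (b * x * b⁻¹)) = y (d.lam (d.φ₀ x)) :=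
        h3 (⟨fun _ => 1, x⟩ : X Y (Y ⧸ d.L) S) hx
      rw [← hy x hx] at h5
      obtain ⟨q, hq⟩ := d.exists_ind b'⁻¹
      have h6 := hq _ (d.kerconj (b := b) hx)
      have h7 := hq _ (d.kerconj (b := b') hx)
      rw [h5, ← h7] at h6
      have e1 : b'⁻¹ * b * x * (b'⁻¹ * b)⁻¹ = b'⁻¹ * (b * x * b⁻¹) * b'⁻¹⁻¹ := by group
      have e2 : b'⁻¹ * (b' * x * b'⁻¹) * b'⁻¹⁻¹ = x := by group
      rw [e1, h6, e2]
    have h8 : d.π b' = d.u * d.v := by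
      rw [map_mul, map_inv, inv_mul_eq_one, hb] at h4
      exact h4
    rcases hb' with h | h | h
    · exact d.uv1 (h8.symm.trans h)
    · exact d.uvu (h8.symm.trans h)
    · exact d.uvv (h8.symm.trans h)
  · exact ⟨_, inferInstance, d.res S d.u, d.res_surj S d.u, d.cls_t hp hZ (Or.inl rfl),
      d.res_ker S d.u⟩
  · exact ⟨_, inferInstance, d.res S d.v, d.res_surj S d.v, d.cls_t hp hZ (Or.inr rfl),
      d.res_ker S d.v⟩

end

end Data

end Pool.Agent.Helper813
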