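import Pool.Agent.Helper813.SL4
import Pool.Agent.Helper813.Abs

set_option autoImplicit false

namespace Pool.Agent.Helper813

open DihedralGroup

abbrev D8 := DihedralGroup 4

instance : Finite D8 := inferInstance

lemma d8_sol : Group.IsSolvable D8 := by
  have h1 : IsPGroup 2 D8 := IsPGroup.of_card (n := 3) (by rw [DihedralGroup.nat_card]; norm_num)
  have h2 : Group.IsNilpotent D8 := h1.isNilpotent
  infer_instance

abbrev du : D8 := sr 0
abbrev dv : D8 := sr 1

lemma d8_clos (x y w : D8) (hx : x = 1 ∨ x = du ∨ x = dv) (hy : y = 1 ∨ y = du ∨ y = dv)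
    (hw : w = 1 ∨ w = du ∨ w = dv) (h : x * y = w * x) :
    x * y = 1 ∨ x * y = du ∨ x * y = dv := by
  rcases hx with rfl | rfl | rfl <;> rcases hy with rfl | rfl | rfl <;>
    rcases hw with rfl | rfl | rfl <;> revert h <;> decide

lemma d8_gen : Subgroup.zpowers du ⊔ Subgroup.zpowers dv = ⊤ := by
  rw [eq_top_iff]
  intro x _
  have h1 : du ∈ Subgroup.zpowers du ⊔ Subgroup.zpowers dv :=
    Subgroup.mem_sup_left (Subgroup.mem_zpowers _)
  have h2 : dv ∈ Subgroup.zpowers du ⊔ Subgroup.zpowers dv :=
    Subgroup.mem_sup_right (Subgroup.mem_zpowers _)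
  have h3 : ∀ x : D8, ∃ i : Fin 2, ∃ j : Fin 4, x = du ^ i.val * (du * dv) ^ j.val := by decide
  obtain ⟨i, j, rfl⟩ := h3 x
  exact mul_mem (pow_mem h1 _) (pow_mem (mul_mem h1 h2) _)

lemma d8_key : ∀ t n g : D8, t * t = 1 → n * t = t * n →
    g * n * g⁻¹ * t = t * (g * n * g⁻¹) := by decide

lemma d8_sub (t : D8) (ht : t * t = 1) : (Subgroup.zpowers t).IsSubnormal := by
  have h0 : ∀ x, x ∈ Subgroup.zpowers t ↔ x = 1 ∨ x = t := by
    intro x
    constructor
    · intro hx
      obtain ⟨n, rfl⟩ := Subgroup.mem_zpowers_iff.1 hx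
      have ht3 : t ^ (2 : ℤ) = 1 := by rw [zpow_two]; exact ht
      rcases Int.even_or_odd' n with ⟨k, hk | hk⟩
      · left; rw [hk, zpow_mul, ht3, one_zpow]
      · right; rw [hk, zpow_add, zpow_mul, ht3, one_zpow, one_mul, zpow_one]
    · rintro (rfl | rfl)
      · exact one_mem _
      · exact Subgroup.mem_zpowers _
  let K : Subgroup D8 :=
    { carrier := {x | x * t = t * x}
      one_mem' := by simp
      mul_mem' := by
        intro a b ha hb
        have ha' : a * t = t * a := ha
        have hb' : b * t = t * b := hb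
        show a * b * t = t * (a * b)
        rw [mul_assoc, hb', ← mul_assoc, ha', mul_assoc]
      inv_mem' := by
        intro a ha
        have ha' : a * t = t * a := ha
        show a⁻¹ * t = t * a⁻¹
        rw [inv_mul_eq_iff_eq_mul, ← mul_assoc, ha', mul_inv_cancel_right] }
  have hK : K.Normal := by
    constructor
    intro n hn g
    have hn' : n * t = t * n := hn
    exact d8_key t n g ht hn'
  have hle : Subgroup.zpowers t ≤ K := by
    intro x hx
    rcases (h0 x).1 hx with rfl | rfl
    · exact one_mem _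
    · rfl
  refine Subgroup.IsSubnormal.step _ K hle hK.isSubnormal ?_
  rw [Subgroup.normal_subgroupOf_iff_le_normalizer hle]
  intro k hk
  have hk' : k * t = t * k := hk
  rw [mem_Nz]
  intro x
  rw [h0, h0]
  constructor
  · rintro (rfl | rfl)
    · left; simp
    · right; rw [hk']; simp
  · rintro (h | h)
    · left
      exact conj_eq_one_iff.1 h
    · right
      rw [mul_inv_eq_iff_eq_mul, ← hk'] at h
      exact mul_left_cancel h

end Pool.Agent.Helper813
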