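import Pool.Agent.Helper813.SL4
import Pool.Agent.Helper813.Dih

set_option autoImplicit false
set_option linter.unusedSectionVars false

namespace Pool.Agent.Helper813

open Matrix Matrix.SpecialLinearGroup
open scoped MatrixGroups commutatorElement

instance fact5 : Fact (Nat.Prime 5) := ⟨by norm_num⟩

/-- the field with five elements -/
def K5 : Type := ZMod 5
instance : Field K5 := inferInstanceAs (Field (ZMod 5))
instance : DecidableEq K5 := inferInstanceAs (DecidableEq (ZMod 5))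
instance : Fintype K5 := inferInstanceAs (Fintype (ZMod 5))

abbrev V5 := Fin 4 → K5
abbrev M5 := Matrix (Fin 4) (Fin 4) K5

lemma sl_mul_inv (s : SL4 K5) : (s : M5) * ((s⁻¹ : SL4 K5) : M5) = 1 := by
  have h1 : ((s * s⁻¹ : SL4 K5) : M5) = (s : M5) * ((s⁻¹ : SL4 K5) : M5) :=
    Matrix.SpecialLinearGroup.coe_mul _ _
  rw [mul_inv_cancel] at h1
  rw [← h1]
  exact Matrix.SpecialLinearGroup.coe_one

lemma sl_inv_mul (s : SL4 K5) : ((s⁻¹ : SL4 K5) : M5) * (s : M5) = 1 := by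
  have h1 : ((s⁻¹ * s : SL4 K5) : M5) = ((s⁻¹ : SL4 K5) : M5) * (s : M5) :=
    Matrix.SpecialLinearGroup.coe_mul _ _
  rw [inv_mul_cancel] at h1
  rw [← h1]
  exact Matrix.SpecialLinearGroup.coe_one

/-- the top group -/
@[ext] structure Yg where
  a : V5
  b : V5
  A : M5
  B : M5
  e : Bool
  h : A * Bᵀ = 1

namespace Yg

lemma h' (g : Yg) : g.Bᵀ * g.A = 1 := mul_eq_one_comm.1 g.h
lemma h2 (g : Yg) : g.B * g.Aᵀ = 1 := by
  have := congrArg Matrix.transpose g.h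
  simpa using this
lemma h3 (g : Yg) : g.Aᵀ * g.B = 1 := mul_eq_one_comm.1 g.h2

instance : Mul Yg := ⟨fun g k =>
  ⟨g.a + g.A *ᵥ (cond g.e k.b k.a), g.b + g.B *ᵥ (cond g.e k.a k.b), g.A * cond g.e k.B k.A,
    g.B * cond g.e k.A k.B, xor g.e k.e, by
    cases g.e
    · simp only [cond_false, transpose_mul]
      rw [mul_assoc, ← mul_assoc k.A, k.h, one_mul, g.h]
    · simp only [cond_true, transpose_mul]
      rw [mul_assoc, ← mul_assoc k.B, k.h2, one_mul, g.h]⟩⟩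

instance : One Yg := ⟨⟨0, 0, 1, 1, false, by simp⟩⟩

instance : Inv Yg := ⟨fun g =>
  ⟨-(cond g.e g.Aᵀ g.Bᵀ) *ᵥ (cond g.e g.b g.a), -(cond g.e g.Bᵀ g.Aᵀ) *ᵥ (cond g.e g.a g.b),
    cond g.e g.Aᵀ g.Bᵀ, cond g.e g.Bᵀ g.Aᵀ, g.e, by
    cases g.e
    · simp only [cond_false, transpose_transpose]; exact g.h'
    · simp only [cond_true, transpose_transpose]; exact g.h3⟩⟩

@[simp] lemma mul_a (g k : Yg) : (g * k).a = g.a + g.A *ᵥ (cond g.e k.b k.a) := rfl
@[simp] lemma mul_b (g k : Yg) : (g * k).b = g.b + g.B *ᵥ (cond g.e k.a k.b) := rfl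
@[simp] lemma mul_A (g k : Yg) : (g * k).A = g.A * cond g.e k.B k.A := rfl
@[simp] lemma mul_B (g k : Yg) : (g * k).B = g.B * cond g.e k.A k.B := rfl
@[simp] lemma mul_e (g k : Yg) : (g * k).e = xor g.e k.e := rfl
@[simp] lemma one_a : (1 : Yg).a = 0 := rfl
@[simp] lemma one_b : (1 : Yg).b = 0 := rfl
@[simp] lemma one_A : (1 : Yg).A = 1 := rfl
@[simp] lemma one_B : (1 : Yg).B = 1 := rfl
@[simp] lemma one_e : (1 : Yg).e = false := rfl
@[simp] lemma inv_a (g : Yg) : (g⁻¹).a = -(cond g.e g.Aᵀ g.Bᵀ) *ᵥ (cond g.e g.b g.a) := rfl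
@[simp] lemma inv_b (g : Yg) : (g⁻¹).b = -(cond g.e g.Bᵀ g.Aᵀ) *ᵥ (cond g.e g.a g.b) := rfl
@[simp] lemma inv_A (g : Yg) : (g⁻¹).A = cond g.e g.Aᵀ g.Bᵀ := rfl
@[simp] lemma inv_B (g : Yg) : (g⁻¹).B = cond g.e g.Bᵀ g.Aᵀ := rfl
@[simp] lemma inv_e (g : Yg) : (g⁻¹).e = g.e := rfl

instance : Group Yg := Group.ofLeftAxioms
  (by
    rintro ⟨a1, b1, A1, B1, e1, h1⟩ ⟨a2, b2, A2, B2, e2, h2⟩ ⟨a3, b3, A3, B3, e3, h3⟩
    cases e1 <;> cases e2 <;> apply Yg.ext <;>
      simp [mulVec_add, add_assoc, mul_assoc])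
  (by
    rintro ⟨a1, b1, A1, B1, e1, h1⟩
    apply Yg.ext <;> simp)
  (by
    intro g
    cases he : g.e <;> apply Yg.ext <;>
      simp [he, g.h', g.h3, neg_mulVec])

instance : Finite Yg :=
  Finite.of_injective (fun g : Yg => (g.a, g.b, g.A, g.B, g.e)) (by
    intro g k h
    simp only [Prod.mk.injEq] at h
    exact Yg.ext h.1 h.2.1 h.2.2.1 h.2.2.2.1 h.2.2.2.2)

end Yg

/-- the affine group -/
@[ext] structure Aff where
  a : V5
  s : SL4 K5

namespace Aff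

instance : Mul Aff := ⟨fun g k => ⟨g.a + g.s.1 *ᵥ k.a, g.s * k.s⟩⟩
instance : One Aff := ⟨⟨0, 1⟩⟩
instance : Inv Aff := ⟨fun g => ⟨-((g.s⁻¹).1 *ᵥ g.a), g.s⁻¹⟩⟩

@[simp] lemma mul_a (g k : Aff) : (g * k).a = g.a + g.s.1 *ᵥ k.a := rfl
@[simp] lemma mul_s (g k : Aff) : (g * k).s = g.s * k.s := rfl
@[simp] lemma one_a : (1 : Aff).a = 0 := rfl
@[simp] lemma one_s : (1 : Aff).s = 1 := rfl
@[simp] lemma inv_a (g : Aff) : (g⁻¹).a = -((g.s⁻¹).1 *ᵥ g.a) := rfl
@[simp] lemma inv_s (g : Aff) : (g⁻¹).s = g.s⁻¹ := rfl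

instance : Group Aff := Group.ofLeftAxioms
  (by
    rintro ⟨a1, s1⟩ ⟨a2, s2⟩ ⟨a3, s3⟩
    apply Aff.ext
    · simp [mulVec_add, add_assoc]
    · simp [mul_assoc])
  (by
    rintro ⟨a1, s1⟩
    apply Aff.ext <;> simp)
  (by
    rintro ⟨a1, s1⟩
    apply Aff.ext <;> simp)

instance : Finite Aff :=
  Finite.of_injective (fun g : Aff => (g.a, g.s)) (by
    intro g k h
    simp only [Prod.mk.injEq] at h
    exact Aff.ext h.1 h.2)

end Aff

/-- discrete logarithm to base two -/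
def lg : K5 → ZMod 4 := fun x => (![0, 0, 1, 3, 2] : Fin 5 → ZMod 4) x

lemma lg_mul : ∀ x y : K5, x ≠ 0 → y ≠ 0 → lg (x * y) = lg x + lg y := by decide
lemma lg_zero : ∀ x : K5, x ≠ 0 → lg x = 0 → x = 1 := by decide
lemma lg_one : lg 1 = 0 := by decide

lemma k5_pow : ∀ x : K5, x ≠ 0 → x ^ 4 = 1 := by decide
lemma k5_pow5 : ∀ x : K5, x ^ 5 = x := by decide
lemma k5_sq : ∀ x : K5, x * x = 1 → x = 1 ∨ x = -1 := by decide
lemma k5_two : (2 : K5) ≠ 0 := by decide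
lemma k5_nat : ∀ x : K5, ∃ n : Fin 5, x = (n.val : K5) := by decide

open DihedralGroup

namespace Yg

lemma det_ne (g : Yg) : g.A.det ≠ 0 := by
  intro h0
  have := congrArg Matrix.det g.h
  rw [det_mul, det_one, h0, zero_mul] at this
  exact zero_ne_one this

lemma det_ne' (g : Yg) : g.B.det ≠ 0 := by
  intro h0
  have := congrArg Matrix.det g.h
  rw [det_mul, det_one, det_transpose, h0, mul_zero] at this
  exact zero_ne_one this

lemma lg_B (g : Yg) : lg g.B.det = -lg g.A.det := by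
  have := congrArg Matrix.det g.h
  rw [det_mul, det_one, det_transpose] at this
  have h2 := lg_mul _ _ g.det_ne g.det_ne'
  rw [this, lg_one] at h2
  exact (neg_eq_of_add_eq_zero_right h2.symm).symm

/-- the map to the dihedral group -/
def pi : Yg →* D8 where
  toFun g := cond g.e (sr (-lg g.A.det)) (r (lg g.A.det))
  map_one' := by
    simp [lg_one]
  map_mul' := by
    intro g k
    cases hg : g.e <;> cases hk : k.e
    · simp only [mul_e, mul_A, hg, hk, cond_false, Bool.false_xor, det_mul,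
        lg_mul _ _ g.det_ne k.det_ne, r_mul_r]
    · simp only [mul_e, mul_A, hg, hk, cond_false, cond_true, Bool.false_xor, det_mul,
        lg_mul _ _ g.det_ne k.det_ne, r_mul_sr]
      exact congrArg sr (by ring)
    · simp only [mul_e, mul_A, hg, hk, cond_false, cond_true, Bool.xor_false, det_mul,
        lg_mul _ _ g.det_ne k.det_ne', sr_mul_r, lg_B k]
      exact congrArg sr (by ring)
    · simp only [mul_e, mul_A, hg, hk, cond_false, cond_true, Bool.xor_self, det_mul,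
        lg_mul _ _ g.det_ne k.det_ne', sr_mul_sr, lg_B k]
      exact congrArg r (by ring)

lemma mem_ker {g : Yg} : g ∈ pi.ker ↔ g.e = false ∧ g.A.det = 1 := by
  rw [MonoidHom.mem_ker]
  constructor
  · intro h
    cases he : g.e
    · refine ⟨rfl, ?_⟩
      have h1 : pi g = r (lg g.A.det) := by
        show cond g.e (sr (-lg g.A.det)) (r (lg g.A.det)) = r (lg g.A.det)
        rw [he]; rfl
      rw [h, one_def, r.injEq] at h1
      exact lg_zero _ g.det_ne h1.symm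
    · exfalso
      have h1 : pi g = sr (-lg g.A.det) := by
        show cond g.e (sr (-lg g.A.det)) (r (lg g.A.det)) = sr (-lg g.A.det)
        rw [he]; rfl
      rw [h, one_def] at h1
      cases h1
  · rintro ⟨h1, h2⟩
    show cond g.e (sr (-lg g.A.det)) (r (lg g.A.det)) = 1
    rw [h1, h2, lg_one]
    rfl

/-- general linear element -/
noncomputable def gl (a b : V5) (A : M5) (h : IsUnit A.det) : Yg :=
  ⟨a, b, A, (A⁻¹)ᵀ, false, by rw [transpose_transpose]; exact Matrix.mul_nonsing_inv A h⟩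

/-- element of the kernel -/
def em (a b : V5) (s : SL4 K5) : Yg :=
  ⟨a, b, s.1, ((s⁻¹).1)ᵀ, false, by
    rw [transpose_transpose]
    exact sl_mul_inv s⟩

lemma em_mem (a b : V5) (s : SL4 K5) : em a b s ∈ pi.ker := mem_ker.2 ⟨rfl, s.2⟩

lemma pi_surj : Function.Surjective pi := by
  have h1 : ∀ i : ZMod 4, ∃ x : K5, x ≠ 0 ∧ lg x = i := by decide
  have h2 : ∀ i : ZMod 4, ∃ g : Yg, pi g = r i := by
    intro i
    obtain ⟨x, hx, rfl⟩ := h1 i
    have hd : (diagonal ![x, 1, 1, 1] : M5).det = x := by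
      rw [det_diagonal]; simp [Fin.prod_univ_four]
    refine ⟨gl 0 0 (diagonal ![x, 1, 1, 1]) (by rw [hd]; exact hx.isUnit), ?_⟩
    show r (lg (diagonal ![x, 1, 1, 1] : M5).det) = r (lg x)
    rw [hd]
  have h3 : ∃ g : Yg, pi g = sr 0 := by
    refine ⟨⟨0, 0, 1, 1, true, by simp⟩, ?_⟩
    show (sr (-lg (1 : M5).det) : D8) = sr 0
    rw [det_one, lg_one, neg_zero]
  intro x
  rcases x with i | i
  · exact h2 i
  · obtain ⟨g, hg⟩ := h2 i
    obtain ⟨k, hk⟩ := h3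
    refine ⟨k * g, ?_⟩
    rw [map_mul, hg, hk, sr_mul_r, zero_add]

end Yg

end Pool.Agent.Helper813
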