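import Pool.Agent.Helper813.Conc

set_option autoImplicit false
set_option linter.unusedSectionVars false

namespace Pool.Agent.Helper813

open Matrix Matrix.SpecialLinearGroup
open scoped MatrixGroups commutatorElement

/-- equality in the projective group -/
lemma t4_eq (s t : SL4 K5) : ((s : T4 K5) = (t : T4 K5)) ↔ ∃ c : K5, (t : M5) = c • (s : M5) := by
  rw [QuotientGroup.eq, mem_center_iff]
  constructor
  · rintro ⟨c, _, hc⟩
    refine ⟨c, ?_⟩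
    have h1 : (t : M5) = (s : M5) * ((s⁻¹ * t : SL4 K5) : M5) := by
      rw [← Matrix.SpecialLinearGroup.coe_mul, mul_inv_cancel_left]
    rw [h1, ← hc]
    simp [Matrix.scalar_apply, ← smul_one_eq_diagonal]
  · rintro ⟨c, hc⟩
    have h0 : c ≠ 0 := by
      rintro rfl
      have := t.2
      rw [hc, zero_smul, det_zero] at this
      exact zero_ne_one this
    refine ⟨c, by simpa using k5_pow c h0, ?_⟩
    rw [Matrix.SpecialLinearGroup.coe_mul, hc, mul_smul_comm, sl_inv_mul]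
    simp [Matrix.scalar_apply, ← smul_one_eq_diagonal]

/-- the projection to the projective group -/
def lamc : Aff →* T4 K5 where
  toFun x := (x.s : T4 K5)
  map_one' := rfl
  map_mul' _ _ := rfl

lemma lamc_surj : Function.Surjective lamc := by
  intro t
  obtain ⟨s, rfl⟩ := QuotientGroup.mk_surjective t
  exact ⟨⟨0, s⟩, rfl⟩

/-- the point stabiliser -/
def Hc : Subgroup Aff where
  carrier := {x | x.a = 0 ∧ (x.s : M5) * (x.s : M5)ᵀ = 1}
  one_mem' := ⟨rfl, by simp⟩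
  mul_mem' := by
    rintro x y ⟨h1, h2⟩ ⟨h3, h4⟩
    refine ⟨by simp [h1, h3], ?_⟩
    rw [Aff.mul_s, Matrix.SpecialLinearGroup.coe_mul, transpose_mul, mul_assoc,
      ← mul_assoc (y.s : M5), h4, one_mul, h2]
  inv_mem' := by
    rintro x ⟨h1, h2⟩
    refine ⟨by simp [h1], ?_⟩
    have h3 : ((x.s⁻¹ : SL4 K5) : M5) = (x.s : M5)ᵀ := by
      calc ((x.s⁻¹ : SL4 K5) : M5) = ((x.s⁻¹ : SL4 K5) : M5) * ((x.s : M5) * (x.s : M5)ᵀ) := by
            rw [h2, mul_one]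
        _ = (x.s : M5)ᵀ := by rw [← mul_assoc, sl_inv_mul, one_mul]
    rw [Aff.inv_s, h3, transpose_transpose]
    exact mul_eq_one_comm.1 h2

lemma mem_Hc {x : Aff} : x ∈ Hc ↔ x.a = 0 ∧ (x.s : M5) * (x.s : M5)ᵀ = 1 := Iff.rfl

lemma one_ne : (fun _ => 1 : V5) ≠ 0 := by
  intro h
  exact one_ne_zero (congrFun h 0)

lemma Hc_ne : Hc ≠ ⊤ := by
  intro h
  have h1 : (⟨fun _ => 1, 1⟩ : Aff) ∈ Hc := by rw [h]; trivial
  exact one_ne (mem_Hc.1 h1).1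

lemma Hc_core (N : Subgroup Aff) (hN : N.Normal) (hNH : N ≤ Hc) : N = ⊥ := by
  rw [Subgroup.eq_bot_iff_forall]
  intro x hx
  have h1 := mem_Hc.1 (hNH hx)
  have h2 : ∀ w : V5, (x.s : M5) *ᵥ w = w := by
    intro w
    have h3 := (mem_Hc.1 (hNH (hN.conj_mem x hx ⟨w, 1⟩))).1
    simp only [Aff.mul_a, Aff.mul_s, Aff.inv_a, h1.1, mulVec_zero, add_zero, inv_one, one_mul,
      Matrix.SpecialLinearGroup.coe_one, one_mulVec, mulVec_neg] at h3
    rw [add_neg_eq_zero] at h3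
    exact h3.symm
  apply Aff.ext h1.1
  apply Subtype.ext
  apply Matrix.ext_of_mulVec_single
  intro i
  rw [h2, Aff.one_s, Matrix.SpecialLinearGroup.coe_one, one_mulVec]

/-- the map from the top group -/
def phc (g : Yg) : Aff := if h : g.A.det = 1 then ⟨g.a, ⟨g.A, h⟩⟩ else 1

lemma phc_eq {g : Yg} (h : g.A.det = 1) : phc g = ⟨g.a, ⟨g.A, h⟩⟩ := dif_pos h

lemma phc_a {g : Yg} (h : g ∈ Yg.pi.ker) : (phc g).a = g.a := by
  rw [phc_eq (Yg.mem_ker.1 h).2]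

lemma phc_s {g : Yg} (h : g ∈ Yg.pi.ker) : ((phc g).s : M5) = g.A := by
  rw [phc_eq (Yg.mem_ker.1 h).2]

lemma aff_ext {x y : Aff} (h1 : x.a = y.a) (h2 : (x.s : M5) = (y.s : M5)) : x = y :=
  Aff.ext h1 (Subtype.ext h2)

lemma phc_mul (x : Yg) (hx : x ∈ Yg.pi.ker) (y : Yg) (hy : y ∈ Yg.pi.ker) :
    phc (x * y) = phc x * phc y := by
  have hxe := (Yg.mem_ker.1 hx).1
  apply aff_ext
  · rw [phc_a (mul_mem hx hy), Aff.mul_a, phc_a hx, phc_a hy, phc_s hx, Yg.mul_a, hxe]; rfl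
  · rw [phc_s (mul_mem hx hy), Aff.mul_s, Matrix.SpecialLinearGroup.coe_mul, phc_s hx, phc_s hy,
      Yg.mul_A, hxe]; rfl

lemma phc_em (a b : V5) (s : SL4 K5) : phc (Yg.em a b s) = ⟨a, s⟩ :=
  aff_ext (phc_a (Yg.em_mem a b s)) (phc_s (Yg.em_mem a b s))

lemma phc_surj (t : Aff) : ∃ x ∈ Yg.pi.ker, phc x = t := ⟨Yg.em t.a 0 t.s, Yg.em_mem _ _ _, phc_em _ _ _⟩

/-- the stabiliser in the top group -/
def Lc : Subgroup Yg where
  carrier := {g | g.e = false ∧ g.A.det = 1 ∧ g.a = 0 ∧ g.A * g.Aᵀ = 1}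
  one_mem' := ⟨rfl, by simp, rfl, by simp⟩
  mul_mem' := by
    rintro x y ⟨h1, h2, h3, h4⟩ ⟨h5, h6, h7, h8⟩
    refine ⟨by simp [h1, h5], by simp [h1, h2, h6], by simp [h1, h3, h7], ?_⟩
    rw [Yg.mul_A, h1, cond_false, transpose_mul, mul_assoc,
      ← mul_assoc y.A, h8, one_mul, h4]
  inv_mem' := by
    rintro x ⟨h1, h2, h3, h4⟩
    have h5 : x.Bᵀ = x.Aᵀ := by
      calc x.Bᵀ = x.Bᵀ * (x.A * x.Aᵀ) := by rw [h4, mul_one]
        _ = x.Aᵀ := by rw [← mul_assoc, x.h', one_mul]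
    refine ⟨by simp [h1], ?_, by simp [h1, h3], ?_⟩
    · rw [Yg.inv_A, h1, cond_false, h5, det_transpose, h2]
    · rw [Yg.inv_A, h1, cond_false, h5, transpose_transpose]
      exact mul_eq_one_comm.1 h4

lemma mem_Lc {g : Yg} : g ∈ Lc ↔ g.e = false ∧ g.A.det = 1 ∧ g.a = 0 ∧ g.A * g.Aᵀ = 1 := Iff.rfl

lemma Lc_le : Lc ≤ Yg.pi.ker := fun _ hg => Yg.mem_ker.2 ⟨hg.1, hg.2.1⟩

lemma phc_L (x : Yg) (hx : x ∈ Yg.pi.ker) : x ∈ Lc ↔ phc x ∈ Hc := by
  have h1 := Yg.mem_ker.1 hx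
  rw [mem_Lc, mem_Hc, phc_a hx, phc_s hx]
  tauto

/-- equality under the projection, for kernel elements -/
lemma lam_eq {x y : Yg} (hx : x ∈ Yg.pi.ker) (hy : y ∈ Yg.pi.ker) :
    lamc (phc x) = lamc (phc y) ↔ ∃ c : K5, y.A = c • x.A := by
  rw [show lamc (phc x) = ((phc x).s : T4 K5) from rfl,
    show lamc (phc y) = ((phc y).s : T4 K5) from rfl, t4_eq, phc_s hx, phc_s hy]

lemma lam_one {x : Yg} (hx : x ∈ Yg.pi.ker) : lamc (phc x) = 1 ↔ ∃ c : K5, x.A = c • (1 : M5) := by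
  have h1 : lamc (phc (1 : Yg)) = 1 := by
    rw [show phc (1 : Yg) = 1 from aff_ext (phc_a (one_mem _)) (phc_s (one_mem _)), map_one]
  rw [← h1, eq_comm, lam_eq (one_mem _) hx, Yg.one_A]

lemma ker_conj {b x : Yg} (hx : x ∈ Yg.pi.ker) : b * x * b⁻¹ ∈ Yg.pi.ker :=
  Yg.pi.normal_ker.conj_mem x hx b

lemma conj_A_false {b x : Yg} (hb : b.e = false) (hx : x.e = false) :
    (b * x * b⁻¹).A = b.A * x.A * b.Bᵀ := by
  simp [hb, hx]

lemma conj_A_true {b x : Yg} (hb : b.e = true) (hx : x.e = false) :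
    (b * x * b⁻¹).A = b.A * x.B * b.Bᵀ := by
  simp [hb, hx]

lemma scalar_B {x : Yg} {c : K5} (h : x.A = c • (1 : M5)) : x.B = c⁻¹ • (1 : M5) := by
  have h0 : c ≠ 0 := by
    rintro rfl
    apply x.det_ne
    rw [h, zero_smul, det_zero]
  have h1 := x.h2
  rw [h, transpose_smul, transpose_one, mul_smul_comm, mul_one] at h1
  rw [← h1, smul_smul, inv_mul_cancel₀ h0, one_smul]

lemma ind_c (b x : Yg) (hx : x ∈ Yg.pi.ker) (h : lamc (phc x) = 1) :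
    lamc (phc (b * x * b⁻¹)) = 1 := by
  rw [lam_one hx] at h
  rw [lam_one (ker_conj hx)]
  obtain ⟨c, hc⟩ := h
  have hxe := (Yg.mem_ker.1 hx).1
  cases hb : b.e
  · refine ⟨c, ?_⟩
    rw [conj_A_false hb hxe, hc, mul_smul_comm, mul_one, smul_mul_assoc, b.h]
  · refine ⟨c⁻¹, ?_⟩
    rw [conj_A_true hb hxe, scalar_B hc, mul_smul_comm, mul_one, smul_mul_assoc, b.h]

/-- a matrix whose trace is nonzero while that of its inverse vanishes -/
def w0 : M5 := !![0, 0, 0, -1; 1, 0, 0, -1; 0, 1, 0, 0; 0, 0, 1, 0]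
def w1 : M5 := !![-1, 1, 0, 0; 0, 0, 1, 0; 0, 0, 0, 1; -1, 0, 0, 0]

lemma w01 : w0 * w1 = 1 := by decide
lemma w10 : w1 * w0 = 1 := by decide
lemma w1_det : w1.det = 1 := by decide
lemma tr_w0 : w0.trace = 0 := by decide
lemma tr_w1 : w1.trace = -1 := by decide

end Pool.Agent.Helper813
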