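import Pool.Agent.Helper813.Conc2

set_option autoImplicit false
set_option linter.unusedSectionVars false

namespace Pool.Agent.Helper813

open Matrix Matrix.SpecialLinearGroup DihedralGroup
open scoped MatrixGroups commutatorElement

lemma em_A (a b : V5) (s : SL4 K5) : (Yg.em a b s).A = (s : M5) := rfl
lemma em_B (a b : V5) (s : SL4 K5) : (Yg.em a b s).B = ((s⁻¹ : SL4 K5) : M5)ᵀ := rfl
lemma em_e (a b : V5) (s : SL4 K5) : (Yg.em a b s).e = false := rfl

lemma trace_conj (A B s : M5) (h : Bᵀ * A = 1) : (A * s * Bᵀ).trace = s.trace := by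
  rw [Matrix.trace_mul_comm, ← mul_assoc, h, one_mul]

lemma det_c (b : Yg) (h : ∀ x ∈ Yg.pi.ker, lamc (phc (b * x * b⁻¹)) = lamc (phc x)) :
    Yg.pi b = 1 := by
  have h1 : ∀ s : SL4 K5, ∃ c : K5, (s : M5) = c • (b * Yg.em 0 0 s * b⁻¹).A := by
    intro s
    have h2 := h _ (Yg.em_mem 0 0 s)
    rw [lam_eq (ker_conj (Yg.em_mem 0 0 s)) (Yg.em_mem 0 0 s)] at h2
    exact h2
  cases hb : b.e
  · -- commutes with transvections
    have h2 : ∀ (i j : Fin 4) (hij : i ≠ j) (a : K5),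
        ((tv hij a : SL4 K5) : M5) * b.A = b.A * ((tv hij a : SL4 K5) : M5) := by
      intro i j hij a
      obtain ⟨c, hc⟩ := h1 (tv hij a)
      rw [conj_A_false hb (em_e _ _ _), em_A] at hc
      have h3 := congrArg Matrix.trace hc
      rw [trace_smul, trace_conj _ _ _ b.h'] at h3
      have h4 : ((tv hij a : SL4 K5) : M5).trace = -1 := by
        show (1 + single i j a : M5).trace = -1
        rw [trace_add, trace_single_eq_of_ne _ _ _ hij, trace_one, add_zero]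
        decide
      rw [h4, smul_eq_mul, mul_neg, mul_one] at h3
      have h5 : c = 1 := (neg_inj.1 h3).symm
      rw [h5, one_smul] at hc
      calc ((tv hij a : SL4 K5) : M5) * b.A
          = b.A * ((tv hij a : SL4 K5) : M5) * b.Bᵀ * b.A := by rw [← hc]
        _ = b.A * ((tv hij a : SL4 K5) : M5) := by rw [mul_assoc, b.h', mul_one]
    have h3 : b.A ∈ Set.range (Matrix.scalar (Fin 4)) := by
      apply Matrix.mem_range_scalar_of_commute_transvectionStruct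
      rintro ⟨i, j, hij, a⟩
      exact h2 i j hij a
    obtain ⟨c, hc⟩ := h3
    have h4 : b.A.det = c ^ 4 := by
      rw [← hc, Matrix.scalar_apply, det_diagonal]
      simp
    have h5 : c ≠ 0 := by
      rintro rfl
      apply b.det_ne
      rw [h4]; rfl
    have h6 : b ∈ Yg.pi.ker := Yg.mem_ker.2 ⟨hb, by rw [h4, k5_pow c h5]⟩
    exact h6
  · exfalso
    have hs : ∃ s : SL4 K5, (s : M5) = w1 := ⟨⟨w1, w1_det⟩, rfl⟩
    obtain ⟨s, hs⟩ := hs
    have hs' : ((s⁻¹ : SL4 K5) : M5) = w0 := by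
      have h2 := sl_inv_mul s
      rw [hs] at h2
      calc ((s⁻¹ : SL4 K5) : M5) = ((s⁻¹ : SL4 K5) : M5) * (w1 * w0) := by rw [w10, mul_one]
        _ = w0 := by rw [← mul_assoc, h2, one_mul]
    obtain ⟨c, hc⟩ := h1 s
    rw [conj_A_true hb (em_e _ _ _), em_B] at hc
    have h3 := congrArg Matrix.trace hc
    rw [trace_smul, trace_conj _ _ _ b.h', trace_transpose, hs, hs', tr_w0, tr_w1, smul_zero] at h3
    exact absurd h3 (by decide)

/-- the scalar part of the kernel -/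
def Mc : Subgroup Yg where
  carrier := {g | g.e = false ∧ ∃ c : K5, g.A = c • (1 : M5)}
  one_mem' := ⟨rfl, 1, by simp⟩
  mul_mem' := by
    rintro x y ⟨h1, c, h2⟩ ⟨h3, d, h4⟩
    refine ⟨by simp [h1, h3], c * d, ?_⟩
    rw [Yg.mul_A, h1, cond_false, h2, h4, smul_mul_assoc, one_mul, smul_smul]
  inv_mem' := by
    rintro x ⟨h1, c, h2⟩
    refine ⟨by simp [h1], c⁻¹, ?_⟩
    rw [Yg.inv_A, h1, cond_false, scalar_B h2, transpose_smul, transpose_one]

lemma mem_Mc {g : Yg} : g ∈ Mc ↔ g.e = false ∧ ∃ c : K5, g.A = c • (1 : M5) := Iff.rfl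

/-- the ratio homomorphism -/
def Mchi : Mc →* K5 where
  toFun g := g.1.A 0 0
  map_one' := by simp
  map_mul' := by
    rintro ⟨x, h1, c, h2⟩ ⟨y, h3, d, h4⟩
    show (x * y).A 0 0 = x.A 0 0 * y.A 0 0
    rw [Yg.mul_A, h1, cond_false, h2, h4]
    simp [mul_comm]

lemma Mc_sol : Group.IsSolvable Mc := by
  let χ : Mc →* K5ˣ := Mchi.toHomUnits
  have hker : ∀ g : Mc, g ∈ χ.ker → g.1.A = 1 := by
    rintro ⟨g, h1, c, h2⟩ hg
    have h3 : ((χ ⟨g, h1, c, h2⟩ : K5ˣ) : K5) = 1 := by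
      rw [MonoidHom.mem_ker.1 hg]; rfl
    have h4 : g.A 0 0 = 1 := h3
    show g.A = 1
    rw [h2] at h4 ⊢
    simp at h4
    rw [h4, one_smul]
  have hB : ∀ g : Mc, g ∈ χ.ker → g.1.B = 1 := by
    intro g hg
    have := g.1.h2
    rw [hker g hg, transpose_one, mul_one] at this
    exact this
  have hcomm : ∀ x y : χ.ker, x * y = y * x := by
    rintro ⟨x, hx⟩ ⟨y, hy⟩
    apply Subtype.ext
    apply Subtype.ext
    show x.1 * y.1 = y.1 * x.1
    have hxe := x.2.1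
    have hye := y.2.1
    apply Yg.ext
    · rw [Yg.mul_a, Yg.mul_a, hxe, hye, hker x hx, hker y hy]
      simp [add_comm]
    · rw [Yg.mul_b, Yg.mul_b, hxe, hye, hB x hx, hB y hy]
      simp [add_comm]
    · rw [Yg.mul_A, Yg.mul_A, hxe, hye, hker x hx, hker y hy]
      simp
    · rw [Yg.mul_B, Yg.mul_B, hxe, hye, hB x hx, hB y hy]
      simp
    · rw [Yg.mul_e, Yg.mul_e, hxe, hye]
  have h1 : Group.IsSolvable χ.ker := Group.isSolvable_of_comm hcomm
  exact Group.isSolvable_of_ker_le_range χ.ker.subtype χ (by rw [Subgroup.range_subtype])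

lemma Mc_ne : ¬ Yg.pi.ker ≤ Mc := by
  intro h
  have hij : (0 : Fin 4) ≠ 1 := by decide
  obtain ⟨_, c, hc⟩ := h (Yg.em_mem 0 0 (tv hij 1))
  rw [em_A] at hc
  have h1 := congrFun (congrFun hc 0) 1
  have h2 : ((tv hij 1 : SL4 K5) : M5) 0 1 = 1 := by
    show (1 + single 0 1 1 : M5) 0 1 = 1
    simp
  rw [h2] at h1
  simp at h1

/-- the projection of the kernel to SL -/
def psi : Yg.pi.ker →* SL4 K5 where
  toFun x := ⟨x.1.A, (Yg.mem_ker.1 x.2).2⟩
  map_one' := rfl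
  map_mul' := by
    intro x y
    have h : (x.1 * y.1).A = x.1.A * y.1.A := by
      rw [Yg.mul_A, (Yg.mem_ker.1 x.2).1, cond_false]
    exact Subtype.ext h

lemma psi_surj : Function.Surjective psi := fun s => ⟨⟨Yg.em 0 0 s, Yg.em_mem 0 0 s⟩, rfl⟩

lemma psi_coe (x : Yg.pi.ker) : (psi x : M5) = x.1.A := rfl

lemma B_eq {x y : Yg} (h : x.A = y.A) : x.B = y.B := by
  calc x.B = x.B * (y.Aᵀ * y.B) := by rw [y.h3, mul_one]
    _ = (x.B * x.Aᵀ) * y.B := by rw [h, mul_assoc]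
    _ = y.B := by rw [x.h2, one_mul]

lemma ker_alt_c (N : Subgroup Yg) (hN : N ≤ Yg.pi.ker) (hN' : Yg.pi.ker ≤ Nz N) :
    Yg.pi.ker ≤ N ∨ N ≤ Mc := by
  have hn : (N.subgroupOf Yg.pi.ker).Normal :=
    (Subgroup.normal_subgroupOf_iff_le_normalizer hN).2 hN'
  have hn2 : ((N.subgroupOf Yg.pi.ker).map psi).Normal := hn.map psi psi_surj
  rcases sl_normal _ hn2 with h | h
  · left
    have hcov : ∀ s : SL4 K5, ∃ g ∈ N, g.A = (s : M5) := by
      intro s
      have h1 : s ∈ (N.subgroupOf Yg.pi.ker).map psi := by rw [h]; trivial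
      obtain ⟨g, hg, rfl⟩ := h1
      exact ⟨g.1, hg, rfl⟩
    -- translations
    have htr : ∀ a b : V5, (Yg.em a b 1) ∈ N := by
      intro a b
      have hm : (-1 : M5).det = 1 := by
        rw [det_neg, det_one]; simp; decide
      obtain ⟨g, hg, hgA⟩ := hcov ⟨-1, hm⟩
      have hge := (Yg.mem_ker.1 (hN hg)).1
      have hgA' : g.A = -1 := hgA
      have hgB : g.B = -1 := by
        have := g.h2
        rw [hgA', transpose_neg, transpose_one, mul_neg, mul_one] at this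
        rw [← this, neg_neg]
      -- choose halves
      have h2 : (2 : K5) ≠ 0 := k5_two
      have e1 : ∀ x : V5, -((2 : K5)⁻¹ • x) - (2 : K5)⁻¹ • x = -x := by
        intro x
        rw [← neg_add', ← add_smul, ← two_mul, mul_inv_cancel₀ h2, one_smul]
      have h3 : g * Yg.em (-((2 : K5)⁻¹ • a)) (-((2 : K5)⁻¹ • b)) 1 * g⁻¹ *
          (Yg.em (-((2 : K5)⁻¹ • a)) (-((2 : K5)⁻¹ • b)) 1)⁻¹ ∈ N := by
        have e : g * Yg.em (-((2 : K5)⁻¹ • a)) (-((2 : K5)⁻¹ • b)) 1 * g⁻¹ *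
          (Yg.em (-((2 : K5)⁻¹ • a)) (-((2 : K5)⁻¹ • b)) 1)⁻¹ =
          g * (Yg.em (-((2 : K5)⁻¹ • a)) (-((2 : K5)⁻¹ • b)) 1 * g⁻¹ *
          (Yg.em (-((2 : K5)⁻¹ • a)) (-((2 : K5)⁻¹ • b)) 1)⁻¹) := by group
        rw [e]
        exact mul_mem hg (Nz_conj (hN' (Yg.em_mem _ _ _)) (inv_mem hg))
      have h4 : g * Yg.em (-((2 : K5)⁻¹ • a)) (-((2 : K5)⁻¹ • b)) 1 * g⁻¹ *
          (Yg.em (-((2 : K5)⁻¹ • a)) (-((2 : K5)⁻¹ • b)) 1)⁻¹ = Yg.em a b 1 := by
        have e2 : ∀ x : V5, (2 : K5)⁻¹ • x + (2 : K5)⁻¹ • x = x := by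
          intro x
          rw [← add_smul, ← two_mul, mul_inv_cancel₀ h2, one_smul]
        apply Yg.ext
        · simp [Yg.em, hgA', hgB, hge, neg_mulVec, e2]
        · simp [Yg.em, hgA', hgB, hge, neg_mulVec, e2]
        · simp [Yg.em, hgA', hgB, hge]
        · simp [Yg.em, hgA', hgB, hge]
        · simp [Yg.em, hge]
      rw [h4] at h3
      exact h3
    intro x hx
    obtain ⟨g, hg, hgA⟩ := hcov ⟨x.A, (Yg.mem_ker.1 hx).2⟩
    have hxe := (Yg.mem_ker.1 hx).1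
    have hge := (Yg.mem_ker.1 (hN hg)).1
    have hgA' : g.A = x.A := hgA
    have e : x = Yg.em (x.a - g.a) (x.b - g.b) 1 * g := by
      apply Yg.ext
      · simp [Yg.em]
      · simp [Yg.em]
      · simp [Yg.em, hgA']
      · simp [Yg.em, B_eq hgA']
      · simp [Yg.em, hxe, hge]
    rw [e]
    exact mul_mem (htr _ _) hg
  · right
    intro g hg
    refine ⟨(Yg.mem_ker.1 (hN hg)).1, ?_⟩
    have h1 : psi ⟨g, hN hg⟩ ∈ Subgroup.center (SL4 K5) := h ⟨⟨g, hN hg⟩, hg, rfl⟩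
    rw [mem_center_iff] at h1
    obtain ⟨c, _, hc⟩ := h1
    refine ⟨c, ?_⟩
    rw [psi_coe] at hc
    rw [← hc]
    simp [Matrix.scalar_apply, ← smul_one_eq_diagonal]

end Pool.Agent.Helper813
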