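import Pool.Agent.Helper813.Conc3

set_option autoImplicit false
set_option linter.unusedSectionVars false

namespace Pool.Agent.Helper813

open Matrix Matrix.SpecialLinearGroup DihedralGroup
open scoped MatrixGroups commutatorElement

lemma ker_perf_c : ⁅Yg.pi.ker, Yg.pi.ker⁆ = Yg.pi.ker := by
  have h1 : ⁅Yg.pi.ker, Yg.pi.ker⁆ ≤ Yg.pi.ker := Subgroup.commutator_le.2 (fun a ha b hb => by
    rw [commutatorElement_def]
    exact mul_mem (mul_mem (mul_mem ha hb) (inv_mem ha)) (inv_mem hb))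
  refine le_antisymm h1 ?_
  have h2 : Yg.pi.ker ≤ Nz ⁅Yg.pi.ker, Yg.pi.ker⁆ := by
    have hh : ∀ d ∈ Yg.pi.ker, ∀ x ∈ ⁅Yg.pi.ker, Yg.pi.ker⁆, d * x * d⁻¹ ∈
        ⁅Yg.pi.ker, Yg.pi.ker⁆ := by
      intro d hd x hx
      have e1 : d * x * d⁻¹ = ⁅d, x⁆ * x := by rw [commutatorElement_def]; group
      rw [e1]
      exact mul_mem (Subgroup.commutator_mem_commutator hd (h1 hx)) hx
    intro d hd
    refine mem_Nz_of (hh d hd) ?_
    intro x hx
    have := hh d⁻¹ (inv_mem hd) x hx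
    simpa using this
  rcases ker_alt_c _ h1 h2 with h | h
  · exact h
  · exfalso
    have h02 : (0 : Fin 4) ≠ 2 := by decide
    have h21 : (2 : Fin 4) ≠ 1 := by decide
    have h01 : (0 : Fin 4) ≠ 1 := by decide
    let x : Yg.pi.ker := ⟨Yg.em 0 0 (tv h02 1), Yg.em_mem _ _ _⟩
    let y : Yg.pi.ker := ⟨Yg.em 0 0 (tv h21 1), Yg.em_mem _ _ _⟩
    have h3 : ((⁅x, y⁆ : Yg.pi.ker) : Yg) ∈ ⁅Yg.pi.ker, Yg.pi.ker⁆ :=
      Subgroup.commutator_mem_commutator x.2 y.2
    obtain ⟨_, c, hc⟩ := h h3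
    rw [← psi_coe, map_commutatorElement] at hc
    have h4 : ⁅psi x, psi y⁆ = tv h01 1 := tv_comm h01 h02 h21 1
    rw [h4] at hc
    have h5 := congrFun (congrFun hc 0) 1
    have h6 : ((tv h01 1 : SL4 K5) : M5) 0 1 = 1 := by
      show (1 + single 0 1 1 : M5) 0 1 = 1
      simp
    rw [h6] at h5
    simp at h5

lemma ker_ne_c : Yg.pi.ker ≠ ⊥ := by
  intro h
  apply Mc_ne
  rw [h]
  exact bot_le

/-- matrices commuting with enough orthogonal matrices are scalar -/
def q1 : M5 := diagonal ![-1, -1, 1, 1]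
def q2 : M5 := diagonal ![-1, 1, -1, 1]
def q3 : M5 := !![0, 0, 0, -1; 1, 0, 0, 0; 0, 1, 0, 0; 0, 0, 1, 0]

lemma q1_det : q1.det = 1 := by decide
lemma q2_det : q2.det = 1 := by decide
lemma q3_det : q3.det = 1 := by decide
lemma q1_orth : q1 * q1ᵀ = 1 := by decide
lemma q2_orth : q2 * q2ᵀ = 1 := by decide
lemma q3_orth : q3 * q3ᵀ = 1 := by decide

lemma k5_neg : ∀ x : K5, -x = x → x = 0 := by decide

lemma commutant (S : M5) (h1 : S * q1 = q1 * S) (h2 : S * q2 = q2 * S) (h3 : S * q3 = q3 * S) :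
    S = S 0 0 • (1 : M5) := by
  have e1 : ∀ i j : Fin 4, S i j * (![-1, -1, 1, 1] : Fin 4 → K5) j =
      (![-1, -1, 1, 1] : Fin 4 → K5) i * S i j := by
    intro i j
    have := congrFun (congrFun h1 i) j
    rw [q1, mul_diagonal, diagonal_mul] at this
    exact this
  have e2 : ∀ i j : Fin 4, S i j * (![-1, 1, -1, 1] : Fin 4 → K5) j =
      (![-1, 1, -1, 1] : Fin 4 → K5) i * S i j := by
    intro i j
    have := congrFun (congrFun h2 i) j
    rw [q2, mul_diagonal, diagonal_mul] at this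
    exact this
  have sep : ∀ i j : Fin 4, i ≠ j →
      (![-1, -1, 1, 1] : Fin 4 → K5) i ≠ (![-1, -1, 1, 1] : Fin 4 → K5) j ∨
      (![-1, 1, -1, 1] : Fin 4 → K5) i ≠ (![-1, 1, -1, 1] : Fin 4 → K5) j := by decide
  have key : ∀ x a b : K5, x * a = b * x → b ≠ a → x = 0 := by decide
  have d1 : ∀ i j : Fin 4, i ≠ j → S i j = 0 := by
    intro i j hij
    rcases sep i j hij with h | h
    · exact key _ _ _ (e1 i j) h
    · exact key _ _ _ (e2 i j) h
  have d2 : S = diagonal (fun i => S i i) := by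
    ext i j
    by_cases h : i = j
    · subst h; simp
    · rw [diagonal_apply_ne _ h, d1 i j h]
  have d3 : ∀ i j : Fin 4, q3 i j = 1 → S i i = S j j := by
    intro i j hq
    have h4 := congrFun (congrFun h3 i) j
    rw [d2, mul_diagonal, diagonal_mul, hq, mul_one, one_mul] at h4
    exact h4
  have d10 := d3 1 0 (by decide)
  have d21 := d3 2 1 (by decide)
  have d32 := d3 3 2 (by decide)
  have d4 : ∀ i : Fin 4, S i i = S 0 0 := by
    intro i
    fin_cases i
    · rfl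
    · exact d10
    · exact d21.trans d10
    · exact d32.trans (d21.trans d10)
  rw [d2]
  ext i j
  by_cases h : i = j
  · subst h; simp [d4]
  · simp [h]

end Pool.Agent.Helper813
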