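import Pool.Agent.Helper813.Heads

set_option autoImplicit false

namespace Pool.Agent.Helper813

open scoped commutatorElement

section Defs

variable {Eh T : Type} [Group Eh] [Group T] {G : Type} [Group G]

/-- `φ` restricted to `E` is a surjective homomorphism onto `Eh` under which the part of `E`
normalising `D` is the preimage of `Hh`. -/
def Mark (Hh : Subgroup Eh) (D E : Subgroup G) (φ : G → Eh) : Prop :=
  (∀ x ∈ E, ∀ y ∈ E, φ (x * y) = φ x * φ y) ∧ (∀ t, ∃ x ∈ E, φ x = t) ∧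
    ∀ x ∈ E, (x ∈ Nz D ↔ φ x ∈ Hh)

/-- `E` is normal in `G` and every element of `G` acts on `E` modulo the kernel of `lam ∘ φ`
as a member of `Sig`. -/
def Act (lam : Eh →* T) (Sig : Set (T → T)) (E : Subgroup G) (φ : G → Eh) : Prop :=
  (∀ g : G, g ∈ Nz E) ∧
    ∀ g : G, ∃ y ∈ Sig, ∀ x ∈ E, lam (φ (g * x * g⁻¹)) = y (lam (φ x))

/-- the class of groups -/
def Cls (Hh : Subgroup Eh) (lam : Eh →* T) (Sig : Set (T → T)) (G : Type) [Group G] : Prop :=
  Finite G ∧ ∀ D E : Subgroup G, Head D → Head E → ∀ φ : G → Eh,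
    Mark Hh D E φ → Act lam Sig E φ

end Defs

section Basic

variable {Eh T : Type} [Group Eh] [Group T] {G : Type} [Group G]
  {Hh : Subgroup Eh} {lam : Eh →* T} {Sig : Set (T → T)} {D E : Subgroup G} {φ : G → Eh}

lemma Mark.one (h : Mark Hh D E φ) : φ 1 = 1 := by
  have h1 := h.1 1 (one_mem _) 1 (one_mem _)
  rw [mul_one] at h1
  exact (mul_eq_left.1 h1.symm)

lemma Mark.inv (h : Mark Hh D E φ) {x : G} (hx : x ∈ E) : φ x⁻¹ = (φ x)⁻¹ := by
  have h1 := h.1 x⁻¹ (inv_mem hx) x hx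
  rw [inv_mul_cancel, h.one] at h1
  exact eq_inv_of_mul_eq_one_left h1.symm

/-- the image of a subgroup of `E` -/
def Mark.img (h : Mark Hh D E φ) (K : Subgroup G) (hK : K ≤ E) : Subgroup Eh where
  carrier := {t | ∃ k ∈ K, φ k = t}
  one_mem' := ⟨1, one_mem _, h.one⟩
  mul_mem' := by
    rintro _ _ ⟨k, hk, rfl⟩ ⟨l, hl, rfl⟩
    exact ⟨k * l, mul_mem hk hl, h.1 k (hK hk) l (hK hl)⟩
  inv_mem' := by
    rintro _ ⟨k, hk, rfl⟩
    exact ⟨k⁻¹, inv_mem hk, h.inv (hK hk)⟩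

lemma Mark.img_normal (h : Mark Hh D E φ) (K : Subgroup G) (hK : K ≤ E) (hEK : E ≤ Nz K) :
    (h.img K hK).Normal := by
  constructor
  rintro _ ⟨k, hk, rfl⟩ s
  obtain ⟨x, hx, rfl⟩ := h.2.1 s
  refine ⟨x * k * x⁻¹, Nz_conj (hEK hx) hk, ?_⟩
  rw [h.1 _ (mul_mem hx (hK hk)) _ (inv_mem hx), h.1 _ hx _ (hK hk), h.inv hx]

lemma Mark.not_le (h : Mark Hh D E φ) (hH : Hh ≠ ⊤) : ¬ E ≤ Nz D := by
  intro hle
  apply hH
  rw [eq_top_iff]
  intro t _
  obtain ⟨x, hx, rfl⟩ := h.2.1 t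
  exact (h.2.2 x hx).1 (hle hx)

/-- elements of a normal subgroup `K ≤ E` normalising `D` are killed by `φ`. -/
lemma Mark.kill (h : Mark Hh D E φ) (hcore : ∀ N : Subgroup Eh, N.Normal → N ≤ Hh → N = ⊥)
    (K : Subgroup G) (hK : K ≤ E) (hEK : E ≤ Nz K) (hKD : K ≤ Nz D) {k : G} (hk : k ∈ K) :
    φ k = 1 := by
  have h1 := hcore (h.img K hK) (h.img_normal K hK hEK) (by
    rintro _ ⟨l, hl, rfl⟩
    exact (h.2.2 l (hK hl)).1 (hKD hl))
  have h2 : φ k ∈ h.img K hK := ⟨k, hk, rfl⟩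
  rw [h1] at h2
  simpa using h2

lemma Nz_map_inj {H : Type*} [Group H] {f : G →* H} (hf : Function.Injective f) {x : G} :
    x ∈ Nz D ↔ f x ∈ Nz (D.map f) := by
  constructor
  · intro h
    exact Subgroup.le_normalizer_map f (Subgroup.mem_map_of_mem f h)
  · intro h
    refine mem_Nz_of ?_ ?_
    · intro d hd
      obtain ⟨e, he, h2⟩ := Nz_conj h (Subgroup.mem_map_of_mem f hd)
      rw [← map_inv, ← map_mul, ← map_mul] at h2
      rw [← hf h2]; exact he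
    · intro d hd
      obtain ⟨e, he, h2⟩ := Nz_conj' h (Subgroup.mem_map_of_mem f hd)
      rw [← map_inv, ← map_mul, ← map_mul] at h2
      rw [← hf h2]; exact he

lemma inf_le_Nz {E N : Subgroup G} (hN : N.Normal) : E ≤ Nz (E ⊓ N) := by
  intro e he
  refine mem_Nz_of ?_ ?_
  · intro x hx
    rw [Subgroup.mem_inf] at hx ⊢
    exact ⟨mul_mem (mul_mem he hx.1) (inv_mem he), hN.conj_mem x hx.2 e⟩
  · intro x hx
    rw [Subgroup.mem_inf] at hx ⊢
    refine ⟨mul_mem (mul_mem (inv_mem he) hx.1) he, ?_⟩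
    have := hN.conj_mem x hx.2 e⁻¹
    simpa using this

end Basic

section Closure

variable {Eh T : Type} [Group Eh] [Group T]
  {Hh : Subgroup Eh} {lam : Eh →* T} {Sig : Set (T → T)}

/-- closure under quotients -/
lemma Cls.quot {G H : Type} [Group G] [Group H] (hG : Cls Hh lam Sig G) (f : G →* H)
    (hf : Function.Surjective f) : Cls Hh lam Sig H := by
  have := hG.1
  refine ⟨Finite.of_surjective f hf, ?_⟩
  intro D' E' hD' hE' φ' hM
  obtain ⟨D, hD, rfl⟩ := Head.lift hf hD'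
  obtain ⟨E, hE, rfl⟩ := Head.lift hf hE'
  have hDk : ¬ D ≤ f.ker := fun h => hD'.2.1 ((Subgroup.map_eq_bot_iff D).2 h)
  have hMark : Mark Hh D E (φ' ∘ f) := by
    refine ⟨?_, ?_, ?_⟩
    · intro x hx y hy
      simp only [Function.comp, map_mul]
      exact hM.1 _ (Subgroup.mem_map_of_mem f hx) _ (Subgroup.mem_map_of_mem f hy)
    · intro t
      obtain ⟨_, ⟨x, hx, rfl⟩, h2⟩ := hM.2.1 t
      exact ⟨x, hx, h2⟩
    · intro x hx
      rw [hD.mem_Nz_map hDk]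
      exact hM.2.2 _ (Subgroup.mem_map_of_mem f hx)
  obtain ⟨h1, h2⟩ := hG.2 D E hD hE _ hMark
  refine ⟨?_, ?_⟩
  · intro h
    obtain ⟨g, rfl⟩ := hf h
    exact Subgroup.le_normalizer_map f (Subgroup.mem_map_of_mem f (h1 g))
  · intro h
    obtain ⟨g, rfl⟩ := hf h
    obtain ⟨y, hy, h3⟩ := h2 g
    refine ⟨y, hy, ?_⟩
    rintro _ ⟨x, hx, rfl⟩
    have := h3 x hx
    simpa using this

/-- pulling the conclusion back along a surjection not killing `D` -/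
lemma Cls.pull {G H : Type} [Group G] [Group H] (hH : Hh ≠ ⊤)
    (hcore : ∀ N : Subgroup Eh, N.Normal → N ≤ Hh → N = ⊥)
    (hC : Cls Hh lam Sig H) (f : G →* H) (hf : Function.Surjective f) {D E : Subgroup G}
    (hD : Head D) (hE : Head E) {φ : G → Eh} (hM : Mark Hh D E φ) (hDf : ¬ D ≤ f.ker) :
    Act lam Sig E φ := by
  classical
  have hk : f.ker ≤ Nz D := hD.normal_le_Nz f.normal_ker hDf
  have hEf : ¬ E ≤ f.ker := fun h => hM.not_le hH (h.trans hk)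
  have hkill : ∀ k ∈ E, f k = 1 → φ k = 1 := by
    intro k hkE hfk
    refine hM.kill hcore (E ⊓ f.ker) inf_le_left (inf_le_Nz f.normal_ker)
      (inf_le_right.trans hk) (Subgroup.mem_inf.2 ⟨hkE, hfk⟩)
  let φ' : H → Eh := fun h => if hx : ∃ x ∈ E, f x = h then φ hx.choose else 1
  have hφ' : ∀ x ∈ E, φ' (f x) = φ x := by
    intro x hx
    have hex : ∃ x' ∈ E, f x' = f x := ⟨x, hx, rfl⟩
    have e1 : φ' (f x) = φ hex.choose := dif_pos hex
    obtain ⟨h1, h2⟩ := hex.choose_spec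
    rw [e1]
    have e2 : x = hex.choose * (hex.choose⁻¹ * x) := by group
    have h3 : φ (hex.choose⁻¹ * x) = 1 :=
      hkill _ (mul_mem (inv_mem h1) hx) (by rw [map_mul, map_inv, h2]; group)
    calc φ hex.choose = φ hex.choose * φ (hex.choose⁻¹ * x) := by rw [h3, mul_one]
      _ = φ (hex.choose * (hex.choose⁻¹ * x)) :=
          (hM.1 _ h1 _ (mul_mem (inv_mem h1) hx)).symm
      _ = φ x := by rw [← e2]
  have hM' : Mark Hh (D.map f) (E.map f) φ' := by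
    refine ⟨?_, ?_, ?_⟩
    · rintro _ ⟨x, hx, rfl⟩ _ ⟨y, hy, rfl⟩
      rw [← map_mul, hφ' _ (mul_mem hx hy), hφ' _ hx, hφ' _ hy, hM.1 x hx y hy]
    · intro t
      obtain ⟨x, hx, rfl⟩ := hM.2.1 t
      exact ⟨f x, Subgroup.mem_map_of_mem f hx, hφ' x hx⟩
    · rintro _ ⟨x, hx, rfl⟩
      rw [hφ' x hx, ← hD.mem_Nz_map hDf]
      exact hM.2.2 x hx
  obtain ⟨h1, h2⟩ := hC.2 _ _ (hD.map hf hDf) (hE.map hf hEf) φ' hM'
  have h3 : ∀ g : G, g ∈ Nz E := fun g => (hE.mem_Nz_map hEf).2 (h1 (f g))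
  refine ⟨h3, ?_⟩
  intro g
  obtain ⟨y, hy, h4⟩ := h2 (f g)
  refine ⟨y, hy, ?_⟩
  intro x hx
  have h5 := h4 (f x) (Subgroup.mem_map_of_mem f hx)
  rw [← map_inv, ← map_mul, ← map_mul, hφ' _ (Nz_conj (h3 g) hx), hφ' _ hx] at h5
  exact h5

/-- closure under normal subgroups -/
lemma Cls.sub {G : Type} [Group G] (hC : Cls Hh lam Sig G) (N : Subgroup G) (hN : N.Normal) :
    Cls Hh lam Sig N := by
  classical
  have := hC.1
  refine ⟨inferInstance, ?_⟩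
  intro D E hD hE φ hM
  let φ' : G → Eh := fun g => if h : g ∈ N then φ ⟨g, h⟩ else 1
  have hφ' : ∀ x : N, φ' (x : G) = φ x := by
    intro x
    simp only [φ', dif_pos x.2]
  have hM' : Mark Hh (D.map N.subtype) (E.map N.subtype) φ' := by
    refine ⟨?_, ?_, ?_⟩
    · rintro _ ⟨x, hx, rfl⟩ _ ⟨y, hy, rfl⟩
      have h1 := hφ' (x * y)
      have h2 := hφ' x
      have h3 := hφ' y
      simp only [Subgroup.coe_subtype, Subgroup.coe_mul] at *
      rw [h1, h2, h3]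
      exact hM.1 x hx y hy
    · intro t
      obtain ⟨x, hx, rfl⟩ := hM.2.1 t
      exact ⟨x, ⟨x, hx, rfl⟩, hφ' x⟩
    · rintro _ ⟨x, hx, rfl⟩
      rw [← Nz_map_inj N.subtype_injective, hM.2.2 x hx]
      have h2 := hφ' x
      simp only [Subgroup.coe_subtype]
      rw [h2]
  obtain ⟨h1, h2⟩ := hC.2 _ _ (Head.of_sub hN.isSubnormal hD) (Head.of_sub hN.isSubnormal hE)
    φ' hM'
  refine ⟨fun g => (Nz_map_inj N.subtype_injective).2 (h1 g), ?_⟩
  intro g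
  obtain ⟨y, hy, h3⟩ := h2 (g : G)
  refine ⟨y, hy, ?_⟩
  intro x hx
  have h4 := h3 (x : G) ⟨x, hx, rfl⟩
  have h5 := hφ' (g * x * g⁻¹)
  rw [← hφ' x, ← h4, ← h5]
  rfl

/-- elements of `E ∩ N` are killed by `lam ∘ φ` when the head `E` is not inside `N`. -/
lemma Mark.lam_kill {G : Type} [Group G] {D E N : Subgroup G} {φ : G → Eh}
    (hM : Mark Hh D E φ) (hT : IsSimpleGroup T) (hlam : Function.Surjective lam)
    (hE : Head E) (hN : N.Normal) (hEN : ¬ E ≤ N) {c : G} (hc : c ∈ E) (hcN : c ∈ N) :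
    lam (φ c) = 1 := by
  have hnorm : ((hM.img (E ⊓ N) inf_le_left).map lam).Normal :=
    (hM.img_normal (E ⊓ N) inf_le_left (inf_le_Nz hN)).map lam hlam
  rcases hT.eq_bot_or_eq_top_of_normal _ hnorm with h | h
  · have h1 : lam (φ c) ∈ (hM.img (E ⊓ N) inf_le_left).map lam :=
      ⟨φ c, ⟨c, Subgroup.mem_inf.2 ⟨hc, hcN⟩, rfl⟩, rfl⟩
    rw [h] at h1
    simpa using h1
  · exfalso
    let K : Subgroup G :=
      { carrier := {x | x ∈ E ∧ lam (φ x) = 1}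
        one_mem' := ⟨one_mem _, by rw [hM.one, map_one]⟩
        mul_mem' := by
          rintro x y ⟨hx, hx'⟩ ⟨hy, hy'⟩
          exact ⟨mul_mem hx hy, by rw [hM.1 x hx y hy, map_mul, hx', hy', one_mul]⟩
        inv_mem' := by
          rintro x ⟨hx, hx'⟩
          exact ⟨inv_mem hx, by rw [hM.inv hx, map_inv, hx', inv_one]⟩ }
    have hKE : K ≤ E := fun x hx => hx.1
    have hKN : E ≤ Nz K := by
      intro e he
      refine mem_Nz_of ?_ ?_
      · rintro x ⟨hx, hx'⟩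
        refine ⟨mul_mem (mul_mem he hx) (inv_mem he), ?_⟩
        rw [hM.1 _ (mul_mem he hx) _ (inv_mem he), hM.1 _ he _ hx, hM.inv he]
        simp [hx']
      · rintro x ⟨hx, hx'⟩
        refine ⟨mul_mem (mul_mem (inv_mem he) hx) he, ?_⟩
        rw [hM.1 _ (mul_mem (inv_mem he) hx) _ he, hM.1 _ (inv_mem he) _ hx, hM.inv he]
        simp [hx']
    have hle : E ≤ (E ⊓ N) ⊔ K := by
      intro e he
      have h1 : lam (φ e) ∈ (hM.img (E ⊓ N) inf_le_left).map lam := by rw [h]; trivial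
      obtain ⟨_, ⟨k, hk, rfl⟩, h2⟩ := h1
      have e1 : e = k * (k⁻¹ * e) := by group
      have hkE := (Subgroup.mem_inf.1 hk).1
      rw [e1]
      refine Subgroup.mul_mem_sup hk ⟨mul_mem (inv_mem hkE) he, ?_⟩
      rw [hM.1 _ (inv_mem hkE) _ he, hM.inv hkE, map_mul, map_inv, h2]
      group
    rcases hE.2.2.2 _ _ inf_le_left hKE (inf_le_Nz hN) hKN hle with h3 | h3
    · exact hEN (h3.trans inf_le_right)
    · have hnt := hT.toNontrivial
      obtain ⟨t, ht⟩ := exists_ne (1 : T)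
      obtain ⟨s, rfl⟩ := hlam t
      obtain ⟨x, hx, rfl⟩ := hM.2.1 s
      exact ht (h3 hx).2

/-- action of a normal subgroup in the class -/
lemma Cls.act_of_normal {G : Type} [Group G] {D E N : Subgroup G} {φ : G → Eh}
    (hH : Hh ≠ ⊤) (hT : IsSimpleGroup T) (hlam : Function.Surjective lam) (hid : id ∈ Sig)
    (hN : N.Normal) (hC : Cls Hh lam Sig N) (hD : Head D) (hE : Head E)
    (hM : Mark Hh D E φ) :
    N ≤ Nz E ∧ ∀ n ∈ N, ∃ y ∈ Sig, ∀ x ∈ E, lam (φ (n * x * n⁻¹)) = y (lam (φ x)) := by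
  by_cases hEN : E ≤ N
  · have hDN : D ≤ N := by
      by_contra hcon
      exact hM.not_le hH (hEN.trans (hD.normal_le_Nz hN hcon))
    have eD : (D.subgroupOf N).map N.subtype = D := Subgroup.map_subgroupOf_eq_of_le hDN
    have eE : (E.subgroupOf N).map N.subtype = E := Subgroup.map_subgroupOf_eq_of_le hEN
    have hM' : Mark Hh (D.subgroupOf N) (E.subgroupOf N) (fun x : N => φ (x : G)) := by
      refine ⟨?_, ?_, ?_⟩
      · intro x hx y hy
        exact hM.1 _ (Subgroup.mem_subgroupOf.1 hx) _ (Subgroup.mem_subgroupOf.1 hy)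
      · intro t
        obtain ⟨x, hx, h⟩ := hM.2.1 t
        exact ⟨⟨x, hEN hx⟩, Subgroup.mem_subgroupOf.2 hx, h⟩
      · intro x hx
        rw [Nz_map_inj N.subtype_injective, eD]
        exact hM.2.2 _ (Subgroup.mem_subgroupOf.1 hx)
    obtain ⟨h1, h2⟩ := hC.2 _ _ (hD.to_sub hDN) (hE.to_sub hEN) _ hM'
    refine ⟨?_, ?_⟩
    · intro n hn
      have h3 := (Nz_map_inj N.subtype_injective).1 (h1 ⟨n, hn⟩)
      rw [eE] at h3
      exact h3
    · intro n hn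
      obtain ⟨y, hy, h3⟩ := h2 ⟨n, hn⟩
      exact ⟨y, hy, fun x hx => h3 ⟨x, hEN hx⟩ (Subgroup.mem_subgroupOf.2 hx)⟩
  · refine ⟨hE.normal_le_Nz hN hEN, ?_⟩
    intro n hn
    refine ⟨id, hid, ?_⟩
    intro x hx
    have h1 := Subgroup.mem_inf.1 (hE.comm_mem hN hEN hn hx)
    have h2 := hM.lam_kill hT hlam hE hN hEN h1.1 h1.2
    have e1 : n * x * n⁻¹ = (n * x * n⁻¹ * x⁻¹) * x := by group
    rw [e1, hM.1 _ h1.1 _ hx, map_mul, h2, one_mul, id]

/-- closure under normal products -/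
lemma Cls.prod {G : Type} [Group G] [Finite G] (hH : Hh ≠ ⊤) (hT : IsSimpleGroup T)
    (hlam : Function.Surjective lam) (hid : id ∈ Sig)
    (hSig : ∀ p ∈ Sig, ∀ q ∈ Sig, ∀ r ∈ Sig, p ∘ q = r ∘ p → p ∘ q ∈ Sig)
    (N M : Subgroup G) (hN : N.Normal) (hM : M.Normal) (hCN : Cls Hh lam Sig N)
    (hCM : Cls Hh lam Sig M) (hNM : N ⊔ M = ⊤) : Cls Hh lam Sig G := by
  refine ⟨inferInstance, ?_⟩
  intro D E hD hE φ hMk
  obtain ⟨hN1, hN2⟩ := Cls.act_of_normal hH hT hlam hid hN hCN hD hE hMk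
  obtain ⟨hM1, hM2⟩ := Cls.act_of_normal hH hT hlam hid hM hCM hD hE hMk
  have hNz : ∀ g : G, g ∈ Nz E := by
    intro g
    have h1 : N ⊔ M ≤ Nz E := sup_le hN1 hM1
    exact h1 (by rw [hNM]; trivial)
  refine ⟨hNz, ?_⟩
  intro g
  have hg : g ∈ N ⊔ M := by rw [hNM]; trivial
  obtain ⟨n, hn, m, hm, rfl⟩ := Subgroup.mem_sup_of_normal_left.1 hg
  obtain ⟨p, hp, hp'⟩ := hN2 n hn
  obtain ⟨q, hq, hq'⟩ := hM2 m hm
  obtain ⟨r, hr, hr'⟩ := hM2 (n * m * n⁻¹) (hM.conj_mem m hm n)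
  have hpq : ∀ x ∈ E, lam (φ (n * m * x * (n * m)⁻¹)) = p (q (lam (φ x))) := by
    intro x hx
    rw [← hq' x hx, ← hp' _ (Nz_conj (hNz m) hx)]
    congr 2; group
  refine ⟨p ∘ q, hSig p hp q hq r hr ?_, hpq⟩
  funext t
  obtain ⟨s, rfl⟩ := hlam t
  obtain ⟨x, hx, rfl⟩ := hMk.2.1 s
  simp only [Function.comp]
  rw [← hpq x hx, ← hp' x hx, ← hr' _ (Nz_conj (hNz n) hx)]
  congr 2; group

/-- closure under subdirect products -/
lemma Cls.subdirect {G H₁ H₂ : Type} [Group G] [Group H₁] [Group H₂] [Finite G] (hH : Hh ≠ ⊤)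
    (hcore : ∀ N : Subgroup Eh, N.Normal → N ≤ Hh → N = ⊥)
    (h1 : Cls Hh lam Sig H₁) (h2 : Cls Hh lam Sig H₂) (f₁ : G →* H₁) (f₂ : G →* H₂)
    (hf₁ : Function.Surjective f₁) (hf₂ : Function.Surjective f₂) (hk : f₁.ker ⊓ f₂.ker = ⊥) :
    Cls Hh lam Sig G := by
  refine ⟨inferInstance, ?_⟩
  intro D E hD hE φ hM
  by_cases hD1 : D ≤ f₁.ker
  · refine Cls.pull hH hcore h2 f₂ hf₂ hD hE hM ?_
    intro hD2
    apply hD.2.1
    rw [← le_bot_iff, ← hk]
    exact le_inf hD1 hD2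
  · exact Cls.pull hH hcore h1 f₁ hf₁ hD hE hM hD1

/-- closure under solvable normal extensions at the bottom -/
lemma Cls.solv {G Q : Type} [Group G] [Group Q] [Finite G] (hH : Hh ≠ ⊤)
    (hcore : ∀ N : Subgroup Eh, N.Normal → N ≤ Hh → N = ⊥)
    (hQ : Cls Hh lam Sig Q) (f : G →* Q) (hf : Function.Surjective f)
    (hs : Group.IsSolvable f.ker) : Cls Hh lam Sig G := by
  refine ⟨inferInstance, ?_⟩
  intro D E hD hE φ hM
  refine Cls.pull hH hcore hQ f hf hD hE hM ?_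
  intro hle
  have h1 : Group.IsSolvable D :=
    Group.isSolvable_of_isSolvable_injective (Subgroup.inclusion_injective hle)
  have h2 : Group.IsPerfect D := Subgroup.isPerfect_iff.2 hD.2.2.1
  have h3 : Nontrivial D := (Subgroup.nontrivial_iff_ne_bot D).2 hD.2.1
  exact Group.IsPerfect.not_isSolvable D h1

end Closure

end Pool.Agent.Helper813
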