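import Pool.Agent.Helper813.Abs

set_option autoImplicit false
set_option linter.unusedSectionVars false

namespace Pool.Agent.Helper813

open scoped commutatorElement

lemma a5_comm : ⁅(⊤ : Subgroup (alternatingGroup (Fin 5))), (⊤ : Subgroup (alternatingGroup (Fin 5)))⁆ =
    (⊤ : Subgroup (alternatingGroup (Fin 5))) :=
  commutator_alternatingGroup_eq_top (by simp)

lemma a5_center (s : alternatingGroup (Fin 5)) (h : ∀ t, t * s = s * t) : s = 1 := by
  have h1 : s ∈ Subgroup.center (alternatingGroup (Fin 5)) := Subgroup.mem_center_iff.2 h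
  rw [alternatingGroup.center_eq_bot (by simp)] at h1
  exact Subgroup.mem_bot.1 h1

/-- a chain as in the frozen statements -/
lemma chain_of_subnormal {G : Type} [Group G] {U : Subgroup G} (hU : U.IsSubnormal) :
    ∃ n : ℕ, ∃ c : ℕ → Subgroup G, c 0 = U ∧ c n = ⊤ ∧
      ∀ i < n, c i ≤ c (i + 1) ∧ ((c i).subgroupOf (c (i + 1))).Normal := by
  obtain ⟨n, f, h1, h2, h3, h4⟩ := Subgroup.IsSubnormal.isSubnormal_iff.1 hU
  exact ⟨n, f, h3, h4, fun i _ => ⟨h1 (Nat.le_succ i), h2 i⟩⟩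

section

variable {Y D Eh T : Type} [Group Y] [Group D] [Group Eh] [Group T] [Finite Y]

/-- the first statement fails -/
theorem first (d : Data Y D Eh T) :
    ¬ (∀ F : (H : Type) → [Group H] → Prop,
      (∀ (G H : Type) [Group G] [Group H] [Finite G], F G →
          ∀ f : G →* H, Function.Surjective f → F H) →
      (∀ (G H₁ H₂ : Type) [Group G] [Group H₁] [Group H₂] [Finite G],
          F H₁ → F H₂ → ∀ (f₁ : G →* H₁) (f₂ : G →* H₂),
            Function.Surjective f₁ → Function.Surjective f₂ →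
            f₁.ker ⊓ f₂.ker = ⊥ → F G) →
      (∀ (G : Type) [Group G] [Finite G], F G →
          ∀ N : Subgroup G, N.Normal → F N) →
      (∀ (G : Type) [Group G] [Finite G] (N M : Subgroup G),
          N.Normal → M.Normal → F N → F M → N ⊔ M = ⊤ → F G) →
      ∀ (G : Type) [Group G] [Finite G] (U V : Subgroup G),
        (∃ n : ℕ, ∃ c : ℕ → Subgroup G, c 0 = U ∧ c n = U ⊔ V ∧
          ∀ i < n, c i ≤ c (i + 1) ∧ ((c i).subgroupOf (c (i + 1))).Normal) →
        (∃ n : ℕ, ∃ c : ℕ → Subgroup G, c 0 = V ∧ c n = U ⊔ V ∧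
          ∀ i < n, c i ≤ c (i + 1) ∧ ((c i).subgroupOf (c (i + 1))).Normal) →
        (⨅ (H : Type) (_ : Group H) (_ : F H) (f : ↥(U ⊔ V) →* H)
            (_ : Function.Surjective f), f.ker).map (U ⊔ V).subtype =
          (⨅ (H : Type) (_ : Group H) (_ : F H) (f : ↥U →* H)
              (_ : Function.Surjective f), f.ker).map U.subtype ⊔
          (⨅ (H : Type) (_ : Group H) (_ : F H) (f : ↥V →* H)
              (_ : Function.Surjective f), f.ker).map V.subtype) := by
  intro hall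
  have hs : IsSimpleGroup (alternatingGroup (Fin 5)) := alternatingGroup.isSimpleGroup (by simp)
  obtain ⟨G, _, _, U, V, J, s, hUV, hU, hV, hsJ, hG, ⟨QU, _, fU, hfU, hQU, hJU⟩,
    ⟨QV, _, fV, hfV, hQV, hJV⟩⟩ := d.counter a5_comm a5_center
  have key := hall d.F ?_ ?_ ?_ ?_ G U V ?_ ?_
  · have h1 : s ∈ (⨅ (H : Type) (_ : Group H) (_ : d.F H) (f : ↥(U ⊔ V) →* H)
            (_ : Function.Surjective f), f.ker).map (U ⊔ V).subtype := by
      refine ⟨⟨s, by rw [hUV]; trivial⟩, ?_, rfl⟩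
      simp only [SetLike.mem_coe, Subgroup.mem_iInf]
      intro H _ hH f hf
      have hmem : ∀ x : G, x ∈ U ⊔ V := fun x => by rw [hUV]; trivial
      let i : G →* ↥(U ⊔ V) :=
        { toFun := fun x => ⟨x, hmem x⟩
          map_one' := rfl
          map_mul' := fun _ _ => rfl }
      have hi : Function.Surjective i := fun x => ⟨x.1, rfl⟩
      exact hG H (f.comp i) (hf.comp hi) hH
    rw [key] at h1
    apply hsJ
    have h2 : (⨅ (H : Type) (_ : Group H) (_ : d.F H) (f : ↥U →* H)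
              (_ : Function.Surjective f), f.ker).map U.subtype ⊔
          (⨅ (H : Type) (_ : Group H) (_ : d.F H) (f : ↥V →* H)
              (_ : Function.Surjective f), f.ker).map V.subtype ≤ J := by
      refine sup_le ?_ ?_
      · rintro _ ⟨x, hx, rfl⟩
        simp only [SetLike.mem_coe, Subgroup.mem_iInf] at hx
        exact hJU x (hx QU inferInstance hQU fU hfU)
      · rintro _ ⟨x, hx, rfl⟩
        simp only [SetLike.mem_coe, Subgroup.mem_iInf] at hx
        exact hJV x (hx QV inferInstance hQV fV hfV)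
    exact h2 h1
  · intro G H _ _ _ hG f hf
    exact Cls.quot hG f hf
  · intro G H₁ H₂ _ _ _ _ h1 h2 f₁ f₂ hf₁ hf₂ hk
    exact Cls.subdirect d.hH d.hcore h1 h2 f₁ f₂ hf₁ hf₂ hk
  · intro G _ _ hG N hN
    exact Cls.sub hG N hN
  · intro G _ _ N M hN hM h1 h2 hNM
    exact Cls.prod d.hH d.hT d.hlam d.id_mem d.Sig_mul N M hN hM h1 h2 hNM
  · rw [hUV]; exact chain_of_subnormal hU
  · rw [hUV]; exact chain_of_subnormal hV

/-- factoring a homomorphism through a surjective one -/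
lemma exists_lift {G Q P : Type} [Group G] [Group Q] [Group P] (f : G →* Q)
    (hf : Function.Surjective f) (g : G →* P) (h : f.ker ≤ g.ker) :
    ∃ k : Q →* P, ∀ x, k (f x) = g x := by
  refine ⟨f.liftOfSurjective hf ⟨g, h⟩, fun x => ?_⟩
  exact MonoidHom.liftOfRightInverse_comp_apply f _ _ ⟨g, h⟩ x

/-- the second statement fails -/
theorem second (d : Data Y D Eh T) :
    ¬ (∀ F : (G : Type) → [Group G] → Prop,
    (∀ (G : Type) [Group G] [Finite G] (Q : Type) [Group Q] (f : G →* Q),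
        Function.Surjective f → F G → F Q) →
    (∀ (G : Type) [Group G] [Finite G] (Q₁ : Type) [Group Q₁] (Q₂ : Type) [Group Q₂]
        (Q : Type) [Group Q] (f₁ : G →* Q₁) (f₂ : G →* Q₂) (f : G →* Q),
        Function.Surjective f₁ → Function.Surjective f₂ → Function.Surjective f →
        f.ker = f₁.ker ⊓ f₂.ker → F Q₁ → F Q₂ → F Q) →
    (∀ (G : Type) [Group G] [Finite G] (N : Subgroup G), N.Normal → F G → F ↥N) →
    (∀ (G : Type) [Group G] [Finite G] (N M : Subgroup G), N.Normal → M.Normal →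
        F ↥N → F ↥M → F ↥(N ⊔ M)) →
    (∀ (G : Type) [Group G] [Finite G] (N : Subgroup G), N.Normal → IsSolvable ↥N →
        (∀ (Q : Type) [Group Q] (f : G →* Q), Function.Surjective f →
            f.ker = (frattini ↥N).map N.subtype → F Q) → F G) →
    ∀ (G : Type) [Group G] [Finite G] (H K : Subgroup G),
      (∃ n : ℕ, ∃ c : ℕ → Subgroup G, c 0 = H ∧ c n = ⊤ ∧
        ∀ i < n, c i ≤ c (i + 1) ∧ ((c i).subgroupOf (c (i + 1))).Normal) →
      (∃ n : ℕ, ∃ c : ℕ → Subgroup G, c 0 = K ∧ c n = ⊤ ∧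
        ∀ i < n, c i ≤ c (i + 1) ∧ ((c i).subgroupOf (c (i + 1))).Normal) →
      (⨅ (N : Subgroup ↥(H ⊔ K)) (_ : N.Normal ∧ ∀ (Q : Type) [Group Q] (f : ↥(H ⊔ K) →* Q),
          Function.Surjective f → f.ker = N → F Q), N).map (H ⊔ K).subtype
        = (⨅ (N : Subgroup ↥H) (_ : N.Normal ∧ ∀ (Q : Type) [Group Q] (f : ↥H →* Q),
            Function.Surjective f → f.ker = N → F Q), N).map H.subtype
          ⊔ (⨅ (N : Subgroup ↥K) (_ : N.Normal ∧ ∀ (Q : Type) [Group Q] (f : ↥K →* Q),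
            Function.Surjective f → f.ker = N → F Q), N).map K.subtype) := by
  intro hall
  have hs : IsSimpleGroup (alternatingGroup (Fin 5)) := alternatingGroup.isSimpleGroup (by simp)
  obtain ⟨G, _, _, U, V, J, s, hUV, hU, hV, hsJ, hG, ⟨QU, _, fU, hfU, hQU, hJU⟩,
    ⟨QV, _, fV, hfV, hQV, hJV⟩⟩ := d.counter a5_comm a5_center
  have key := hall d.F ?_ ?_ ?_ ?_ ?_ G U V (chain_of_subnormal hU) (chain_of_subnormal hV)
  · have h1 : s ∈ (⨅ (N : Subgroup ↥(U ⊔ V)) (_ : N.Normal ∧ ∀ (Q : Type) [Group Q]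
          (f : ↥(U ⊔ V) →* Q), Function.Surjective f → f.ker = N → d.F Q), N).map
            (U ⊔ V).subtype := by
      refine ⟨⟨s, by rw [hUV]; trivial⟩, ?_, rfl⟩
      simp only [SetLike.mem_coe, Subgroup.mem_iInf]
      rintro N ⟨hN, hF⟩
      have hmem : ∀ x : G, x ∈ U ⊔ V := fun x => by rw [hUV]; trivial
      let i : G →* ↥(U ⊔ V) :=
        { toFun := fun x => ⟨x, hmem x⟩
          map_one' := rfl
          map_mul' := fun _ _ => rfl }
      have hi : Function.Surjective i := fun x => ⟨x.1, rfl⟩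
      have h2 := hG (↥(U ⊔ V) ⧸ N) ((QuotientGroup.mk' N).comp i)
        ((QuotientGroup.mk'_surjective N).comp hi)
        (hF _ (QuotientGroup.mk' N) (QuotientGroup.mk'_surjective N) (QuotientGroup.ker_mk' N))
      exact (QuotientGroup.eq_one_iff (i s)).1 h2
    rw [key] at h1
    apply hsJ
    have hW : ∀ (W : Subgroup G) (Q' : Type) [Group Q'] (f' : W →* Q'),
        Function.Surjective f' → d.F Q' → (∀ x : W, f' x = 1 → (x : G) ∈ J) →
        (⨅ (N : Subgroup ↥W) (_ : N.Normal ∧ ∀ (Q : Type) [Group Q] (f : ↥W →* Q),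
            Function.Surjective f → f.ker = N → d.F Q), N).map W.subtype ≤ J := by
      intro W Q' _ f' hf' hQ' hJ'
      rintro _ ⟨x, hx, rfl⟩
      simp only [SetLike.mem_coe, Subgroup.mem_iInf] at hx
      refine hJ' x (hx f'.ker ⟨f'.normal_ker, ?_⟩)
      intro Q _ f hf hker
      obtain ⟨k, hk⟩ := exists_lift f' hf' f hker.ge
      refine Cls.quot hQ' k ?_
      intro q
      obtain ⟨y, rfl⟩ := hf q
      exact ⟨f' y, hk y⟩
    exact (sup_le (hW U QU fU hfU hQU hJU) (hW V QV fV hfV hQV hJV)) h1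
  · intro G _ _ Q _ f hf hG
    exact Cls.quot hG f hf
  · intro G _ _ Q₁ _ Q₂ _ Q _ f₁ f₂ f hf₁ hf₂ hf hk h1 h2
    obtain ⟨k₁, hk₁⟩ := exists_lift f hf f₁ (by rw [hk]; exact inf_le_left)
    obtain ⟨k₂, hk₂⟩ := exists_lift f hf f₂ (by rw [hk]; exact inf_le_right)
    have : Finite Q := Finite.of_surjective f hf
    refine Cls.subdirect d.hH d.hcore h1 h2 k₁ k₂ ?_ ?_ ?_
    · intro q
      obtain ⟨y, rfl⟩ := hf₁ q
      exact ⟨f y, hk₁ y⟩
    · intro q
      obtain ⟨y, rfl⟩ := hf₂ q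
      exact ⟨f y, hk₂ y⟩
    · rw [Subgroup.eq_bot_iff_forall]
      intro q hq
      obtain ⟨x, rfl⟩ := hf q
      rw [Subgroup.mem_inf, MonoidHom.mem_ker, MonoidHom.mem_ker, hk₁, hk₂] at hq
      have h3 : x ∈ f.ker := by
        rw [hk]
        exact Subgroup.mem_inf.2 hq
      exact h3
  · intro G _ _ N hN hG
    exact Cls.sub hG N hN
  · intro G _ _ N M hN hM h1 h2
    have e1 : ∀ A : Subgroup G, A ≤ N ⊔ M → d.F A → d.F (A.subgroupOf (N ⊔ M)) := by
      intro A hA hF
      exact Cls.quot hF (Subgroup.subgroupOfEquivOfLe hA).symm.toMonoidHom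
        (Subgroup.subgroupOfEquivOfLe hA).symm.surjective
    refine Cls.prod d.hH d.hT d.hlam d.id_mem d.Sig_mul (N.subgroupOf (N ⊔ M))
      (M.subgroupOf (N ⊔ M)) (hN.subgroupOf _) (hM.subgroupOf _) (e1 N le_sup_left h1)
      (e1 M le_sup_right h2) ?_
    rw [eq_top_iff]
    rintro ⟨x, hx⟩ _
    obtain ⟨n, hn, m, hm, rfl⟩ := Subgroup.mem_sup_of_normal_left.1 hx
    have hn' : n ∈ N ⊔ M := (le_sup_left : N ≤ N ⊔ M) hn
    have hm' : m ∈ N ⊔ M := (le_sup_right : M ≤ N ⊔ M) hm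
    exact Subgroup.mul_mem_sup (show (⟨n, hn'⟩ : ↥(N ⊔ M)) ∈ N.subgroupOf (N ⊔ M) from hn)
      (show (⟨m, hm'⟩ : ↥(N ⊔ M)) ∈ M.subgroupOf (N ⊔ M) from hm)
  · intro G _ _ N hN hsol hF
    have hchar : ((frattini ↥N).map N.subtype).Normal := inferInstance
    have h1 := hF (G ⧸ (frattini ↥N).map N.subtype)
      (QuotientGroup.mk' _) (QuotientGroup.mk'_surjective _) (QuotientGroup.ker_mk' _)
    refine Cls.solv d.hH d.hcore h1 (QuotientGroup.mk' _) (QuotientGroup.mk'_surjective _) ?_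
    rw [QuotientGroup.ker_mk']
    have h2 : (frattini ↥N).map N.subtype ≤ N := by
      rintro _ ⟨x, _, rfl⟩
      exact x.2
    have h3 : Group.IsSolvable N := hsol
    exact Group.isSolvable_of_isSolvable_injective (Subgroup.inclusion_injective h2)

end

end Pool.Agent.Helper813
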