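import Pool.Agent.Helper813.Rig
import Pool.Agent.Helper813.Fin

set_option autoImplicit false

namespace Pool.Agent.Helper813

open DihedralGroup

/-- the concrete data -/
noncomputable def dat : Data Yg D8 Aff (T4 K5) where
  π := Yg.pi
  u := du
  v := dv
  hu := by decide
  hv := by decide
  uv1 := by decide
  uvu := by decide
  uvv := by decide
  clos := d8_clos
  gen := d8_gen
  usub := d8_sub du (by decide)
  vsub := d8_sub dv (by decide)
  πsurj := Yg.pi_surj
  Dsol := d8_sol
  ker_ne := ker_ne_c
  ker_perf := ker_perf_c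
  M := Mc
  hM := Mc_ne
  Msol := Mc_sol
  ker_alt := ker_alt_c
  Hh := Hc
  hH := Hc_ne
  hcore := Hc_core
  lam := lamc
  hlam := lamc_surj
  hT := t4_simple
  L := Lc
  hL := Lc_le
  φ₀ := phc
  φmul := phc_mul
  φsurj := phc_surj
  φL := phc_L
  ind := ind_c
  det := det_c
  rig := rig_c

end Pool.Agent.Helper813
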