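import Mathlib

set_option autoImplicit false

namespace Pool.Agent.Helper813

open scoped commutatorElement

section Heads

variable {G : Type*} [Group G]

/-- the normaliser of a subgroup -/
abbrev Nz (D : Subgroup G) : Subgroup G := Subgroup.normalizer (D : Set G)

lemma mem_Nz {D : Subgroup G} {g : G} : g ∈ Nz D ↔ ∀ x, x ∈ D ↔ g * x * g⁻¹ ∈ D :=
  Subgroup.mem_normalizer_iff

lemma le_Nz (D : Subgroup G) : D ≤ Nz D := Subgroup.le_normalizer

lemma Nz_conj {D : Subgroup G} {g x : G} (hg : g ∈ Nz D) (hx : x ∈ D) : g * x * g⁻¹ ∈ D :=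
  (mem_Nz.1 hg x).1 hx

lemma Nz_conj' {D : Subgroup G} {g x : G} (hg : g ∈ Nz D) (hx : x ∈ D) : g⁻¹ * x * g ∈ D := by
  have := Nz_conj (inv_mem hg) hx
  simpa using this

lemma mem_Nz_of {D : Subgroup G} {g : G} (h1 : ∀ x ∈ D, g * x * g⁻¹ ∈ D)
    (h2 : ∀ x ∈ D, g⁻¹ * x * g ∈ D) : g ∈ Nz D := by
  rw [mem_Nz]
  intro x
  refine ⟨h1 x, fun h => ?_⟩
  have := h2 _ h
  simpa [mul_assoc] using this

/-- `D` is nontrivial, perfect, and not a product of two proper normal subgroups. -/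
def Prim (D : Subgroup G) : Prop :=
  D ≠ ⊥ ∧ ⁅D, D⁆ = D ∧
    ∀ A B : Subgroup G, A ≤ D → B ≤ D → D ≤ Nz A → D ≤ Nz B → D ≤ A ⊔ B → D ≤ A ∨ D ≤ B

/-- a head of `G`: a subnormal perfect subgroup with a unique maximal normal subgroup. -/
def Head (D : Subgroup G) : Prop := D.IsSubnormal ∧ Prim D

lemma core {D D' M : Subgroup G} (hD : Prim D) (h1 : D ≤ Nz D') (h2 : D' ≤ Nz D)
    (h3 : D ≤ Nz M) (h4 : M ≤ Nz D) (h5 : D' ≤ Nz M)
    (h6 : ∀ d ∈ D, ∃ a ∈ D', ∃ m ∈ M, d = a * m) : D ≤ D' ∨ D ≤ M := by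
  have key : D ≤ D ⊓ D' ∨ D ≤ D ⊓ M := by
    refine hD.2.2 (D ⊓ D') (D ⊓ M) inf_le_left inf_le_left ?_ ?_ ?_
    · intro d hd
      refine mem_Nz_of ?_ ?_
      · rintro x ⟨hx1, hx2⟩
        exact Subgroup.mem_inf.2 ⟨Nz_conj (le_Nz D hd) hx1, Nz_conj (h1 hd) hx2⟩
      · rintro x ⟨hx1, hx2⟩
        exact Subgroup.mem_inf.2 ⟨Nz_conj' (le_Nz D hd) hx1, Nz_conj' (h1 hd) hx2⟩
    · intro d hd
      refine mem_Nz_of ?_ ?_
      · rintro x ⟨hx1, hx2⟩
        exact Subgroup.mem_inf.2 ⟨Nz_conj (le_Nz D hd) hx1, Nz_conj (h3 hd) hx2⟩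
      · rintro x ⟨hx1, hx2⟩
        exact Subgroup.mem_inf.2 ⟨Nz_conj' (le_Nz D hd) hx1, Nz_conj' (h3 hd) hx2⟩
    · rw [show (D ≤ D ⊓ D' ⊔ D ⊓ M) = (⁅D, D⁆ ≤ D ⊓ D' ⊔ D ⊓ M) by rw [hD.2.1]]
      rw [Subgroup.commutator_le]
      intro e he d hd
      obtain ⟨a, ha, m, hm, rfl⟩ := h6 d hd
      have e1 : ⁅e, a * m⁆ = (e * a * e⁻¹ * a⁻¹) * (a * (e * m * e⁻¹ * m⁻¹) * a⁻¹) := by
        rw [commutatorElement_def]; group
      rw [e1]
      refine Subgroup.mul_mem_sup (Subgroup.mem_inf.2 ⟨?_, ?_⟩) (Subgroup.mem_inf.2 ⟨?_, ?_⟩)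
      · have : e * a * e⁻¹ * a⁻¹ = e * (a * e⁻¹ * a⁻¹) := by group
        rw [this]
        exact mul_mem he (Nz_conj (h2 ha) (inv_mem he))
      · exact mul_mem (Nz_conj (h1 he) ha) (inv_mem ha)
      · refine Nz_conj (h2 ha) ?_
        have : e * m * e⁻¹ * m⁻¹ = e * (m * e⁻¹ * m⁻¹) := by group
        rw [this]
        exact mul_mem he (Nz_conj (h4 hm) (inv_mem he))
      · refine Nz_conj (h5 ha) ?_
        exact mul_mem (Nz_conj (h3 he) hm) (inv_mem hm)
  rcases key with h | h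
  · exact Or.inl (h.trans inf_le_right)
  · exact Or.inr (h.trans inf_le_right)

/-- conjugate subgroup `g D g⁻¹` -/
def cj (g : G) (D : Subgroup G) : Subgroup G := D.map (MulAut.conj g).toMonoidHom

lemma mem_cj {g x : G} {D : Subgroup G} : x ∈ cj g D ↔ g⁻¹ * x * g ∈ D := by
  constructor
  · rintro ⟨y, hy, rfl⟩
    have : g⁻¹ * ((MulAut.conj g).toMonoidHom y) * g = y := by
      simp [mul_assoc]
    rw [this]; exact hy
  · intro h
    refine ⟨_, h, ?_⟩
    simp [mul_assoc]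

lemma cj_mem {g x : G} {D : Subgroup G} (hx : x ∈ D) : g * x * g⁻¹ ∈ cj g D := by
  rw [mem_cj]; simpa [mul_assoc] using hx

/-- if `h` normalises `D` then `g h g⁻¹` normalises `cj g D`. -/
lemma Nz_cj {g h : G} {D : Subgroup G} (hh : g⁻¹ * h * g ∈ Nz D) : h ∈ Nz (cj g D) := by
  refine mem_Nz_of ?_ ?_
  · intro x hx
    rw [mem_cj] at hx ⊢
    have := Nz_conj hh hx
    convert this using 1; group
  · intro x hx
    rw [mem_cj] at hx ⊢
    have := Nz_conj' hh hx
    convert this using 1; group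

/-- the key comparison of `D` with a conjugate -/
lemma core_conj {D M : Subgroup G} (hD : Prim D) (hM : ¬ D ≤ M) (n : G)
    (h3 : D ≤ Nz M) (h4 : M ≤ Nz D) (h5 : cj n D ≤ Nz M) (h7 : M ≤ Nz (cj n D))
    (h6 : ∀ d ∈ D, ∃ a ∈ cj n D, ∃ m ∈ M, d = a * m)
    (h6' : ∀ a ∈ cj n D, ∃ d ∈ D, ∃ m ∈ M, a = d * m) : D ≤ cj n D := by
  have h1 : D ≤ Nz (cj n D) := by
    intro d hd
    obtain ⟨a, ha, m, hm, rfl⟩ := h6 d hd
    exact mul_mem (le_Nz _ ha) (h7 hm)
  have h2 : cj n D ≤ Nz D := by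
    intro a ha
    obtain ⟨d, hd, m, hm, rfl⟩ := h6' a ha
    exact mul_mem (le_Nz _ hd) (h4 hm)
  exact (core hD h1 h2 h3 h4 h5 h6).resolve_right hM

lemma mem_Nz_of_le_cj {D : Subgroup G} {n : G} (h1 : D ≤ cj n D) (h2 : D ≤ cj n⁻¹ D) :
    n ∈ Nz D := by
  refine mem_Nz_of ?_ ?_
  · intro x hx
    have := mem_cj.1 (h2 hx)
    simpa using this
  · intro x hx
    exact mem_cj.1 (h1 hx)

lemma normal_step {D H K N : Subgroup G} (hD : Prim D) (hN : N.Normal) (hDN : ¬ D ≤ N)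
    (hDH : D ≤ H) (hKH : K ≤ Nz H) (hNH : N ⊓ H ≤ Nz D) :
    N ⊓ K ≤ Nz D := by
  have main : ∀ n ∈ N ⊓ K, D ≤ cj n D := by
    rintro n ⟨hnN, hnK⟩
    have hnH : n ∈ Nz H := hKH hnK
    have hcjH : cj n D ≤ H := by
      intro x hx
      have h1 := hDH (mem_cj.1 hx)
      have h2 := Nz_conj hnH h1
      simpa [mul_assoc] using h2
    have hHM : H ≤ Nz (N ⊓ H) := by
      intro h hh
      refine mem_Nz_of ?_ ?_
      · rintro x ⟨hx1, hx2⟩
        exact Subgroup.mem_inf.2 ⟨hN.conj_mem x hx1 h, mul_mem (mul_mem hh hx2) (inv_mem hh)⟩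
      · rintro x ⟨hx1, hx2⟩
        refine Subgroup.mem_inf.2 ⟨?_, mul_mem (mul_mem (inv_mem hh) hx2) hh⟩
        have := hN.conj_mem x hx1 h⁻¹
        simpa using this
    refine core_conj (M := N ⊓ H) hD (fun h => hDN (h.trans inf_le_left)) n
      (hDH.trans hHM) hNH (hcjH.trans hHM) ?_ ?_ ?_
    · intro m hm
      refine Nz_cj (hNH (Subgroup.mem_inf.2 ⟨?_, ?_⟩))
      · have := hN.conj_mem m hm.1 n⁻¹
        simpa using this
      · exact Nz_conj' hnH hm.2
    · intro d hd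
      refine ⟨n * d * n⁻¹, cj_mem hd, (n * d * n⁻¹)⁻¹ * d, Subgroup.mem_inf.2 ⟨?_, ?_⟩, by group⟩
      · have h1 : (n * d * n⁻¹)⁻¹ * d = n * (d⁻¹ * n⁻¹ * d⁻¹⁻¹) := by group
        rw [h1]
        exact mul_mem hnN (hN.conj_mem _ (inv_mem hnN) d⁻¹)
      · exact mul_mem (inv_mem (hcjH (cj_mem hd))) (hDH hd)
    · intro a ha
      have hd := mem_cj.1 ha
      refine ⟨n⁻¹ * a * n, hd, (n⁻¹ * a * n)⁻¹ * a, Subgroup.mem_inf.2 ⟨?_, ?_⟩, by group⟩
      · have h1 : (n⁻¹ * a * n)⁻¹ * a = n⁻¹ * (a⁻¹ * n * a⁻¹⁻¹) := by group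
        rw [h1]
        exact mul_mem (inv_mem hnN) (hN.conj_mem _ hnN a⁻¹)
      · exact mul_mem (inv_mem (hDH hd)) (hcjH ha)
  intro n hn
  exact mem_Nz_of_le_cj (main n hn) (main n⁻¹ (inv_mem hn))

/-- A normal subgroup not containing a head normalises it. -/
lemma Head.normal_le_Nz {D N : Subgroup G} (hD : Head D) (hN : N.Normal) (hDN : ¬ D ≤ N) :
    N ≤ Nz D := by
  have key : ∀ K : Subgroup G, K.IsSubnormal → D ≤ K → N ⊓ K ≤ Nz D → N ≤ Nz D := by
    intro K hK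
    induction hK with
    | top => intro _ h; simpa using h
    | step H K h_le hSubn hNn ih =>
      intro hDH hNH
      have hKH : K ≤ Nz H := (Subgroup.normal_subgroupOf_iff_le_normalizer h_le).1 hNn
      exact ih (hDH.trans h_le) (normal_step hD.2 hN hDN hDH hKH hNH)
  exact key D hD.1 le_rfl (inf_le_right.trans (le_Nz D))

/-- If `N` normal, `D` a head not inside `N`, `n ∈ N`, `d ∈ D` then the commutator is in both. -/
lemma Head.comm_mem {D N : Subgroup G} (hD : Head D) (hN : N.Normal) (hDN : ¬ D ≤ N)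
    {n d : G} (hn : n ∈ N) (hd : d ∈ D) : n * d * n⁻¹ * d⁻¹ ∈ D ⊓ N := by
  refine Subgroup.mem_inf.2 ⟨mul_mem (Nz_conj (hD.normal_le_Nz hN hDN hn) hd) (inv_mem hd), ?_⟩
  have : n * d * n⁻¹ * d⁻¹ = n * (d * n⁻¹ * d⁻¹) := by group
  rw [this]
  exact mul_mem hn (hN.conj_mem _ (inv_mem hn) d)

end Heads

section Sup

variable {G : Type*} [Group G]

lemma mem_sup_prod {A B : Subgroup G} (hBA : B ≤ Nz A) {x : G} (hx : x ∈ A ⊔ B) :
    ∃ a ∈ A, ∃ b ∈ B, x = a * b := by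
  let P : Subgroup G :=
    { carrier := {x | ∃ a ∈ A, ∃ b ∈ B, x = a * b}
      one_mem' := ⟨1, one_mem _, 1, one_mem _, by simp⟩
      mul_mem' := by
        rintro _ _ ⟨a, ha, b, hb, rfl⟩ ⟨c, hc, d, hd, rfl⟩
        exact ⟨a * (b * c * b⁻¹), mul_mem ha (Nz_conj (hBA hb) hc), b * d, mul_mem hb hd, by group⟩
      inv_mem' := by
        rintro _ ⟨a, ha, b, hb, rfl⟩
        exact ⟨b⁻¹ * a⁻¹ * b, Nz_conj' (hBA hb) (inv_mem ha), b⁻¹, inv_mem hb, by group⟩ }
  have h1 : A ⊔ B ≤ P := sup_le (fun a ha => ⟨a, ha, 1, one_mem _, by simp⟩)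
    (fun b hb => ⟨1, one_mem _, b, hb, by simp⟩)
  exact h1 hx

end Sup

section Maps

variable {G H : Type*} [Group G] [Group H]

/-- images of heads -/
lemma Head.map {D : Subgroup G} (hD : Head D) {f : G →* H} (hf : Function.Surjective f)
    (hDf : ¬ D ≤ f.ker) : Head (D.map f) := by
  refine ⟨hD.1.map hf, ?_, ?_, ?_⟩
  · intro h
    exact hDf ((Subgroup.map_eq_bot_iff D).1 h)
  · rw [← Subgroup.map_commutator, hD.2.2.1]
  · intro A B hA hB hA' hB' hAB
    have hprod : ∀ d ∈ D, ∃ a ∈ A, ∃ b ∈ B, f d = a * b := by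
      intro d hd
      exact mem_sup_prod (hB.trans hA') (hAB ⟨d, hd, rfl⟩)
    have hNz : ∀ C : Subgroup H, D.map f ≤ Nz C → D ≤ Nz (D ⊓ C.comap f) := by
      intro C hC d hd
      refine mem_Nz_of ?_ ?_
      · rintro x hx
        rw [Subgroup.mem_inf] at hx ⊢
        refine ⟨mul_mem (mul_mem hd hx.1) (inv_mem hd), ?_⟩
        have := Nz_conj (hC ⟨d, hd, rfl⟩) hx.2
        simpa using this
      · rintro x hx
        rw [Subgroup.mem_inf] at hx ⊢
        refine ⟨mul_mem (mul_mem (inv_mem hd) hx.1) hd, ?_⟩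
        have := Nz_conj' (hC ⟨d, hd, rfl⟩) hx.2
        simpa using this
    have hle : D ≤ (D ⊓ A.comap f) ⊔ (D ⊓ B.comap f) := by
      intro d hd
      obtain ⟨a, ha, b, hb, hab⟩ := hprod d hd
      obtain ⟨b', hb', hbb⟩ := hB hb
      have e : d = (d * b'⁻¹) * b' := by group
      rw [e]
      refine Subgroup.mul_mem_sup (Subgroup.mem_inf.2 ⟨mul_mem hd (inv_mem hb'), ?_⟩)
        (Subgroup.mem_inf.2 ⟨hb', ?_⟩)
      · rw [Subgroup.mem_comap, map_mul, map_inv, hab, hbb]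
        simpa using ha
      · rw [Subgroup.mem_comap, hbb]; exact hb
    rcases hD.2.2.2 (D ⊓ A.comap f) (D ⊓ B.comap f) inf_le_left inf_le_left (hNz A hA')
      (hNz B hB') hle with h | h
    · left
      rintro _ ⟨d, hd, rfl⟩
      exact (Subgroup.mem_inf.1 (h hd)).2
    · right
      rintro _ ⟨d, hd, rfl⟩
      exact (Subgroup.mem_inf.1 (h hd)).2

/-- normalisers of heads and their images -/
lemma Head.mem_Nz_map {D : Subgroup G} (hD : Head D) {f : G →* H}
    (hDf : ¬ D ≤ f.ker) {g : G} : g ∈ Nz D ↔ f g ∈ Nz (D.map f) := by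
  constructor
  · intro hg
    refine mem_Nz_of ?_ ?_
    · rintro _ ⟨d, hd, rfl⟩
      exact ⟨g * d * g⁻¹, Nz_conj hg hd, by simp⟩
    · rintro _ ⟨d, hd, rfl⟩
      exact ⟨g⁻¹ * d * g, Nz_conj' hg hd, by simp⟩
  · have main : ∀ g : G, f g ∈ Nz (D.map f) → D ≤ cj g D := by
      intro g hg
      have hk : f.ker ≤ Nz D := hD.normal_le_Nz f.normal_ker hDf
      have hNk : ∀ C : Subgroup G, C ≤ Nz f.ker := by
        intro C
        have : Nz f.ker = ⊤ := Subgroup.normalizer_eq_top_iff.2 f.normal_ker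
        rw [this]; exact le_top
      refine core_conj (M := f.ker) hD.2 hDf g (hNk _) hk (hNk _) ?_ ?_ ?_
      · intro m hm
        exact Nz_cj (hk (by simpa using f.normal_ker.conj_mem m hm g⁻¹))
      · intro d hd
        obtain ⟨d', hd', h2⟩ := Nz_conj' hg (Subgroup.mem_map_of_mem f hd)
        refine ⟨g * d' * g⁻¹, cj_mem hd', (g * d' * g⁻¹)⁻¹ * d, ?_, by group⟩
        rw [MonoidHom.mem_ker]
        simp only [map_mul, map_inv, h2]
        group
      · intro a ha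
        have hd := mem_cj.1 ha
        obtain ⟨d', hd', h2⟩ := Nz_conj hg (Subgroup.mem_map_of_mem f hd)
        refine ⟨d', hd', d'⁻¹ * a, ?_, by group⟩
        rw [MonoidHom.mem_ker]
        simp only [map_mul, map_inv, h2]
        group
    intro hg
    refine mem_Nz_of_le_cj (main g hg) (main g⁻¹ ?_)
    rw [map_inv]; exact inv_mem hg

/-- lifting heads -/
lemma Head.lift [Finite G] {f : G →* H} (hf : Function.Surjective f) {D' : Subgroup H}
    (hD' : Head D') : ∃ D : Subgroup G, Head D ∧ D.map f = D' := by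
  have hfin : Set.Finite {D : Subgroup G | D.IsSubnormal ∧ D.map f = D'} := Set.toFinite _
  have hne : Set.Nonempty {D : Subgroup G | D.IsSubnormal ∧ D.map f = D'} :=
    ⟨D'.comap f, hD'.1.comap f, Subgroup.map_comap_eq_self_of_surjective hf D'⟩
  obtain ⟨D, hD, hmin⟩ := hfin.exists_minimal hne
  obtain ⟨hD1, hD2⟩ := hD
  have hsub : ∀ A : Subgroup G, A ≤ D → D ≤ Nz A → A.map f = D' → D ≤ A := by
    intro A hA hDA hAf
    refine hmin ⟨?_, hAf⟩ hA
    exact Subgroup.IsSubnormal.step A D hA hD1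
      ((Subgroup.normal_subgroupOf_iff_le_normalizer hA).2 hDA)
  refine ⟨D, ⟨hD1, ?_, ?_, ?_⟩, hD2⟩
  · rintro rfl
    rw [Subgroup.map_bot] at hD2
    exact hD'.2.1 hD2.symm
  · have h1 : ⁅D, D⁆ ≤ D := Subgroup.commutator_le.2 (fun a ha b hb => by
      rw [commutatorElement_def]
      exact mul_mem (mul_mem (mul_mem ha hb) (inv_mem ha)) (inv_mem hb))
    refine le_antisymm h1 (hsub _ h1 ?_ ?_)
    · intro d hd
      have hh : ∀ d ∈ D, ∀ x ∈ ⁅D, D⁆, d * x * d⁻¹ ∈ ⁅D, D⁆ := by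
        intro d hd x hx
        have e1 : d * x * d⁻¹ = ⁅d, x⁆ * x := by rw [commutatorElement_def]; group
        rw [e1]
        exact mul_mem (Subgroup.commutator_mem_commutator hd (h1 hx)) hx
      refine mem_Nz_of (hh d hd) ?_
      intro x hx
      have := hh d⁻¹ (inv_mem hd) x hx
      simpa using this
    · rw [Subgroup.map_commutator, hD2, hD'.2.2.1]
  · intro A B hA hB hA' hB' hAB
    have e : D' = A.map f ⊔ B.map f := by
      rw [← Subgroup.map_sup, ← hD2]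
      exact congrArg (Subgroup.map f) (le_antisymm hAB (sup_le hA hB))
    have hN : ∀ C : Subgroup G, D ≤ Nz C → D' ≤ Nz (C.map f) := by
      intro C hC
      rw [← hD2]
      exact (Subgroup.map_mono hC).trans (Subgroup.le_normalizer_map f)
    have hle : ∀ C : Subgroup G, C ≤ D → C.map f ≤ D' := by
      intro C hC
      rw [← hD2]; exact Subgroup.map_mono hC
    rcases hD'.2.2.2 (A.map f) (B.map f) (hle A hA) (hle B hB) (hN A hA') (hN B hB') e.le
      with h | h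
    · exact Or.inl (hsub A hA hA' (le_antisymm (hle A hA) h))
    · exact Or.inr (hsub B hB hB' (le_antisymm (hle B hB) h))

end Maps

section Inj

variable {G H : Type*} [Group G] [Group H]

/-- being `Prim` is invariant under injective homomorphisms -/
lemma Prim.map_inj {D : Subgroup G} (hD : Prim D) {f : G →* H} (hf : Function.Injective f) :
    Prim (D.map f) := by
  refine ⟨?_, ?_, ?_⟩
  · intro h
    rw [Subgroup.map_eq_bot_iff, (MonoidHom.ker_eq_bot_iff f).2 hf, le_bot_iff] at h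
    exact hD.1 h
  · rw [← Subgroup.map_commutator, hD.2.1]
  · intro A B hA hB hA' hB' hAB
    have hrA : ∀ C : Subgroup H, C ≤ D.map f → C.comap f ≤ D := by
      intro C hC x hx
      obtain ⟨d, hd, h⟩ := hC (Subgroup.mem_comap.1 hx)
      rw [← hf h]; exact hd
    have hNz : ∀ C : Subgroup H, D.map f ≤ Nz C → D ≤ Nz (C.comap f) := by
      intro C hC d hd
      refine mem_Nz_of ?_ ?_
      · intro x hx
        have := Nz_conj (hC ⟨d, hd, rfl⟩) (Subgroup.mem_comap.1 hx)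
        simpa using this
      · intro x hx
        have := Nz_conj' (hC ⟨d, hd, rfl⟩) (Subgroup.mem_comap.1 hx)
        simpa using this
    have hle : D ≤ A.comap f ⊔ B.comap f := by
      intro d hd
      obtain ⟨a, ha, b, hb, hab⟩ := mem_sup_prod (hB.trans hA') (hAB ⟨d, hd, rfl⟩)
      obtain ⟨a', ha', rfl⟩ := hA ha
      obtain ⟨b', hb', rfl⟩ := hB hb
      rw [← map_mul] at hab
      rw [hf hab]
      exact Subgroup.mul_mem_sup (Subgroup.mem_comap.2 ha) (Subgroup.mem_comap.2 hb)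
    rcases hD.2.2 (A.comap f) (B.comap f) (hrA A hA) (hrA B hB) (hNz A hA') (hNz B hB') hle
      with h | h
    · exact Or.inl (Subgroup.map_le_iff_le_comap.2 h)
    · exact Or.inr (Subgroup.map_le_iff_le_comap.2 h)

lemma Prim.of_map_inj {D : Subgroup G} {f : G →* H} (hf : Function.Injective f)
    (hD : Prim (D.map f)) : Prim D := by
  refine ⟨?_, ?_, ?_⟩
  · rintro rfl
    exact hD.1 (Subgroup.map_bot f)
  · have := hD.2.1
    rw [← Subgroup.map_commutator] at this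
    exact Subgroup.map_injective hf this
  · intro A B hA hB hA' hB' hAB
    have hN : ∀ C : Subgroup G, D ≤ Nz C → D.map f ≤ Nz (C.map f) := by
      intro C hC
      exact (Subgroup.map_mono hC).trans (Subgroup.le_normalizer_map f)
    have hle : D.map f ≤ A.map f ⊔ B.map f := by
      rw [← Subgroup.map_sup]; exact Subgroup.map_mono hAB
    rcases hD.2.2 (A.map f) (B.map f) (Subgroup.map_mono hA) (Subgroup.map_mono hB)
      (hN A hA') (hN B hB') hle with h | h
    · exact Or.inl ((Subgroup.map_le_map_iff_of_injective hf).1 h)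
    · exact Or.inr ((Subgroup.map_le_map_iff_of_injective hf).1 h)

/-- heads of a subnormal subgroup are heads -/
lemma Head.of_sub {N : Subgroup G} (hN : N.IsSubnormal) {D : Subgroup N} (hD : Head D) :
    Head (D.map N.subtype) :=
  ⟨hD.1.trans' hN, hD.2.map_inj N.subtype_injective⟩

/-- heads inside a subgroup are heads of it -/
lemma Head.to_sub {N : Subgroup G} {D : Subgroup G} (hD : Head D) (hDN : D ≤ N) :
    Head (D.subgroupOf N) := by
  refine ⟨hD.1.subgroupOf, Prim.of_map_inj N.subtype_injective ?_⟩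
  rw [Subgroup.map_subgroupOf_eq_of_le hDN]
  exact hD.2

end Inj

end Pool.Agent.Helper813
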