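import Pool.Agent.Helper813.Conc4

set_option autoImplicit false
set_option linter.unusedSectionVars false

namespace Pool.Agent.Helper813

open Matrix Matrix.SpecialLinearGroup DihedralGroup
open scoped MatrixGroups commutatorElement

lemma em_mul (a b a' b' : V5) (s s' : SL4 K5) :
    Yg.em a b s * Yg.em a' b' s' = Yg.em (a + (s : M5) *ᵥ a') (b + ((s⁻¹ : SL4 K5) : M5)ᵀ *ᵥ b')
      (s * s') := by
  apply Yg.ext
  · rfl
  · rfl
  · show (s : M5) * (s' : M5) = ((s * s' : SL4 K5) : M5)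
    rw [Matrix.SpecialLinearGroup.coe_mul]
  · show ((s⁻¹ : SL4 K5) : M5)ᵀ * ((s'⁻¹ : SL4 K5) : M5)ᵀ = (((s * s')⁻¹ : SL4 K5) : M5)ᵀ
    rw [_root_.mul_inv_rev, Matrix.SpecialLinearGroup.coe_mul, transpose_mul]
  · rfl

lemma em_one : Yg.em 0 0 1 = 1 := by
  apply Yg.ext <;> simp [Yg.em]

/-- the pure translations -/
def trn (a : V5) : Aff := ⟨a, 1⟩

lemma trn_mul (a b : V5) : trn a * trn b = trn (a + b) := by
  apply Aff.ext <;> simp [trn]

lemma trn_pow (a : V5) (n : ℕ) : trn a ^ n = trn (n • a) := by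
  induction n with
  | zero => simp [trn]; rfl
  | succ n ih => rw [pow_succ, ih, trn_mul, succ_nsmul]

lemma five_smul (a : V5) : (5 : ℕ) • a = 0 := by
  have h : ∀ x : K5, (5 : ℕ) • x = 0 := by decide
  funext i
  exact h (a i)

/-- second projection -/
def prA : Aff →* SL4 K5 where
  toFun x := x.s
  map_one' := rfl
  map_mul' _ _ := rfl

lemma prA_surj : Function.Surjective prA := fun s => ⟨⟨0, s⟩, rfl⟩

lemma sl_not_comm : ¬ ∀ x y : SL4 K5, x * y = y * x := by
  intro h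
  apply tv_not_center (F := K5)
  rw [Subgroup.mem_center_iff]
  intro g
  exact h _ _

/-- additive maps are linear -/
lemma map_smul5 (g : V5 → V5) (h0 : g 0 = 0) (h : ∀ a b, g (a + b) = g a + g b) (c : K5) (a : V5) :
    g (c • a) = c • g a := by
  have h1 : ∀ n : ℕ, ∀ a, g (n • a) = n • g a := by
    intro n a
    induction n with
    | zero => simp [h0]
    | succ n ih => rw [succ_nsmul, h, ih, succ_nsmul]
  obtain ⟨n, rfl⟩ := k5_nat c
  rw [Nat.cast_smul_eq_nsmul, h1, Nat.cast_smul_eq_nsmul]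

/-- automorphisms of the affine group -/
theorem aut_aff (θ : Aff →* Aff) (hs : Function.Surjective θ)
    (hH : ∀ x ∈ Hc, θ x ∈ Hc) :
    ∃ G : M5, (G.det = 1 ∨ G.det = -1) ∧ ∀ x : Aff, ((θ x).s : M5) * G = G * (x.s : M5) := by
  have hinj : Function.Injective θ := Finite.injective_iff_surjective.2 hs
  -- translations go to translations
  have hcomp : Function.Surjective (prA.comp θ) := prA_surj.comp hs
  have hN : ((prA.ker).map (prA.comp θ)).Normal := prA.normal_ker.map _ hcomp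
  have htr : ∀ a : V5, (θ (trn a)).s = 1 := by
    have hcen : (prA.ker).map (prA.comp θ) ≤ Subgroup.center (SL4 K5) := by
      rcases sl_normal _ hN with h | h
      · exfalso
        apply sl_not_comm
        have hc : ∀ x ∈ (prA.ker).map (prA.comp θ), ∀ y ∈ (prA.ker).map (prA.comp θ),
            x * y = y * x := by
          rintro _ ⟨x, hx, rfl⟩ _ ⟨y, hy, rfl⟩
          have hx' : x.s = 1 := hx
          have hy' : y.s = 1 := hy
          have hxy : x * y = y * x := by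
            apply Aff.ext
            · simp [hx', hy', add_comm]
            · simp [hx', hy']
          rw [← map_mul, hxy, map_mul]
        rw [h] at hc
        intro x y
        exact hc x (Subgroup.mem_top x) y (Subgroup.mem_top y)
      · exact h
    intro a
    have h1 : (θ (trn a)).s ∈ Subgroup.center (SL4 K5) :=
      hcen ⟨trn a, rfl, rfl⟩
    rw [mem_center_iff] at h1
    obtain ⟨c, _, hc⟩ := h1
    have h2 : (θ (trn a)).s ^ 5 = 1 := by
      have h3 : prA (θ (trn a)) ^ 5 = 1 := by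
        rw [← map_pow, ← map_pow, trn_pow, five_smul]
        have : trn 0 = 1 := rfl
        rw [this, map_one, map_one]
      exact h3
    have h3 : (Matrix.scalar (Fin 4) c) ^ 5 = 1 := by
      rw [hc, ← Matrix.SpecialLinearGroup.coe_pow, h2, Matrix.SpecialLinearGroup.coe_one]
    have h4 : c = 1 := by
      rw [← map_pow, k5_pow5] at h3
      have := congrFun (congrFun h3 0) 0
      simpa using this
    apply Subtype.ext
    rw [← hc, h4, map_one]
    rfl
  let g : V5 → V5 := fun a => (θ (trn a)).a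
  have hθ : ∀ a, θ (trn a) = trn (g a) := fun a => Aff.ext rfl (htr a)
  have g0 : g 0 = 0 := by
    show (θ (trn 0)).a = 0
    have : trn 0 = 1 := rfl
    rw [this, map_one]; rfl
  have gadd : ∀ a b, g (a + b) = g a + g b := by
    intro a b
    have h1 : trn (g (a + b)) = trn (g a + g b) := by
      rw [← hθ, ← trn_mul, map_mul, hθ, hθ, trn_mul]
    exact congrArg Aff.a h1
  have ginj : Function.Injective g := by
    intro a b hab
    have h1 : θ (trn a) = θ (trn b) := by rw [hθ, hθ, hab]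
    exact congrArg Aff.a (hinj h1)
  let gl : V5 →ₗ[K5] V5 :=
    { toFun := g
      map_add' := gadd
      map_smul' := fun c a => map_smul5 g g0 gadd c a }
  let G : M5 := LinearMap.toMatrix' gl
  have hG : ∀ a, G *ᵥ a = g a := fun a => LinearMap.toMatrix'_mulVec gl a
  have hdet : G.det ≠ 0 := by
    have h1 : Function.Injective G.mulVec := by
      intro a b hab
      apply ginj
      rw [← hG, ← hG]; exact hab
    have h2 := Matrix.mulVec_injective_iff_isUnit.1 h1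
    exact ((Matrix.isUnit_iff_isUnit_det G).1 h2).ne_zero
  have hrel : ∀ x : Aff, ((θ x).s : M5) * G = G * (x.s : M5) := by
    intro x
    apply Matrix.ext_of_mulVec_single
    intro i
    rw [← mulVec_mulVec, ← mulVec_mulVec, hG, hG]
    set w : V5 := Pi.single i 1
    have h1 : x * trn w = trn ((x.s : M5) *ᵥ w) * x := by
      apply Aff.ext
      · simp [trn, add_comm]
      · simp [trn]
    have h2 := congrArg θ h1
    rw [map_mul, map_mul, hθ, hθ] at h2
    have h3 := congrArg Aff.a h2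
    simp only [trn, Aff.mul_a, Matrix.SpecialLinearGroup.coe_one, one_mulVec] at h3
    rw [add_comm] at h3
    exact add_right_cancel h3
  refine ⟨G, ?_, hrel⟩
  -- orthogonality
  have horth : ∀ q : M5, q.det = 1 → q * qᵀ = 1 → (Gᵀ * G) * q = q * (Gᵀ * G) := by
    intro q hq hqq
    have h1 : (⟨0, ⟨q, hq⟩⟩ : Aff) ∈ Hc := ⟨rfl, hqq⟩
    have h2 := (mem_Hc.1 (hH _ h1)).2
    have h3 := hrel ⟨0, ⟨q, hq⟩⟩
    set σ : M5 := ((θ ⟨0, ⟨q, hq⟩⟩).s : M5) with hσ
    have h3' : σ * G = G * q := h3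
    have h4 : σᵀ * σ = 1 := mul_eq_one_comm.1 h2
    have h5 : Gᵀ * G = qᵀ * (Gᵀ * G) * q := by
      calc Gᵀ * G = Gᵀ * (σᵀ * σ) * G := by rw [h4, mul_one]
        _ = (σ * G)ᵀ * (σ * G) := by rw [transpose_mul]; simp only [mul_assoc]
        _ = (G * q)ᵀ * (G * q) := by rw [h3']
        _ = qᵀ * (Gᵀ * G) * q := by rw [transpose_mul]; simp only [mul_assoc]
    calc (Gᵀ * G) * q = (q * qᵀ) * (Gᵀ * G) * q := by rw [hqq, one_mul]
      _ = q * (qᵀ * (Gᵀ * G) * q) := by simp only [mul_assoc]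
      _ = q * (Gᵀ * G) := by rw [← h5]
  have hsc := commutant (Gᵀ * G) (horth q1 q1_det q1_orth) (horth q2 q2_det q2_orth)
    (horth q3 q3_det q3_orth)
  set c := (Gᵀ * G) 0 0 with hc
  have h1 : G.det * G.det = c ^ 4 := by
    have := congrArg Matrix.det hsc
    rw [det_mul, det_transpose, det_smul, det_one, mul_one] at this
    simpa using this
  have hc0 : c ≠ 0 := by
    intro h0
    rw [h0] at h1
    have h2 : G.det * G.det = 0 := by rw [h1]; rfl
    exact hdet (mul_self_eq_zero.1 h2)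
  rw [k5_pow c hc0] at h1
  exact k5_sq _ h1

lemma d8_c1 : (r 0 : D8) * du = du * r 0 ∧ (r 0 : D8) * dv = dv * r 0 := by decide
lemma d8_c2 : (r 2 : D8) * du = du * r 2 ∧ (r 2 : D8) * dv = dv * r 2 := by decide
lemma lg_neg : lg (-1) = 2 := by decide

theorem rig_c (φ : Yg → Aff)
    (h1 : ∀ x ∈ Yg.pi.ker, ∀ y ∈ Yg.pi.ker, φ (x * y) = φ x * φ y)
    (h2 : ∀ t, ∃ x ∈ Yg.pi.ker, φ x = t) (h3 : ∀ x ∈ Yg.pi.ker, (x ∈ Lc ↔ φ x ∈ Hc)) :
    ∃ y₀ : Yg, Yg.pi y₀ * du = du * Yg.pi y₀ ∧ Yg.pi y₀ * dv = dv * Yg.pi y₀ ∧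
      ∀ x ∈ Yg.pi.ker, lamc (φ x) = lamc (phc (y₀ * x * y₀⁻¹)) := by
  have φ1 : φ 1 = 1 := by
    have h := h1 1 (one_mem _) 1 (one_mem _)
    rw [mul_one] at h
    exact (mul_eq_left.1 h.symm)
  have φinv : ∀ x ∈ Yg.pi.ker, φ x⁻¹ = (φ x)⁻¹ := by
    intro x hx
    have h := h1 x⁻¹ (inv_mem hx) x hx
    rw [inv_mul_cancel, φ1] at h
    exact eq_inv_of_mul_eq_one_left h.symm
  -- the dual translations are killed
  let N : Subgroup Aff :=
    { carrier := {t | ∃ b : V5, φ (Yg.em 0 b 1) = t}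
      one_mem' := ⟨0, by rw [em_one, φ1]⟩
      mul_mem' := by
        rintro _ _ ⟨b, rfl⟩ ⟨c, rfl⟩
        refine ⟨b + c, ?_⟩
        rw [← h1 _ (Yg.em_mem _ _ _) _ (Yg.em_mem _ _ _), em_mul]
        simp
      inv_mem' := by
        rintro _ ⟨b, rfl⟩
        refine ⟨-b, ?_⟩
        rw [← φinv _ (Yg.em_mem _ _ _)]
        congr 1
        rw [eq_comm, inv_eq_iff_mul_eq_one, em_mul, ← em_one]
        simp }
  have hN : N.Normal := by
    constructor
    rintro _ ⟨b, rfl⟩ t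
    obtain ⟨x, hx, rfl⟩ := h2 t
    refine ⟨x.B *ᵥ b, ?_⟩
    rw [← φinv x hx, ← h1 x hx _ (Yg.em_mem _ _ _),
      ← h1 _ (mul_mem hx (Yg.em_mem _ _ _)) _ (inv_mem hx)]
    congr 1
    have hxe := (Yg.mem_ker.1 hx).1
    have hh := x.h
    have hh2 := x.h2
    apply Yg.ext
    · simp [Yg.em, hxe, hh, neg_mulVec, mulVec_neg]
    · simp [Yg.em, hxe, hh2, neg_mulVec, mulVec_neg]
    · simp [Yg.em, hxe, hh]
    · simp [Yg.em, hxe, hh2]
    · simp [Yg.em, hxe]
  have hNH : N ≤ Hc := by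
    rintro _ ⟨b, rfl⟩
    rw [← h3 _ (Yg.em_mem _ _ _)]
    refine ⟨rfl, ?_, rfl, ?_⟩
    · show ((1 : SL4 K5) : M5).det = 1
      simp
    · show ((1 : SL4 K5) : M5) * ((1 : SL4 K5) : M5)ᵀ = 1
      simp
  have hN1 : ∀ b : V5, φ (Yg.em 0 b 1) = 1 := by
    intro b
    have h : φ (Yg.em 0 b 1) ∈ N := ⟨b, rfl⟩
    rw [Hc_core N hN hNH] at h
    exact Subgroup.mem_bot.1 h
  let θ : Aff →* Aff :=
    { toFun := fun x => φ (Yg.em x.a 0 x.s)
      map_one' := by
        show φ (Yg.em 0 0 1) = 1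
        rw [em_one, φ1]
      map_mul' := by
        intro x y
        show φ (Yg.em (x.a + (x.s : M5) *ᵥ y.a) 0 (x.s * y.s)) =
          φ (Yg.em x.a 0 x.s) * φ (Yg.em y.a 0 y.s)
        rw [← h1 _ (Yg.em_mem _ _ _) _ (Yg.em_mem _ _ _), em_mul]
        simp }
  have hθ : ∀ x ∈ Yg.pi.ker, φ x = θ (phc x) := by
    intro x hx
    have hx' := Yg.mem_ker.1 hx
    obtain ⟨s, hs⟩ : ∃ s : SL4 K5, (s : M5) = x.A := ⟨⟨x.A, hx'.2⟩, rfl⟩
    have e : x = Yg.em 0 x.b 1 * Yg.em x.a 0 s := by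
      rw [em_mul]
      apply Yg.ext
      · simp [Yg.em]
      · simp [Yg.em]
      · simp [Yg.em, hs]
      · apply B_eq
        simp [Yg.em, hs]
      · simp [Yg.em, hx'.1]
    have e2 : phc x = ⟨x.a, s⟩ := aff_ext (phc_a hx) ((phc_s hx).trans hs.symm)
    rw [e2]
    show φ x = φ (Yg.em x.a 0 s)
    conv_lhs => rw [e]
    rw [h1 _ (Yg.em_mem _ _ _) _ (Yg.em_mem _ _ _), hN1, one_mul]
  have hs : Function.Surjective θ := by
    intro t
    obtain ⟨x, hx, rfl⟩ := h2 t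
    exact ⟨phc x, (hθ x hx).symm⟩
  have hH : ∀ x ∈ Hc, θ x ∈ Hc := by
    intro x hx
    show φ (Yg.em x.a 0 x.s) ∈ Hc
    rw [← h3 _ (Yg.em_mem _ _ _), phc_L _ (Yg.em_mem _ _ _), phc_em]
    exact hx
  obtain ⟨G, hG, hrel⟩ := aut_aff θ hs hH
  have hu : IsUnit G.det := by
    rcases hG with h | h
    · rw [h]; exact isUnit_one
    · rw [h]; exact isUnit_one.neg
  have hpi : Yg.pi (Yg.gl 0 0 G hu) = r (lg G.det) := rfl
  refine ⟨Yg.gl 0 0 G hu, ?_, ?_, ?_⟩
  · rw [hpi]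
    rcases hG with h | h
    · rw [h, lg_one]; exact d8_c1.1
    · rw [h, lg_neg]; exact d8_c2.1
  · rw [hpi]
    rcases hG with h | h
    · rw [h, lg_one]; exact d8_c1.2
    · rw [h, lg_neg]; exact d8_c2.2
  · intro x hx
    have hxe := (Yg.mem_ker.1 hx).1
    have hk := ker_conj (b := Yg.gl 0 0 G hu) hx
    rw [hθ x hx]
    show ((θ (phc x)).s : T4 K5) = ((phc (Yg.gl 0 0 G hu * x * (Yg.gl 0 0 G hu)⁻¹)).s : T4 K5)
    rw [t4_eq]
    refine ⟨1, ?_⟩
    rw [one_smul, phc_s hk, conj_A_false rfl hxe]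
    have h4 := hrel (phc x)
    rw [phc_s hx] at h4
    show G * x.A * (G⁻¹)ᵀᵀ = ((θ (phc x)).s : M5)
    rw [transpose_transpose, ← h4, mul_assoc, Matrix.mul_nonsing_inv G hu, mul_one]

end Pool.Agent.Helper813
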