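import Mathlib

set_option autoImplicit false
set_option linter.unusedSectionVars false

namespace Pool.Agent.Helper813

open Matrix Matrix.SpecialLinearGroup
open scoped MatrixGroups commutatorElement

variable {F : Type} [Field F]

lemma mat_decomp {i j : Fin 4} (hij : i ≠ j) {c : F} (hc : c ≠ 0) :
    (1 + single i j c) * (1 + single j i (-c⁻¹)) * (1 + single i j c) * (1 + single i j (-1)) *
      (1 + single j i 1) * (1 + single i j (-1)) = 
      (diagonal (fun k ↦ if k = i then c else if k = j then c⁻¹ else 1) :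
        Matrix (Fin 4) (Fin 4) F) := by
  have hji := hij.symm
  simp only [mul_add, add_mul, one_mul,
    mul_one, single_mul_single_same, single_mul_single_of_ne, hij, hji, ne_eq, not_false_eq_true]
  ext k l
  simp only [diagonal_apply, Matrix.add_apply, single_apply, one_apply]
  by_cases h1 : k = l
  · subst h1
    by_cases h2 : i = k
    · subst h2
      simp [hij, hji, hc]
    · by_cases h3 : j = k
      · subst h3
        simp [hij, hji, hc]
      · simp [h2, h3, Ne.symm h2, Ne.symm h3]
  · by_cases h2 : i = k <;> by_cases h3 : j = k <;> by_cases h4 : i = l <;> by_cases h5 : j = l <;>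
      simp_all

abbrev SL4 (F : Type) [Field F] := SpecialLinearGroup (Fin 4) F

abbrev tv {i j : Fin 4} (hij : i ≠ j) (b : F) : SL4 F := SpecialLinearGroup.transvection hij b

lemma diag_decomp {i j : Fin 4} (hij : i ≠ j) {c : F} (hc : c ≠ 0) :
    diag2n hij c hc = tv hij c * tv hij.symm (-c⁻¹) * tv hij c * tv hij (-1) *
      tv hij.symm 1 * tv hij (-1) := by
  apply Subtype.ext
  exact (mat_decomp hij hc).symm

/-- generation by transvections -/
lemma sl_induction (P : SL4 F → Prop) (h1 : ∀ (i j : Fin 4) (hij : i ≠ j) (a : F), P (tv hij a))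
    (h2 : ∀ A B, P A → P B → P (A * B)) (M : SL4 F) : P M := by
  refine diagonal_transvection_induction' P M (fun i j hij c hc => ?_) h1 h2
  rw [diag_decomp hij hc]
  refine h2 _ _ (h2 _ _ (h2 _ _ (h2 _ _ (h2 _ _ ?_ ?_) ?_) ?_) ?_) ?_
  all_goals exact h1 _ _ _ _

lemma tv_comm {i j k : Fin 4} (hij : i ≠ j) (hik : i ≠ k) (hkj : k ≠ j) (a : F) :
    ⁅tv hik a, tv hkj 1⁆ = tv hij a := by
  rw [commutatorElement_def, SpecialLinearGroup.transvection_inv, SpecialLinearGroup.transvection_inv]
  apply Subtype.ext
  show (1 + single i k a) * (1 + single k j 1) * (1 + single i k (-a)) * (1 + single k j (-1)) =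
    (1 + single i j a : Matrix (Fin 4) (Fin 4) F)
  have hki := hik.symm
  have hjk := hkj.symm
  have hji := hij.symm
  simp only [mul_add, add_mul, one_mul,
    mul_one, single_mul_single_same, single_mul_single_of_ne, hij, hji, hik, hki, hkj, hjk, ne_eq,
    not_false_eq_true, zero_mul, add_zero, mul_neg]
  ext p q
  simp only [Matrix.add_apply, single_apply, one_apply]
  by_cases h1 : i = p <;> by_cases h2 : k = q <;> by_cases h3 : j = q <;> by_cases h4 : k = p <;>
    simp_all

lemma sl_perfect : commutator (SL4 F) = ⊤ := by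
  refine le_antisymm le_top (fun A _ => ?_)
  refine sl_induction (fun A => A ∈ commutator (SL4 F)) ?_ (fun A B => mul_mem) A
  intro i j hij a
  obtain ⟨k, hik, hkj⟩ : ∃ k : Fin 4, i ≠ k ∧ k ≠ j := by
    revert i j
    decide
  rw [← tv_comm hij hik hkj a]
  exact Subgroup.commutator_mem_commutator (Subgroup.mem_top _) (Subgroup.mem_top _)

open scoped LinearAlgebra.Projectivization

lemma iSup_lineStab : (⨆ p : ℙ F (Fin 4 → F), lineStab p.submodule) = (⊤ : Subgroup (SL4 F)) := by
  refine le_antisymm le_top (fun A _ => ?_)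
  refine sl_induction (fun A => A ∈ (⨆ p : ℙ F (Fin 4 → F), lineStab p.submodule)) ?_
    (fun A B => mul_mem) A
  intro i j hij a
  have h0 : (Pi.single i (1 : F) : Fin 4 → F) ≠ 0 := Pi.single_ne_zero_iff.2 one_ne_zero
  refine Subgroup.mem_iSup_of_mem (Projectivization.mk F _ h0) ?_
  rw [Projectivization.submodule_mk]
  exact SL2Gen.transvection_mem_lineStab hij a

/-- The Iwasawa structure on SL. -/
noncomputable def slIwa : MulAction.IwasawaStructure (SL4 F) (ℙ F (Fin 4 → F)) where
  T p := lineStab p.submodule
  is_comm p := by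
    rw [← Projectivization.mk_rep p, Projectivization.submodule_mk]
    exact lineStab_isMulCommutative_of_span p.rep p.rep_nonzero
  is_conj g p := by
    rw [PSL.smul_submodule, Matrix.SpecialLinearGroup.lineStab_smul]
  is_generator := iSup_lineStab

/-- normal subgroups of SL(4) are central or everything -/
theorem sl_normal (N : Subgroup (SL4 F)) (hN : N.Normal) :
    N = ⊤ ∨ N ≤ Subgroup.center (SL4 F) := by
  by_cases h : MulAction.fixedPoints N (ℙ F (Fin 4 → F)) = .univ
  · right
    rw [← Projectivization.SL_mulAction_ker]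
    intro n hn
    rw [MonoidHom.mem_ker]
    ext x
    have h1 : x ∈ MulAction.fixedPoints N (ℙ F (Fin 4 → F)) := by rw [h]; trivial
    exact h1 ⟨n, hn⟩
  · left
    have h1 := (slIwa (F := F)).commutator_le N h
    rw [sl_perfect] at h1
    exact top_le_iff.1 h1

/-- the projective group -/
abbrev T4 (F : Type) [Field F] := SL4 F ⧸ Subgroup.center (SL4 F)

lemma tv_not_center : tv (show (0 : Fin 4) ≠ 1 by decide) (1 : F) ∉ Subgroup.center (SL4 F) := by
  rw [transvection_mem_center_iff]
  exact one_ne_zero

theorem t4_simple : IsSimpleGroup (T4 F) := by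
  have hnt : Nontrivial (T4 F) := by
    refine ⟨⟨QuotientGroup.mk (tv (show (0 : Fin 4) ≠ 1 by decide) (1 : F)), 1, ?_⟩⟩
    intro h
    rw [QuotientGroup.eq_one_iff] at h
    exact tv_not_center h
  refine ⟨?_⟩
  intro N hN
  rcases sl_normal (N.comap (QuotientGroup.mk' _)) (hN.comap _) with h | h
  · right
    rw [eq_top_iff]
    intro x _
    obtain ⟨y, rfl⟩ := QuotientGroup.mk_surjective x
    have : y ∈ N.comap (QuotientGroup.mk' _) := by rw [h]; trivial
    exact this
  · left
    rw [Subgroup.eq_bot_iff_forall]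
    intro x hx
    obtain ⟨y, rfl⟩ := QuotientGroup.mk_surjective x
    rw [QuotientGroup.eq_one_iff]
    exact h hx

end Pool.Agent.Helper813
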